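import Mathlib

/-!
# Nearly degenerate clusters at the vertices of a simplex

For `ε > 0` the point `pt own T S ε (i, a)` of `ℝ ^ d` lies near the `i`-th vertex of the standard
simplex; its barycentric coordinate with index `k ≠ i` is
`ε * (T ^ (i * k) * (S or 1) + ε * a)`, where the factor is `S` exactly when `a = own i k`.

`Lim` is what is left, in the limit `ε → 0`, of a common point of the hulls of the colour classes
in `I`; `trop` extracts the combinatorial information when `T` and `S` are large.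
-/

set_option autoImplicit false

namespace Pool.Agent.MP_59bbdb_co

open Finset Filter Topology

section Defs

variable {d M : ℕ}

/-- Leading displacement. -/
noncomputable def dl (own : Fin (d + 1) → Fin (d + 1) → Fin M) (T S : ℝ)
    (q : Fin (d + 1) × Fin M) (k : Fin (d + 1)) : ℝ :=
  T ^ ((q.1 : ℕ) * (k : ℕ)) * (if q.2 = own q.1 k then S else 1)

/-- Perturbed displacement. -/
noncomputable def dle (own : Fin (d + 1) → Fin (d + 1) → Fin M) (T S ε : ℝ)
    (q : Fin (d + 1) × Fin M) (k : Fin (d + 1)) : ℝ :=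
  dl own T S q k + ε * ((q.2 : ℕ) : ℝ)

/-- Barycentric coordinates of the points. -/
noncomputable def bary (own : Fin (d + 1) → Fin (d + 1) → Fin M) (T S ε : ℝ)
    (q : Fin (d + 1) × Fin M) (k : Fin (d + 1)) : ℝ :=
  if k = q.1 then 1 - ε * ∑ k' ∈ univ.erase q.1, dle own T S ε q k'
  else ε * dle own T S ε q k

/-- The points. -/
noncomputable def pt (own : Fin (d + 1) → Fin (d + 1) → Fin M) (T S ε : ℝ)
    (q : Fin (d + 1) × Fin M) : EuclideanSpace ℝ (Fin d) :=
  WithLp.toLp 2 (fun j => bary own T S ε q j.succ)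

variable (own : Fin (d + 1) → Fin (d + 1) → Fin M) (T S : ℝ)

lemma sum_bary (ε : ℝ) (q : Fin (d + 1) × Fin M) : ∑ k, bary own T S ε q k = 1 := by
  rw [← Finset.add_sum_erase _ _ (Finset.mem_univ q.1)]
  have h1 : bary own T S ε q q.1 = 1 - ε * ∑ k' ∈ univ.erase q.1, dle own T S ε q k' := by
    simp [bary]
  have h2 : ∑ k ∈ univ.erase q.1, bary own T S ε q k
      = ε * ∑ k' ∈ univ.erase q.1, dle own T S ε q k' := by
    rw [Finset.mul_sum]
    apply Finset.sum_congr rfl
    intro k hk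
    rw [bary, if_neg (Finset.ne_of_mem_erase hk)]
  rw [h1, h2]
  ring

lemma continuous_dle (q : Fin (d + 1) × Fin M) (k : Fin (d + 1)) :
    Continuous (fun ε => dle own T S ε q k) := by
  unfold dle
  fun_prop

lemma continuous_bary (q : Fin (d + 1) × Fin M) (k : Fin (d + 1)) :
    Continuous (fun ε => bary own T S ε q k) := by
  unfold bary
  split_ifs
  · exact continuous_const.sub (continuous_id.mul
      (continuous_finsetSum _ (fun k' _ => continuous_dle own T S q k')))
  · exact continuous_id.mul (continuous_dle own T S q k)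

lemma bary_zero (q : Fin (d + 1) × Fin M) (k : Fin (d + 1)) :
    bary own T S 0 q k = if k = q.1 then 1 else 0 := by
  simp [bary]

variable {m : ℕ} (c : Fin (d + 1) × Fin M → Fin m) (I : Finset (Fin m))

/-- `w` is a family of probability weights, the one with index `A ∈ I` on the points of
colour `A`. -/
def Wt (w : Fin m → Fin (d + 1) × Fin M → ℝ) : Prop :=
  ∀ A ∈ I, (∀ q, 0 ≤ w A q) ∧ ∑ q, w A q = 1 ∧ ∀ q, c q ≠ A → w A q = 0

/-- The hulls of the classes in `I` have a common point, at parameter `ε`. -/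
def Good (ε : ℝ) : Prop :=
  ∃ w : Fin m → Fin (d + 1) × Fin M → ℝ, Wt c I w ∧
    ∀ A ∈ I, ∀ A' ∈ I, ∀ k, ∑ q, w A q * bary own T S ε q k = ∑ q, w A' q * bary own T S ε q k

/-- The limit of `Good` as `ε → 0`. -/
def Lim : Prop :=
  ∃ w : Fin m → Fin (d + 1) × Fin M → ℝ, Wt c I w ∧
    (∀ A ∈ I, ∀ A' ∈ I, ∀ k : Fin (d + 1),
      ∑ q : Fin (d + 1) × Fin M, (if q.1 = k then w A q else 0)
        = ∑ q : Fin (d + 1) × Fin M, (if q.1 = k then w A' q else 0)) ∧
    ∀ k : Fin (d + 1), ∀ B ∈ I, (∀ q : Fin (d + 1) × Fin M, q.1 = k → c q ≠ B) → ∀ A ∈ I,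
      ∑ q : Fin (d + 1) × Fin M, (if q.1 = k then 0 else w A q * dl own T S q k)
        ≤ ∑ q : Fin (d + 1) × Fin M, (if q.1 = k then 0 else w B q * dl own T S q k)

lemma dle_star {ε : ℝ} (hε : 0 < ε) (hpos : ∀ q : Fin (d + 1) × Fin M, 0 ≤ bary own T S ε q q.1)
    (w : Fin m → Fin (d + 1) × Fin M → ℝ) (hw : Wt c I w)
    (heq : ∀ A ∈ I, ∀ A' ∈ I, ∀ k,
      ∑ q, w A q * bary own T S ε q k = ∑ q, w A' q * bary own T S ε q k)
    (k : Fin (d + 1)) (B : Fin m) (hB : B ∈ I)
    (hmiss : ∀ q : Fin (d + 1) × Fin M, q.1 = k → c q ≠ B) (A : Fin m) (hA : A ∈ I) :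
    ∑ q : Fin (d + 1) × Fin M, (if q.1 = k then 0 else w A q * dle own T S ε q k)
      ≤ ∑ q : Fin (d + 1) × Fin M, (if q.1 = k then 0 else w B q * dle own T S ε q k) := by
  have h1 : ε * ∑ q : Fin (d + 1) × Fin M, (if q.1 = k then 0 else w A q * dle own T S ε q k)
      ≤ ∑ q, w A q * bary own T S ε q k := by
    rw [Finset.mul_sum]
    apply Finset.sum_le_sum
    intro q _
    by_cases h : q.1 = k
    · rw [if_pos h, mul_zero]
      subst h
      exact mul_nonneg ((hw A hA).1 q) (hpos q)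
    · rw [if_neg h, bary, if_neg (fun h' => h h'.symm)]
      apply le_of_eq
      ring
  have h2 : ε * ∑ q : Fin (d + 1) × Fin M, (if q.1 = k then 0 else w B q * dle own T S ε q k)
      = ∑ q, w B q * bary own T S ε q k := by
    rw [Finset.mul_sum]
    apply Finset.sum_congr rfl
    intro q _
    by_cases h : q.1 = k
    · rw [if_pos h, mul_zero, (hw B hB).2.2 q (hmiss q h), zero_mul]
    · rw [if_neg h, bary, if_neg (fun h' => h h'.symm)]
      ring
  have h3 := heq A hA B hB k
  have h4 : ε * ∑ q : Fin (d + 1) × Fin M, (if q.1 = k then 0 else w A q * dle own T S ε q k)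
      ≤ ε * ∑ q : Fin (d + 1) × Fin M, (if q.1 = k then 0 else w B q * dle own T S ε q k) := by
    rw [h2, ← h3]
    exact h1
  exact le_of_mul_le_mul_left h4 hε

lemma eventually_bary_pos :
    ∀ᶠ ε in 𝓝[>] (0 : ℝ), ∀ q : Fin (d + 1) × Fin M, 0 ≤ bary own T S ε q q.1 := by
  rw [Filter.eventually_all]
  intro q
  have h := (continuous_bary own T S q q.1).tendsto 0
  rw [bary_zero, if_pos rfl] at h
  have h2 : ∀ᶠ ε in 𝓝 (0 : ℝ), 0 < bary own T S ε q q.1 :=
    h.eventually (lt_mem_nhds one_pos)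
  exact (h2.filter_mono nhdsWithin_le_nhds).mono (fun _ h => le_of_lt h)

/-- Compactness. -/
theorem lim_of_frequently (hf : ∃ᶠ ε in 𝓝[>] (0 : ℝ), Good own T S c I ε) : Lim own T S c I := by
  classical
  let C1 : Set (ℝ × (Fin m → Fin (d + 1) × Fin M → ℝ)) := ⋂ A ∈ I, {x | ∑ q, x.2 A q = 1}
  let C2 : Set (ℝ × (Fin m → Fin (d + 1) × Fin M → ℝ)) := ⋂ A ∈ I, ⋂ q, ⋂ (_ : c q ≠ A), {x | x.2 A q = 0}
  let C3 : Set (ℝ × (Fin m → Fin (d + 1) × Fin M → ℝ)) := ⋂ A ∈ I, ⋂ A' ∈ I, ⋂ k,
    {x | ∑ q, x.2 A q * bary own T S x.1 q k = ∑ q, x.2 A' q * bary own T S x.1 q k}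
  let C4 : Set (ℝ × (Fin m → Fin (d + 1) × Fin M → ℝ)) := ⋂ k : Fin (d + 1), ⋂ B ∈ I,
    ⋂ (_ : ∀ q : Fin (d + 1) × Fin M, q.1 = k → c q ≠ B), ⋂ A ∈ I,
      {x | ∑ q : Fin (d + 1) × Fin M, (if q.1 = k then 0 else x.2 A q * dle own T S x.1 q k)
        ≤ ∑ q : Fin (d + 1) × Fin M, (if q.1 = k then 0 else x.2 B q * dle own T S x.1 q k)}
  have hw : ∀ A q, Continuous (fun x : ℝ × (Fin m → Fin (d + 1) × Fin M → ℝ) => x.2 A q) := by
    intro A q
    fun_prop
  have hb : ∀ q k, Continuous (fun x : ℝ × (Fin m → Fin (d + 1) × Fin M → ℝ) => bary own T S x.1 q k) := fun q k =>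
    (continuous_bary own T S q k).comp continuous_fst
  have hdl : ∀ q k, Continuous (fun x : ℝ × (Fin m → Fin (d + 1) × Fin M → ℝ) => dle own T S x.1 q k) := fun q k =>
    (continuous_dle own T S q k).comp continuous_fst
  have hC1 : IsClosed C1 := by
    refine isClosed_iInter (fun A => isClosed_iInter (fun _ => ?_))
    exact isClosed_eq (continuous_finsetSum _ (fun q _ => hw A q)) continuous_const
  have hC2 : IsClosed C2 := by
    refine isClosed_iInter (fun A => isClosed_iInter (fun _ => isClosed_iInter (fun q =>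
      isClosed_iInter (fun _ => ?_))))
    exact isClosed_eq (hw A q) continuous_const
  have hC3 : IsClosed C3 := by
    refine isClosed_iInter (fun A => isClosed_iInter (fun _ => isClosed_iInter (fun A' =>
      isClosed_iInter (fun _ => isClosed_iInter (fun k => ?_)))))
    exact isClosed_eq (continuous_finsetSum _ (fun q _ => (hw A q).mul (hb q k)))
      (continuous_finsetSum _ (fun q _ => (hw A' q).mul (hb q k)))
  have hC4 : IsClosed C4 := by
    refine isClosed_iInter (fun k => isClosed_iInter (fun B => isClosed_iInter (fun _ =>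
      isClosed_iInter (fun _ => isClosed_iInter (fun A => isClosed_iInter (fun _ => ?_))))))
    refine isClosed_le (continuous_finsetSum _ (fun q _ => ?_))
      (continuous_finsetSum _ (fun q _ => ?_))
    · split_ifs
      · exact continuous_const
      · exact (hw A q).mul (hdl q k)
    · split_ifs
      · exact continuous_const
      · exact (hw B q).mul (hdl q k)
  let K : Set (ℝ × (Fin m → Fin (d + 1) × Fin M → ℝ)) := Set.Icc 0 1 ×ˢ Set.Icc 0 1
  have hK : IsCompact K := isCompact_Icc.prod isCompact_Icc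
  have hCK : IsCompact (K ∩ (C1 ∩ C2 ∩ C3 ∩ C4)) :=
    hK.inter_right (((hC1.inter hC2).inter hC3).inter hC4)
  have him : IsClosed (Prod.fst '' (K ∩ (C1 ∩ C2 ∩ C3 ∩ C4))) :=
    (hCK.image continuous_fst).isClosed
  have hfreq : ∃ᶠ ε in 𝓝 (0 : ℝ), ε ∈ Prod.fst '' (K ∩ (C1 ∩ C2 ∩ C3 ∩ C4)) := by
    have h1 : ∀ᶠ ε in 𝓝[>] (0 : ℝ), ε ≤ 1 :=
      ((ge_mem_nhds one_pos).filter_mono nhdsWithin_le_nhds)
    have h2 : ∀ᶠ ε in 𝓝[>] (0 : ℝ), 0 < ε := eventually_mem_nhdsWithin
    have h3 := (hf.and_eventually ((eventually_bary_pos own T S).and (h1.and h2)))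
    refine (h3.mono ?_).filter_mono nhdsWithin_le_nhds
    rintro ε ⟨⟨w, hw, heq⟩, hpos, hε1, hε0⟩
    let w' : Fin m → Fin (d + 1) × Fin M → ℝ := fun A => if A ∈ I then w A else 0
    have hw' : ∀ A ∈ I, w' A = w A := fun A hA => by simp [w', hA]
    refine ⟨(ε, w'), ⟨⟨⟨hε0.le, hε1⟩, ?_, ?_⟩, ⟨⟨?_, ?_⟩, ?_⟩, ?_⟩, rfl⟩
    · intro A q
      by_cases hA : A ∈ I
      · simp only [hw' A hA]
        exact (hw A hA).1 q
      · simp [w', hA]
    · intro A q
      by_cases hA : A ∈ I
      · simp only [hw' A hA]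
        have h4 := Finset.single_le_sum (fun q _ => (hw A hA).1 q) (Finset.mem_univ q)
        rw [(hw A hA).2.1] at h4
        exact h4
      · simp [w', hA]
    · simp only [C1, Set.mem_iInter]
      intro A hA
      show ∑ q, w' A q = 1
      rw [hw' A hA]
      exact (hw A hA).2.1
    · simp only [C2, Set.mem_iInter]
      intro A hA q hq
      show w' A q = 0
      rw [hw' A hA]
      exact (hw A hA).2.2 q hq
    · simp only [C3, Set.mem_iInter]
      intro A hA A' hA' k
      show ∑ q, w' A q * bary own T S ε q k = ∑ q, w' A' q * bary own T S ε q k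
      rw [hw' A hA, hw' A' hA']
      exact heq A hA A' hA' k
    · simp only [C4, Set.mem_iInter]
      intro k B hB hmiss A hA
      show ∑ q : Fin (d + 1) × Fin M, (if q.1 = k then 0 else w' A q * dle own T S ε q k)
        ≤ ∑ q : Fin (d + 1) × Fin M, (if q.1 = k then 0 else w' B q * dle own T S ε q k)
      rw [hw' A hA, hw' B hB]
      exact dle_star own T S c I hε0 hpos w hw heq k B hB hmiss A hA
  have h0 : (0 : ℝ) ∈ Prod.fst '' (K ∩ (C1 ∩ C2 ∩ C3 ∩ C4)) := by
    rw [← him.closure_eq]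
    exact mem_closure_iff_frequently.mpr hfreq
  obtain ⟨⟨ε, w⟩, ⟨hK', ⟨⟨h1, h2⟩, h3⟩, h4⟩, h5⟩ := h0
  have h5 : ε = 0 := h5
  subst h5
  simp only [C1, Set.mem_iInter] at h1
  simp only [C2, Set.mem_iInter] at h2
  simp only [C3, Set.mem_iInter] at h3
  simp only [C4, Set.mem_iInter] at h4
  refine ⟨w, ?_, ?_, ?_⟩
  · intro A hA
    exact ⟨fun q => hK'.2.1 A q, h1 A hA, fun q hq => h2 A hA q hq⟩
  · intro A hA A' hA' k
    have h := h3 A hA A' hA' k
    have h : ∑ q, w A q * bary own T S 0 q k = ∑ q, w A' q * bary own T S 0 q k := h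
    simp only [bary_zero, mul_ite, mul_one, mul_zero] at h
    simp only [eq_comm (a := k)] at h
    exact h
  · intro k B hB hmiss A hA
    have h := h4 k B hB hmiss A hA
    have h : ∑ q : Fin (d + 1) × Fin M, (if q.1 = k then 0 else w A q * dle own T S 0 q k)
        ≤ ∑ q : Fin (d + 1) × Fin M, (if q.1 = k then 0 else w B q * dle own T S 0 q k) := h
    simpa only [dle, zero_mul, add_zero] using h

end Defs

end Pool.Agent.MP_59bbdb_co
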