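import Mathlib
import Pool.Agent.MP_59bbdb_co.Geom

set_option autoImplicit false

namespace Pool.Agent.MP_59bbdb_co

open Finset Filter Topology

variable {d M m : ℕ} (own : Fin (d + 1) → Fin (d + 1) → Fin M) (T S : ℝ)

lemma pt_ne_of_small (hd : 1 ≤ d) (q q' : Fin (d + 1) × Fin M) (hne : q ≠ q') :
    ∀ᶠ ε in 𝓝[>] (0 : ℝ), pt own T S ε q ≠ pt own T S ε q' := by
  classical
  have hb : ∀ ε, pt own T S ε q = pt own T S ε q' →
      ∀ k, bary own T S ε q k = bary own T S ε q' k := by
    intro ε h k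
    have hsucc : ∀ j : Fin d, bary own T S ε q j.succ = bary own T S ε q' j.succ := by
      intro j
      have := congrArg (fun x : EuclideanSpace ℝ (Fin d) => x j) h
      exact this
    refine Fin.cases ?_ hsucc k
    have h1 := sum_bary own T S ε q
    have h2 := sum_bary own T S ε q'
    rw [Fin.sum_univ_succ] at h1 h2
    have h3 : ∑ j : Fin d, bary own T S ε q j.succ = ∑ j : Fin d, bary own T S ε q' j.succ :=
      Finset.sum_congr rfl (fun j _ => hsucc j)
    linarith
  by_cases h1 : q.1 = q'.1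
  · -- same cluster
    have h2 : q.2 ≠ q'.2 := fun h => hne (Prod.ext h1 h)
    obtain ⟨k, hk⟩ : ∃ k : Fin (d + 1), k ≠ q.1 := by
      have : Nontrivial (Fin (d + 1)) := Fin.nontrivial_iff_two_le.mpr (by omega)
      exact exists_ne q.1
    have hkey : ∀ᶠ ε in 𝓝[>] (0 : ℝ), dle own T S ε q k ≠ dle own T S ε q' k := by
      by_cases h3 : dl own T S q k = dl own T S q' k
      · filter_upwards [eventually_mem_nhdsWithin] with ε hε h4
        unfold dle at h4
        rw [h3, add_right_inj] at h4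
        have h5 : ((q.2 : ℕ) : ℝ) = ((q'.2 : ℕ) : ℝ) := mul_left_cancel₀ (ne_of_gt hε) h4
        exact h2 (Fin.ext (by exact_mod_cast h5))
      · have hc : Tendsto (fun ε => dle own T S ε q k - dle own T S ε q' k) (𝓝 0)
            (𝓝 (dle own T S 0 q k - dle own T S 0 q' k)) :=
          ((continuous_dle own T S q k).sub (continuous_dle own T S q' k)).tendsto 0
        have h4 : dle own T S 0 q k - dle own T S 0 q' k ≠ 0 := by
          simp only [dle, zero_mul, add_zero]
          exact sub_ne_zero.mpr h3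
        have h5 := (hc.eventually_ne h4).filter_mono
          (nhdsWithin_le_nhds : 𝓝[>] (0 : ℝ) ≤ 𝓝 0)
        exact h5.mono (fun ε h => sub_ne_zero.mp h)
    filter_upwards [hkey, eventually_mem_nhdsWithin] with ε h3 hε h4
    have h5 := hb ε h4 k
    unfold bary at h5
    rw [if_neg hk, if_neg (by rw [← h1]; exact hk)] at h5
    exact h3 (mul_left_cancel₀ (ne_of_gt hε) h5)
  · have hc : Tendsto (fun ε => bary own T S ε q q.1 - bary own T S ε q' q.1) (𝓝 0)
        (𝓝 (bary own T S 0 q q.1 - bary own T S 0 q' q.1)) :=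
      ((continuous_bary own T S q q.1).sub (continuous_bary own T S q' q.1)).tendsto 0
    have h4 : bary own T S 0 q q.1 - bary own T S 0 q' q.1 ≠ 0 := by
      rw [bary_zero, bary_zero, if_pos rfl, if_neg h1]
      norm_num
    have h5 := (hc.eventually_ne h4).filter_mono (nhdsWithin_le_nhds : 𝓝[>] (0 : ℝ) ≤ 𝓝 0)
    filter_upwards [h5] with ε h6 h7
    exact h6 (sub_eq_zero.mpr (hb ε h7 q.1))

/-- From the limit condition to actual points. -/
theorem exists_config (hd : 1 ≤ d) (n : ℕ)
    (h : ∀ c : Fin (d + 1) × Fin M → Fin m, ∃ I : Finset (Fin m), I.card = n ∧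
      ¬ Lim own T S c I) :
    ∃ X : Finset (EuclideanSpace ℝ (Fin d)), X.card = M * (d + 1) ∧
      ∀ f : EuclideanSpace ℝ (Fin d) → Fin m, ∃ I : Finset (Fin m), I.card = n ∧
        (⋂ i ∈ I, convexHull ℝ {x : EuclideanSpace ℝ (Fin d) | x ∈ X ∧ f x = i}) = ∅ := by
  classical
  choose I hI1 hI2 using h
  have hev1 : ∀ᶠ ε in 𝓝[>] (0 : ℝ), ∀ c : Fin (d + 1) × Fin M → Fin m,
      ¬ Good own T S c (I c) ε := by
    rw [Filter.eventually_all]
    intro c
    by_contra hcon
    rw [Filter.not_eventually] at hcon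
    simp only [not_not] at hcon
    exact hI2 c (lim_of_frequently own T S c (I c) hcon)
  have hev2 : ∀ᶠ ε in 𝓝[>] (0 : ℝ), ∀ x : (Fin (d + 1) × Fin M) × (Fin (d + 1) × Fin M),
      x.1 ≠ x.2 → pt own T S ε x.1 ≠ pt own T S ε x.2 := by
    rw [Filter.eventually_all]
    rintro ⟨q, q'⟩
    by_cases hq : q = q'
    · exact Filter.Eventually.of_forall (fun ε h => absurd hq h)
    · exact (pt_ne_of_small own T S hd q q' hq).mono (fun ε h _ => h)
  obtain ⟨ε, hε1, hε2⟩ := (hev1.and hev2).exists
  have hinj : Function.Injective (pt own T S ε) := by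
    intro q q' hqq
    by_contra hne
    exact hε2 (q, q') hne hqq
  refine ⟨Finset.univ.image (pt own T S ε), ?_, ?_⟩
  · rw [Finset.card_image_of_injective _ hinj]
    simp [mul_comm]
  intro f
  let c : Fin (d + 1) × Fin M → Fin m := fun q => f (pt own T S ε q)
  refine ⟨I c, hI1 c, ?_⟩
  by_contra hne
  have hne' := Set.nonempty_iff_ne_empty.mpr hne
  obtain ⟨x, hx⟩ := hne'
  rw [Set.mem_iInter₂] at hx
  have hx2 : ∀ A ∈ I c, ∃ w : Fin (d + 1) × Fin M → ℝ, (∀ q, 0 ≤ w q) ∧ ∑ q, w q = 1 ∧
      (∀ q, c q ≠ A → w q = 0) ∧ ∀ j : Fin d, ∑ q, w q * bary own T S ε q j.succ = x j := by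
    intro A hA
    have h1 := hx A hA
    have hset : {y : EuclideanSpace ℝ (Fin d) | y ∈ Finset.univ.image (pt own T S ε) ∧ f y = A}
        = ((Finset.univ.filter (fun q => c q = A)).image (pt own T S ε) :
          Finset (EuclideanSpace ℝ (Fin d))) := by
      ext y
      simp only [Finset.coe_image, Set.mem_image, Finset.mem_coe, Finset.mem_filter,
        Finset.mem_univ, true_and, Finset.mem_image]
      constructor
      · rintro ⟨⟨q, hq⟩, hy⟩
        exact ⟨q, by simp only [c]; rw [hq]; exact hy, hq⟩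
      · rintro ⟨q, hq1, hq2⟩
        exact ⟨⟨q, hq2⟩, by rw [← hq2]; exact hq1⟩
    rw [hset, Finset.mem_convexHull'] at h1
    obtain ⟨w, hw0, hw1, hw2⟩ := h1
    rw [Finset.sum_image (fun q _ q' _ h => hinj h), Finset.sum_filter] at hw1 hw2
    refine ⟨fun q => if c q = A then w (pt own T S ε q) else 0, ?_, hw1, ?_, ?_⟩
    · intro q
      simp only
      split_ifs with hq
      · exact hw0 _ (Finset.mem_image_of_mem _ (by simpa using hq))
      · exact le_refl _
    · intro q hq
      simp only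
      rw [if_neg hq]
    · intro j
      rw [← hw2]
      have : ∀ y : Fin (d + 1) × Fin M → EuclideanSpace ℝ (Fin d),
          (∑ q, y q) j = ∑ q, (y q) j := by
        intro y
        simp
      rw [this]
      apply Finset.sum_congr rfl
      intro q _
      simp only
      split_ifs
      · simp [pt]
      · simp
  choose! w hw0 hw1 hw2 hw3 using hx2
  refine hε1 c ⟨w, fun A hA => ⟨hw0 A hA, hw1 A hA, hw2 A hA⟩, ?_⟩
  intro A hA A' hA' k
  refine Fin.cases ?_ (fun j => ?_) k
  · have h0 : ∀ A ∈ I c, ∑ q, w A q * bary own T S ε q 0 = 1 - ∑ j : Fin d, x j := by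
      intro A hA
      have h1 : ∀ q, bary own T S ε q 0 = 1 - ∑ j : Fin d, bary own T S ε q j.succ := by
        intro q
        have := sum_bary own T S ε q
        rw [Fin.sum_univ_succ] at this
        linarith
      simp_rw [h1, mul_sub, mul_one]
      rw [Finset.sum_sub_distrib, hw1 A hA]
      congr 1
      simp_rw [Finset.mul_sum]
      rw [Finset.sum_comm]
      exact Finset.sum_congr rfl (fun j _ => hw3 A hA j)
    rw [h0 A hA, h0 A' hA']
  · rw [hw3 A hA j, hw3 A' hA' j]

end Pool.Agent.MP_59bbdb_co
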