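import Mathlib

/-!
# A greedy covering lemma

Columns `j : Fin N` have to be covered, class by class, by consecutive blocks assigned to the rows
of that class; a random row `h : R` can take a block `P` when `mt h P` holds.  The lemma bounds
the number of row families for which every class can be covered.
-/

set_option autoImplicit false

namespace Pool.Agent.MP_59bbdb_co

open Finset

section Peel

variable {ι R : Type*} [Fintype ι] [DecidableEq ι] [Fintype R]

/-- Averaging over one coordinate. -/
lemma sum_update_eq (k : ι) (Φ : (ι → R) → ℝ) :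
    ∑ H : ι → R, ∑ h : R, Φ (Function.update H k h)
      = (Fintype.card R : ℝ) * ∑ H : ι → R, Φ H := by
  classical
  let e : ((ι → R) × R) ≃ ((ι → R) × R) :=
    { toFun := fun x => (Function.update x.1 k x.2, x.1 k)
      invFun := fun x => (Function.update x.1 k x.2, x.1 k)
      left_inv := by intro x; simp
      right_inv := by intro x; simp }
  calc ∑ H : ι → R, ∑ h : R, Φ (Function.update H k h)
      = ∑ x : (ι → R) × R, Φ ((e x).1) := by
        rw [Fintype.sum_prod_type]; rfl
    _ = ∑ x : (ι → R) × R, Φ x.1 := Equiv.sum_comp e (fun x => Φ x.1)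
    _ = (Fintype.card R : ℝ) * ∑ H : ι → R, Φ H := by
        rw [Fintype.sum_prod_type]
        simp [Finset.mul_sum]

end Peel

section Seg

variable {N : ℕ}

/-- The elements of `J` in the window `[b, c)`. -/
def seg (J : Finset (Fin N)) (b c : ℕ) : Finset (Fin N) :=
  J.filter (fun j => b ≤ (j : ℕ) ∧ (j : ℕ) < c)

lemma mem_seg {J : Finset (Fin N)} {b c : ℕ} {j : Fin N} :
    j ∈ seg J b c ↔ j ∈ J ∧ b ≤ (j : ℕ) ∧ (j : ℕ) < c := by
  simp [seg]

lemma seg_self (J : Finset (Fin N)) {b c : ℕ} (h : c ≤ b) : seg J b c = ∅ := by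
  ext j
  simp only [mem_seg, Finset.notMem_empty, iff_false]
  omega

lemma seg_mono (J : Finset (Fin N)) (b : ℕ) {c c' : ℕ} (h : c ≤ c') : seg J b c ⊆ seg J b c' := by
  intro j
  simp only [mem_seg]
  rintro ⟨h1, h2, h3⟩
  exact ⟨h1, h2, by omega⟩

lemma card_seg_succ (J : Finset (Fin N)) (b : ℕ) (j : Fin N) (hj : j ∈ J) (hb : b ≤ (j : ℕ)) :
    (seg J b ((j : ℕ) + 1)).card = (seg J b (j : ℕ)).card + 1 := by
  have : seg J b ((j : ℕ) + 1) = insert j (seg J b (j : ℕ)) := by
    ext i
    simp only [mem_seg, Finset.mem_insert, Fin.ext_iff]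
    constructor
    · rintro ⟨h1, h2, h3⟩
      by_cases h : (i : ℕ) = j
      · exact Or.inl h
      · right; exact ⟨h1, h2, by omega⟩
    · rintro (h | ⟨h1, h2, h3⟩)
      · have : i = j := Fin.ext h
        subst this
        exact ⟨hj, hb, by omega⟩
      · exact ⟨h1, h2, by omega⟩
  rw [this, Finset.card_insert_of_notMem]
  simp [mem_seg]

lemma card_seg_le (J : Finset (Fin N)) (b : ℕ) (j : Fin N) :
    (seg J b (j : ℕ)).card < N := by
  have : seg J b (j : ℕ) ⊆ Finset.univ.erase j := by
    intro i hi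
    rw [mem_seg] at hi
    simp only [Finset.mem_erase, Finset.mem_univ, and_true]
    intro h
    rw [h] at hi
    omega
  have h2 := Finset.card_le_card this
  have h3 : (Finset.univ.erase j).card = N - 1 := by simp
  have : 0 < N := lt_of_le_of_lt (Nat.zero_le _) j.2
  omega

lemma card_seg_strict (J : Finset (Fin N)) (b : ℕ) {i j : Fin N} (hi : i ∈ J) (hb : b ≤ (i : ℕ))
    (hij : i < j) : (seg J b (i : ℕ)).card < (seg J b (j : ℕ)).card := by
  have h1 := card_seg_succ J b i hi hb
  have h2 : (seg J b ((i : ℕ) + 1)).card ≤ (seg J b (j : ℕ)).card :=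
    Finset.card_le_card (seg_mono J b (by exact_mod_cast hij))
  omega

/-- Telescoping. -/
lemma pow_card_seg (J : Finset (Fin N)) (b : ℕ) (y : ℝ) (c : ℕ) :
    y ^ (seg J b c).card = 1 + ∑ j ∈ seg J b c, (y - 1) * y ^ (seg J b (j : ℕ)).card := by
  induction c with
  | zero => simp [seg_self J (Nat.zero_le b)]
  | succ c ih =>
    by_cases h : ∃ j : Fin N, (j : ℕ) = c ∧ j ∈ J ∧ b ≤ c
    · obtain ⟨j, rfl, hj, hb⟩ := h
      have hins : seg J b ((j : ℕ) + 1) = insert j (seg J b (j : ℕ)) := by
        ext i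
        simp only [mem_seg, Finset.mem_insert, Fin.ext_iff]
        constructor
        · rintro ⟨h1, h2, h3⟩
          by_cases h : (i : ℕ) = j
          · exact Or.inl h
          · right; exact ⟨h1, h2, by omega⟩
        · rintro (h | ⟨h1, h2, h3⟩)
          · have : i = j := Fin.ext h
            subst this
            exact ⟨hj, hb, by omega⟩
          · exact ⟨h1, h2, by omega⟩
      rw [card_seg_succ J b j hj hb, hins, Finset.sum_insert (by simp [mem_seg]), pow_succ]
      linarith
    · have : seg J b (c + 1) = seg J b c := by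
        ext i
        simp only [mem_seg]
        constructor
        · rintro ⟨h1, h2, h3⟩
          refine ⟨h1, h2, ?_⟩
          by_contra h4
          exact h ⟨i, by omega, h1, by omega⟩
        · rintro ⟨h1, h2, h3⟩
          exact ⟨h1, h2, by omega⟩
      rw [this, ih]

end Seg

section Greedy

variable {N : ℕ} {R Γ : Type*}

open Classical in
/-- The end of the longest window starting at `b` that the row `h` can take. -/
noncomputable def nxt (mt : R → Finset (Fin N) → Prop) (J : Finset (Fin N)) (b : ℕ) (h : R) : ℕ :=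
  Nat.findGreatest (fun c => mt h (seg J b c)) N

lemma nxt_le (mt : R → Finset (Fin N) → Prop) (J : Finset (Fin N)) (b : ℕ) (h : R) :
    nxt mt J b h ≤ N := by
  classical
  unfold nxt
  exact Nat.findGreatest_le _

lemma nxt_ge (mt : R → Finset (Fin N) → Prop) (hmt0 : ∀ h, mt h ∅)
    (J : Finset (Fin N)) {b : ℕ} (hb : b ≤ N) (h : R) : b ≤ nxt mt J b h := by
  classical
  unfold nxt
  refine Nat.le_findGreatest hb ?_
  rw [seg_self J le_rfl]
  exact hmt0 h

open Classical in
lemma nxt_spec (mt : R → Finset (Fin N) → Prop) (hmt0 : ∀ h, mt h ∅)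
    (J : Finset (Fin N)) (b : ℕ) (h : R) : mt h (seg J b (nxt mt J b h)) := by
  have h0 : mt h (seg J b 0) := by
    rw [seg_self J (Nat.zero_le b)]
    exact hmt0 h
  exact @Nat.findGreatest_spec 0 (fun c => mt h (seg J b c))
    (fun _ => Classical.propDecidable _) N (Nat.zero_le N) h0

lemma le_nxt (mt : R → Finset (Fin N) → Prop)
    (J : Finset (Fin N)) (b : ℕ) (h : R) {c : ℕ} (hc : c ≤ N) (hm : mt h (seg J b c)) :
    c ≤ nxt mt J b h := by
  classical
  unfold nxt
  exact Nat.le_findGreatest hc hm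

/-- One row, in expectation. -/
lemma sum_pow_nxt_le [Fintype R] (mt : R → Finset (Fin N) → Prop)
    (hmt0 : ∀ h, mt h ∅) (hmts : ∀ h P P', P ⊆ P' → mt h P' → mt h P)
    (y : ℝ) (hy : 1 ≤ y) (p : ℕ → ℝ) (hp0 : ∀ t, 0 ≤ p t)
    (hp : ∀ P : Finset (Fin N), ∀ (S : Finset R), (∀ h ∈ S, mt h P) →
      (S.card : ℝ) ≤ p P.card * Fintype.card R)
    (J : Finset (Fin N)) (b : ℕ) :
    ∑ h : R, y ^ (seg J b (nxt mt J b h)).card
      ≤ (1 + ∑ t ∈ range N, (y - 1) * y ^ t * p (t + 1)) * Fintype.card R := by
  classical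
  have hstep : ∀ h : R, y ^ (seg J b (nxt mt J b h)).card
      = 1 + ∑ j ∈ J.filter (fun j : Fin N => b ≤ (j : ℕ)),
        (if (j : ℕ) < nxt mt J b h then (y - 1) * y ^ (seg J b (j : ℕ)).card else 0) := by
    intro h
    rw [pow_card_seg J b y (nxt mt J b h)]
    congr 1
    rw [← Finset.sum_filter]
    apply Finset.sum_congr _ (fun _ _ => rfl)
    ext j
    simp only [mem_seg, Finset.mem_filter]
    tauto
  simp_rw [hstep]
  rw [Finset.sum_add_distrib, Finset.sum_comm]
  have hA : ∀ j ∈ J.filter (fun j : Fin N => b ≤ (j : ℕ)),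
      ∑ h : R, (if (j : ℕ) < nxt mt J b h then (y - 1) * y ^ (seg J b (j : ℕ)).card else 0)
      ≤ (y - 1) * y ^ (seg J b (j : ℕ)).card * p ((seg J b (j : ℕ)).card + 1)
          * Fintype.card R := by
    intro j hj
    rw [Finset.mem_filter] at hj
    rw [← Finset.sum_filter, Finset.sum_const, nsmul_eq_mul]
    have h1 := hp (seg J b ((j : ℕ) + 1)) (univ.filter (fun h : R => (j : ℕ) < nxt mt J b h)) (by
      intro h hh
      rw [Finset.mem_filter] at hh
      exact hmts h _ _ (seg_mono J b hh.2) (nxt_spec mt hmt0 J b h))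
    rw [card_seg_succ J b j hj.1 hj.2] at h1
    have h2 : 0 ≤ (y - 1) * y ^ (seg J b (j : ℕ)).card := by
      apply mul_nonneg (by linarith)
      positivity
    calc _ = (y - 1) * y ^ (seg J b (j : ℕ)).card *
          ((univ.filter (fun h : R => (j : ℕ) < nxt mt J b h)).card : ℝ) := by ring
      _ ≤ (y - 1) * y ^ (seg J b (j : ℕ)).card *
          (p ((seg J b (j : ℕ)).card + 1) * Fintype.card R) := by
          exact mul_le_mul_of_nonneg_left h1 h2
      _ = _ := by ring
  have hB : ∑ j ∈ J.filter (fun j : Fin N => b ≤ (j : ℕ)),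
      ((y - 1) * y ^ (seg J b (j : ℕ)).card * p ((seg J b (j : ℕ)).card + 1))
      ≤ ∑ t ∈ range N, (y - 1) * y ^ t * p (t + 1) := by
    have hinj : Set.InjOn (fun j : Fin N => (seg J b (j : ℕ)).card)
        (J.filter (fun j : Fin N => b ≤ (j : ℕ)) : Finset (Fin N)) := by
      intro i hi j hj hij
      simp only [Finset.coe_filter, Set.mem_ofPred_eq] at hi hj
      rcases lt_trichotomy i j with h | h | h
      · have := card_seg_strict J b hi.1 hi.2 h
        simp only at hij
        omega
      · exact h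
      · have := card_seg_strict J b hj.1 hj.2 h
        simp only at hij
        omega
    rw [← Finset.sum_image (s := J.filter (fun j : Fin N => b ≤ (j : ℕ)))
      (g := fun j : Fin N => (seg J b (j : ℕ)).card)
      (f := fun t => (y - 1) * y ^ t * p (t + 1)) hinj]
    apply Finset.sum_le_sum_of_subset_of_nonneg
    · intro t ht
      rw [Finset.mem_image] at ht
      obtain ⟨j, -, rfl⟩ := ht
      exact Finset.mem_range.mpr (card_seg_le J b j)
    · intro t _ _
      apply mul_nonneg (mul_nonneg (by linarith) (by positivity)) (hp0 _)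
  calc _ ≤ (∑ _h : R, (1 : ℝ)) + ∑ j ∈ J.filter (fun j : Fin N => b ≤ (j : ℕ)),
        (y - 1) * y ^ (seg J b (j : ℕ)).card * p ((seg J b (j : ℕ)).card + 1)
          * Fintype.card R := by
        gcongr with j hj
        exact hA j hj
    _ = (1 + ∑ j ∈ J.filter (fun j : Fin N => b ≤ (j : ℕ)),
      ((y - 1) * y ^ (seg J b (j : ℕ)).card * p ((seg J b (j : ℕ)).card + 1)))
        * Fintype.card R := by
        rw [← Finset.sum_mul]
        simp
        ring
    _ ≤ _ := by gcongr

variable [DecidableEq Γ]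

open Classical in
/-- The greedy thresholds after the first `k` rows. -/
noncomputable def thr (mt : R → Finset (Fin N) → Prop) (cls : Fin N → Option Γ)
    (J : Γ → Finset (Fin N)) (H : Fin N → R) : ℕ → Γ → ℕ
  | 0, _ => 0
  | k + 1, l =>
    if hk : k < N then
      if cls ⟨k, hk⟩ = some l then nxt mt (J l) (thr mt cls J H k l) (H ⟨k, hk⟩)
      else thr mt cls J H k l
    else thr mt cls J H k l

lemma thr_le (mt : R → Finset (Fin N) → Prop) (cls : Fin N → Option Γ)
    (J : Γ → Finset (Fin N)) (H : Fin N → R) (k : ℕ) (l : Γ) : thr mt cls J H k l ≤ N := by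
  induction k with
  | zero => simp [thr]
  | succ k ih =>
    rw [thr]
    split_ifs
    · exact nxt_le _ _ _ _
    · exact ih
    · exact ih

lemma thr_update (mt : R → Finset (Fin N) → Prop) (cls : Fin N → Option Γ)
    (J : Γ → Finset (Fin N)) (H : Fin N → R) (i : Fin N) (h : R) (k : ℕ) (hk : k ≤ (i : ℕ))
    (l : Γ) : thr mt cls J (Function.update H i h) k l = thr mt cls J H k l := by
  induction k generalizing l with
  | zero => simp [thr]
  | succ k ih =>
    rw [thr, thr, ih (by omega)]
    have : ∀ hk' : k < N, Function.update H i h ⟨k, hk'⟩ = H ⟨k, hk'⟩ := by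
      intro hk'
      apply Function.update_of_ne
      intro h2
      rw [Fin.ext_iff] at h2
      simp at h2
      omega
    split_ifs with h1 h2
    · rw [this h1]
    · rfl
    · rfl

/-- If every class has a monotone cover, the greedy cover succeeds. -/
lemma thr_cover (mt : R → Finset (Fin N) → Prop)
    (hmt0 : ∀ h, mt h ∅) (hmts : ∀ h P P', P ⊆ P' → mt h P' → mt h P)
    (cls : Fin N → Option Γ) (J : Γ → Finset (Fin N)) (H : Fin N → R) (l : Γ)
    (φ : Fin N → Fin N) (hcls : ∀ j ∈ J l, cls (φ j) = some l)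
    (hmono : ∀ j ∈ J l, ∀ j' ∈ J l, j ≤ j' → φ j ≤ φ j')
    (hm : ∀ i, mt (H i) ((J l).filter (fun j => φ j = i))) (k : ℕ) (hk : k ≤ N) :
    ∀ j ∈ J l, (φ j : ℕ) < k → (j : ℕ) < thr mt cls J H k l := by
  induction k with
  | zero => intro j _ h; omega
  | succ k ih =>
    have ih := ih (by omega)
    intro j hj hlt
    rw [thr, dif_pos (by omega : k < N)]
    by_cases hφ : (φ j : ℕ) < k
    · have h1 := ih j hj hφ
      split_ifs
      · exact lt_of_lt_of_le h1 (nxt_ge mt hmt0 _ (thr_le _ _ _ _ _ _) _)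
      · exact h1
    · have hφk : φ j = ⟨k, by omega⟩ := Fin.ext (by simp; omega)
      have hc := hcls j hj
      rw [hφk] at hc
      rw [if_pos hc]
      by_contra hcon
      push Not at hcon
      have hseg : mt (H ⟨k, by omega⟩) (seg (J l) (thr mt cls J H k l) ((j : ℕ) + 1)) := by
        refine hmts _ _ _ ?_ (hm ⟨k, by omega⟩)
        intro i hi
        rw [mem_seg] at hi
        rw [Finset.mem_filter]
        refine ⟨hi.1, ?_⟩
        have h1 : φ i ≤ φ j := hmono i hi.1 j hj (by rw [Fin.le_def]; omega)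
        have h2 : ¬ (φ i : ℕ) < k := fun h3 => by
          have := ih i hi.1 h3
          omega
        rw [hφk, Fin.le_def] at h1
        apply Fin.ext
        simp at h1 ⊢
        omega
      have := le_nxt mt (J l) (thr mt cls J H k l) (H ⟨k, by omega⟩)
        (by have := j.2; omega : (j : ℕ) + 1 ≤ N) hseg
      omega

variable [Fintype Γ] [Fintype R]

/-- Number of columns already covered. -/
noncomputable def cov (mt : R → Finset (Fin N) → Prop) (cls : Fin N → Option Γ)
    (J : Γ → Finset (Fin N)) (H : Fin N → R) (k : ℕ) : ℕ :=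
  ∑ l : Γ, (seg (J l) 0 (thr mt cls J H k l)).card

lemma seg_split (J : Finset (Fin N)) {b c : ℕ} (h : b ≤ c) :
    (seg J 0 c).card = (seg J 0 b).card + (seg J b c).card := by
  classical
  rw [← Finset.card_union_of_disjoint]
  · congr 1
    ext j
    simp only [mem_seg, Finset.mem_union]
    constructor
    · rintro ⟨h1, h2, h3⟩
      by_cases h4 : (j : ℕ) < b
      · exact Or.inl ⟨h1, h2, h4⟩
      · exact Or.inr ⟨h1, by omega, h3⟩
    · rintro (⟨h1, h2, h3⟩ | ⟨h1, h2, h3⟩)
      · exact ⟨h1, h2, by omega⟩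
      · exact ⟨h1, by omega, h3⟩
  · rw [Finset.disjoint_left]
    intro j hj hj'
    rw [mem_seg] at hj hj'
    omega

lemma sum_pow_cov_le (mt : R → Finset (Fin N) → Prop)
    (hmt0 : ∀ h, mt h ∅)
    (y : ℝ) (hy : 1 ≤ y) (ρ : ℝ) (hρ1 : 1 ≤ ρ)
    (hρ : ∀ J b, ∑ h : R, y ^ (seg J b (nxt mt J b h)).card ≤ ρ * Fintype.card R)
    [Nonempty R]
    (cls : Fin N → Option Γ) (J : Γ → Finset (Fin N)) (k : ℕ) (hk : k ≤ N) :
    ∑ H : Fin N → R, y ^ (cov mt cls J H k) ≤ ρ ^ k * Fintype.card (Fin N → R) := by
  classical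
  induction k with
  | zero =>
    have : ∀ H : Fin N → R, cov mt cls J H 0 = 0 := by
      intro H
      simp [cov, thr, seg_self]
    simp [this]
  | succ k ih =>
    have ih := ih (by omega)
    have hkN : k < N := by omega
    have hR : (0 : ℝ) < Fintype.card R := by exact_mod_cast Fintype.card_pos
    have key : ∀ H : Fin N → R,
        ∑ h : R, y ^ (cov mt cls J (Function.update H ⟨k, hkN⟩ h) (k + 1))
          ≤ y ^ (cov mt cls J H k) * (ρ * Fintype.card R) := by
      intro H
      rcases hc : cls ⟨k, hkN⟩ with _ | l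
      · have : ∀ h : R, cov mt cls J (Function.update H ⟨k, hkN⟩ h) (k + 1)
            = cov mt cls J H k := by
          intro h
          unfold cov
          apply Finset.sum_congr rfl
          intro l _
          rw [thr, dif_pos hkN, hc, if_neg (by simp), thr_update _ _ _ _ _ _ _ (le_refl _)]
        simp only [this, Finset.sum_const, Finset.card_univ, nsmul_eq_mul]
        have h2 : (0 : ℝ) ≤ y ^ (cov mt cls J H k) := by positivity
        calc (Fintype.card R : ℝ) * y ^ (cov mt cls J H k)
            = y ^ (cov mt cls J H k) * (1 * Fintype.card R) := by ring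
          _ ≤ _ := by gcongr
      · have : ∀ h : R, cov mt cls J (Function.update H ⟨k, hkN⟩ h) (k + 1)
            = cov mt cls J H k
              + (seg (J l) (thr mt cls J H k l) (nxt mt (J l) (thr mt cls J H k l) h)).card := by
          intro h
          unfold cov
          rw [← Finset.add_sum_erase _ _ (Finset.mem_univ l),
            ← Finset.add_sum_erase Finset.univ
              (fun l => (seg (J l) 0 (thr mt cls J H k l)).card) (Finset.mem_univ l)]
          have h1 : (seg (J l) 0 (thr mt cls J (Function.update H ⟨k, hkN⟩ h) (k + 1) l)).card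
              = (seg (J l) 0 (thr mt cls J H k l)).card
              + (seg (J l) (thr mt cls J H k l) (nxt mt (J l) (thr mt cls J H k l) h)).card := by
            rw [thr, dif_pos hkN, hc, if_pos rfl, thr_update _ _ _ _ _ _ _ (le_refl _),
              Function.update_self]
            exact seg_split _ (nxt_ge mt hmt0 _ (thr_le _ _ _ _ _ _) _)
          have h2 : ∑ x ∈ Finset.univ.erase l,
                (seg (J x) 0 (thr mt cls J (Function.update H ⟨k, hkN⟩ h) (k + 1) x)).card
              = ∑ x ∈ Finset.univ.erase l, (seg (J x) 0 (thr mt cls J H k x)).card := by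
            apply Finset.sum_congr rfl
            intro x hx
            rw [thr, dif_pos hkN, hc, if_neg, thr_update _ _ _ _ _ _ _ (le_refl _)]
            intro h3
            exact (Finset.ne_of_mem_erase hx) (Option.some.inj h3).symm
          rw [h1, h2]
          ring
        simp only [this, pow_add]
        rw [← Finset.mul_sum]
        have h2 : (0 : ℝ) ≤ y ^ (cov mt cls J H k) := by positivity
        exact mul_le_mul_of_nonneg_left (hρ _ _) h2
    have h1 := sum_update_eq (R := R) (⟨k, hkN⟩ : Fin N)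
      (fun H => y ^ (cov mt cls J H (k + 1)))
    have h2 : (Fintype.card R : ℝ) * ∑ H : Fin N → R, y ^ (cov mt cls J H (k + 1))
        ≤ (Fintype.card R : ℝ) * (ρ ^ (k + 1) * Fintype.card (Fin N → R)) := by
      rw [← h1]
      calc _ ≤ ∑ H : Fin N → R, y ^ (cov mt cls J H k) * (ρ * Fintype.card R) :=
            Finset.sum_le_sum (fun H _ => key H)
        _ = (∑ H : Fin N → R, y ^ (cov mt cls J H k)) * (ρ * Fintype.card R) := by
            rw [Finset.sum_mul]
        _ ≤ (ρ ^ k * Fintype.card (Fin N → R)) * (ρ * Fintype.card R) := by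
            gcongr
        _ = _ := by ring
    exact le_of_mul_le_mul_left h2 hR

/-- The number of row families covering every class. -/
theorem card_covering_le (mt : R → Finset (Fin N) → Prop)
    (hmt0 : ∀ h, mt h ∅) (hmts : ∀ h P P', P ⊆ P' → mt h P' → mt h P)
    (y : ℝ) (hy : 1 ≤ y) (ρ : ℝ) (hρ1 : 1 ≤ ρ)
    (hρ : ∀ J b, ∑ h : R, y ^ (seg J b (nxt mt J b h)).card ≤ ρ * Fintype.card R)
    [Nonempty R]
    (cls : Fin N → Option Γ) (J : Γ → Finset (Fin N)) (S : Finset (Fin N → R))
    (hS : ∀ H ∈ S, ∀ l, ∃ φ : Fin N → Fin N, (∀ j ∈ J l, cls (φ j) = some l) ∧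
      (∀ j ∈ J l, ∀ j' ∈ J l, j ≤ j' → φ j ≤ φ j') ∧
      ∀ i, mt (H i) ((J l).filter (fun j => φ j = i))) :
    (S.card : ℝ) * y ^ (∑ l, (J l).card) ≤ ρ ^ N * Fintype.card (Fin N → R) := by
  classical
  have h1 : ∀ H ∈ S, cov mt cls J H N = ∑ l, (J l).card := by
    intro H hH
    unfold cov
    apply Finset.sum_congr rfl
    intro l _
    congr 1
    obtain ⟨φ, h1, h2, h3⟩ := hS H hH l
    ext j
    rw [mem_seg]
    constructor
    · exact fun h => h.1
    · intro h
      exact ⟨h, Nat.zero_le _, thr_cover mt hmt0 hmts cls J H l φ h1 h2 h3 N le_rfl j h (φ j).2⟩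
  calc (S.card : ℝ) * y ^ (∑ l, (J l).card)
      = ∑ H ∈ S, y ^ (cov mt cls J H N) := by
        have : ∑ H ∈ S, y ^ (cov mt cls J H N) = ∑ _H ∈ S, y ^ (∑ l, (J l).card) :=
          Finset.sum_congr rfl (fun H hH => by rw [h1 H hH])
        rw [this, Finset.sum_const, nsmul_eq_mul]
    _ ≤ ∑ H : Fin N → R, y ^ (cov mt cls J H N) := by
        apply Finset.sum_le_sum_of_subset_of_nonneg (Finset.subset_univ _)
        intro H _ _
        positivity
    _ ≤ _ := sum_pow_cov_le mt hmt0 y hy ρ hρ1 hρ cls J N le_rfl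

end Greedy

end Pool.Agent.MP_59bbdb_co
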