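import Mathlib
import Pool.Agent.MP_59bbdb_co.Greedy

/-!
# Random ownership tables

`H i j` is the owner, in the `i`-th cluster, of the `j`-th coordinate.  We count the tables
compatible with a word of missing colours and conclude that some table is compatible with none.
-/

set_option autoImplicit false

namespace Pool.Agent.MP_59bbdb_co

open Finset

/-- The row `h` can take the block `P` of the word `χ`: after discarding at most `u` owners,
the owners of the coordinates in `P` can be coloured injectively so as to spell `χ` on `P`. -/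
def Mt (m s u : ℕ) {N : ℕ} (χ : Fin N → Fin m) (h : Fin N → Fin s) (P : Finset (Fin N)) : Prop :=
  ∃ NS : Finset (Fin s), NS.card ≤ u ∧ ∃ g : Fin s → Fin m,
    (∀ a, a ∉ NS → ∀ a', a' ∉ NS → g a = g a' → a = a') ∧
      ∀ j ∈ P, h j ∈ NS ∨ g (h j) = χ j

lemma Mt_empty {m s u N : ℕ} (hs : s ≤ m) (χ : Fin N → Fin m) (h : Fin N → Fin s) :
    Mt m s u χ h ∅ := by
  refine ⟨∅, by simp, Fin.castLE hs, ?_, by simp⟩
  intro a _ a' _ h
  exact Fin.castLE_injective hs h

lemma Mt_mono {m s u N : ℕ} (χ : Fin N → Fin m) (h : Fin N → Fin s) (P P' : Finset (Fin N))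
    (hPP : P ⊆ P') (hm : Mt m s u χ h P') : Mt m s u χ h P := by
  obtain ⟨NS, h1, g, h2, h3⟩ := hm
  exact ⟨NS, h1, g, h2, fun j hj => h3 j (hPP hj)⟩

/-- Counting rows, no discarded owners. -/
lemma card_Mt_zero {m s N : ℕ} (χ : Fin N → Fin m) (P : Finset (Fin N))
    (S : Finset (Fin N → Fin s)) (hS : ∀ h ∈ S, Mt m s 0 χ h P) :
    S.card ≤ s.descFactorial (P.image χ).card * s ^ (N - P.card) := by
  classical
  let E := (↥(P.image χ) ↪ Fin s) × (↥(Pᶜ) → Fin s)
  let Fm : E → (Fin N → Fin s) := fun x j =>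
    if hj : j ∈ P then x.1 ⟨χ j, Finset.mem_image_of_mem χ hj⟩
    else x.2 ⟨j, Finset.mem_compl.mpr hj⟩
  have hsub : S ⊆ Finset.univ.image Fm := by
    intro h hh
    obtain ⟨NS, h1, g, h2, h3⟩ := hS h hh
    have hNS : NS = ∅ := Finset.card_eq_zero.mp (by omega)
    subst hNS
    have hg : ∀ a a', g a = g a' → a = a' := fun a a' => h2 a (by simp) a' (by simp)
    have h3 : ∀ j ∈ P, g (h j) = χ j := fun j hj => by simpa using h3 j hj
    have hc : ∀ x : ↥(P.image χ), ∃ j ∈ P, χ j = x := fun x => by
      have := x.2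
      rw [Finset.mem_image] at this
      exact this
    choose t ht1 ht2 using hc
    have hinj : Function.Injective (fun x => h (t x)) := by
      intro x x' hxx
      apply Subtype.ext
      rw [← ht2 x, ← ht2 x', ← h3 _ (ht1 x), ← h3 _ (ht1 x')]
      exact congrArg g hxx
    rw [Finset.mem_image]
    refine ⟨(⟨fun x => h (t x), hinj⟩, fun j => h j), Finset.mem_univ _, ?_⟩
    funext j
    by_cases hj : j ∈ P
    · have : h (t ⟨χ j, Finset.mem_image_of_mem χ hj⟩) = h j := by
        apply hg
        rw [h3 _ (ht1 _), h3 _ hj, ht2]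
      simpa [Fm, hj] using this
    · simp [Fm, hj]
  calc S.card ≤ (Finset.univ.image Fm).card := Finset.card_le_card hsub
    _ ≤ (Finset.univ : Finset E).card := Finset.card_image_le
    _ = Fintype.card E := rfl
    _ = _ := by
      simp only [E, Fintype.card_prod, Fintype.card_embedding_eq, Fintype.card_coe,
        Fintype.card_fin, Fintype.card_fun, Finset.card_compl]

/-- Counting rows, general case. -/
lemma card_Mt {m s u N : ℕ} (χ : Fin N → Fin m) (P : Finset (Fin N))
    (S : Finset (Fin N → Fin s)) (hS : ∀ h ∈ S, Mt m s u χ h P) :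
    S.card ≤ (2 * m) ^ s * ((u + 1) ^ P.card * s ^ (N - P.card)) := by
  classical
  let A : Finset (Finset (Fin s) × (Fin s → Fin m)) :=
    Finset.univ.filter (fun x => x.1.card ≤ u ∧
      (∀ a, a ∉ x.1 → ∀ a', a' ∉ x.1 → x.2 a = x.2 a' → a = a'))
  let B : Finset (Fin s) × (Fin s → Fin m) → Finset (Fin N → Fin s) := fun x =>
    Fintype.piFinset (fun j => if j ∈ P then
      Finset.univ.filter (fun a => a ∈ x.1 ∨ x.2 a = χ j) else Finset.univ)
  have hsub : S ⊆ A.biUnion B := by
    intro h hh
    obtain ⟨NS, h1, g, h2, h3⟩ := hS h hh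
    rw [Finset.mem_biUnion]
    refine ⟨(NS, g), ?_, ?_⟩
    · simp only [A, Finset.mem_filter, Finset.mem_univ, true_and]
      exact ⟨h1, h2⟩
    · simp only [B, Fintype.mem_piFinset]
      intro j
      split_ifs with hj
      · simpa using h3 j hj
      · simp
  have hB : ∀ x ∈ A, (B x).card ≤ (u + 1) ^ P.card * s ^ (N - P.card) := by
    intro x hx
    simp only [A, Finset.mem_filter, Finset.mem_univ, true_and] at hx
    simp only [B, Fintype.card_piFinset]
    have h1 : ∀ j : Fin N, (if j ∈ P then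
      Finset.univ.filter (fun a => a ∈ x.1 ∨ x.2 a = χ j) else Finset.univ : Finset (Fin s)).card
        ≤ if j ∈ P then u + 1 else s := by
      intro j
      split_ifs with hj
      · have : Finset.univ.filter (fun a => a ∈ x.1 ∨ x.2 a = χ j)
            ⊆ x.1 ∪ Finset.univ.filter (fun a => a ∉ x.1 ∧ x.2 a = χ j) := by
          intro a
          simp only [Finset.mem_filter, Finset.mem_univ, true_and, Finset.mem_union]
          tauto
        refine (Finset.card_le_card this).trans ((Finset.card_union_le _ _).trans ?_)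
        have h2 : (Finset.univ.filter (fun a => a ∉ x.1 ∧ x.2 a = χ j)).card ≤ 1 := by
          rw [Finset.card_le_one]
          intro a ha b hb
          simp only [Finset.mem_filter, Finset.mem_univ, true_and] at ha hb
          exact hx.2 a ha.1 b hb.1 (ha.2.trans hb.2.symm)
        omega
      · simp
    calc _ ≤ ∏ j : Fin N, (if j ∈ P then u + 1 else s) :=
          Finset.prod_le_prod' (fun j _ => h1 j)
      _ = _ := by
        rw [Finset.prod_ite, Finset.prod_const, Finset.prod_const]
        congr 2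
        · congr 1
          simp
        · rw [Finset.filter_not, Finset.card_sdiff]
          simp
  have hA : A.card ≤ (2 * m) ^ s := by
    calc A.card ≤ Fintype.card (Finset (Fin s) × (Fin s → Fin m)) := Finset.card_le_univ _
      _ = (2 * m) ^ s := by
        simp [Fintype.card_prod, mul_pow]
  calc S.card ≤ (A.biUnion B).card := Finset.card_le_card hsub
    _ ≤ A.card * ((u + 1) ^ P.card * s ^ (N - P.card)) :=
        Finset.card_biUnion_le_card_mul _ _ _ hB
    _ ≤ _ := Nat.mul_le_mul_right _ hA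

/-- The table `H` admits the word `χ` (for the classes `0, …, L - 1` of colours, the class of a
colour `x` being `x / r`). -/
def Admits (m r s u L : ℕ) {N : ℕ} (χ : Fin N → Fin m) (H : Fin N → Fin N → Fin s) : Prop :=
  ∀ l : Fin L, ∃ φ : Fin N → Fin N,
    (∀ j, (χ j : ℕ) / r ≠ (l : ℕ) → (χ (φ j) : ℕ) / r = (l : ℕ)) ∧
    (∀ j j', (χ j : ℕ) / r ≠ (l : ℕ) → (χ j' : ℕ) / r ≠ (l : ℕ) → j ≤ j' → φ j ≤ φ j') ∧
    ∀ i, Mt m s u χ (H i)
      (Finset.univ.filter (fun j => (χ j : ℕ) / r ≠ (l : ℕ) ∧ φ j = i))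

/-- First moment: some table admits no word. -/
theorem exists_table (m r s u L N : ℕ) (hN : 0 < N) (hs0 : 0 < s) (hs : s ≤ m)
    (y : ℝ) (hy : 1 ≤ y) (p : ℕ → ℝ) (hp0 : ∀ t, 0 ≤ p t)
    (hp : ∀ χ : Fin N → Fin m, ∀ P : Finset (Fin N), ∀ S : Finset (Fin N → Fin s),
      (∀ h ∈ S, Mt m s u χ h P) → (S.card : ℝ) ≤ p P.card * (s : ℝ) ^ N)
    (ρ : ℝ) (hρ : 1 + ∑ t ∈ range N, (y - 1) * y ^ t * p (t + 1) ≤ ρ)
    (hfin : (m : ℝ) * ρ < y ^ (L - 1)) :
    ∃ H : Fin N → Fin N → Fin s, ∀ χ : Fin N → Fin m, ¬ Admits m r s u L χ H := by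
  classical
  by_contra hcon
  push Not at hcon
  have : Nonempty (Fin s) := ⟨⟨0, hs0⟩⟩
  have hρ1 : 1 ≤ ρ := by
    refine le_trans ?_ hρ
    have : 0 ≤ ∑ t ∈ range N, (y - 1) * y ^ t * p (t + 1) := by
      apply Finset.sum_nonneg
      intro t _
      exact mul_nonneg (mul_nonneg (by linarith) (by positivity)) (hp0 _)
    linarith
  let Bad : (Fin N → Fin m) → Finset (Fin N → Fin N → Fin s) := fun χ =>
    Finset.univ.filter (fun H => Admits m r s u L χ H)
  have hcard : (Fintype.card (Fin N → Fin s) : ℝ) = (s : ℝ) ^ N := by simp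
  have hBad : ∀ χ, ((Bad χ).card : ℝ) * y ^ ((L - 1) * N)
      ≤ ρ ^ N * Fintype.card (Fin N → Fin N → Fin s) := by
    intro χ
    let cls : Fin N → Option (Fin L) := fun i =>
      if h : (χ i : ℕ) / r < L then some ⟨(χ i : ℕ) / r, h⟩ else none
    let J : Fin L → Finset (Fin N) := fun l =>
      Finset.univ.filter (fun j => (χ j : ℕ) / r ≠ (l : ℕ))
    have h1 := card_covering_le (R := Fin N → Fin s) (Mt m s u χ) (Mt_empty hs χ)
      (Mt_mono χ) y hy ρ hρ1 (by
        intro J b
        refine (sum_pow_nxt_le (Mt m s u χ) (Mt_empty hs χ) (Mt_mono χ) y hy p hp0 ?_ J b).trans ?_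
        · intro P S hS
          rw [hcard]
          exact hp χ P S hS
        · gcongr) cls J (Bad χ) (by
        intro H hH l
        simp only [Bad, Finset.mem_filter, Finset.mem_univ, true_and] at hH
        obtain ⟨φ, h1, h2, h3⟩ := hH l
        refine ⟨φ, ?_, ?_, ?_⟩
        · intro j hj
          simp only [J, Finset.mem_filter, Finset.mem_univ, true_and] at hj
          have h4 := h1 j hj
          simp only [cls]
          rw [dif_pos (by rw [h4]; exact l.2)]
          congr 1
          exact Fin.ext h4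
        · intro j hj j' hj' hjj
          simp only [J, Finset.mem_filter, Finset.mem_univ, true_and] at hj hj'
          exact h2 j j' hj hj' hjj
        · intro i
          have : (J l).filter (fun j => φ j = i)
              = Finset.univ.filter (fun j => (χ j : ℕ) / r ≠ (l : ℕ) ∧ φ j = i) := by
            simp only [J, Finset.filter_filter]
          rw [this]
          exact h3 i)
    refine le_trans ?_ h1
    have h2 : (L - 1) * N ≤ ∑ l, (J l).card := by
      have h3 : ∑ l, (J l).card
          = ∑ j : Fin N, (Finset.univ.filter (fun l : Fin L => (χ j : ℕ) / r ≠ (l : ℕ))).card := by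
        simp only [J, Finset.card_filter]
        rw [Finset.sum_comm]
      rw [h3]
      have h4 : ∀ j : Fin N, L - 1 ≤
          (Finset.univ.filter (fun l : Fin L => (χ j : ℕ) / r ≠ (l : ℕ))).card := by
        intro j
        rw [Finset.filter_not, Finset.card_sdiff]
        have h5 : (Finset.univ.filter (fun l : Fin L => (χ j : ℕ) / r = (l : ℕ))).card ≤ 1 := by
          rw [Finset.card_le_one]
          intro a ha b hb
          simp only [Finset.mem_filter, Finset.mem_univ, true_and] at ha hb
          exact Fin.ext (ha.symm.trans hb)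
        have h6 : (Finset.univ.filter (fun l : Fin L => (χ j : ℕ) / r = (l : ℕ)) ∩ Finset.univ).card
          ≤ 1 := by simpa using h5
        simp only [Finset.card_univ, Fintype.card_fin]
        omega
      calc (L - 1) * N = ∑ _j : Fin N, (L - 1) := by simp [mul_comm]
        _ ≤ _ := Finset.sum_le_sum (fun j _ => h4 j)
    gcongr
  have htot : (Fintype.card (Fin N → Fin N → Fin s) : ℝ) ≤ ∑ χ, ((Bad χ).card : ℝ) := by
    have : (Finset.univ : Finset (Fin N → Fin N → Fin s)) ⊆ Finset.univ.biUnion Bad := by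
      intro H _
      obtain ⟨χ, hχ⟩ := hcon H
      rw [Finset.mem_biUnion]
      exact ⟨χ, Finset.mem_univ _, by simpa [Bad] using hχ⟩
    have h2 := (Finset.card_le_card this).trans Finset.card_biUnion_le
    rw [Finset.card_univ] at h2
    exact_mod_cast h2
  have hC : (0 : ℝ) < Fintype.card (Fin N → Fin N → Fin s) := by
    exact_mod_cast Fintype.card_pos
  have hypos : (0 : ℝ) < y := by linarith
  have h3 : (Fintype.card (Fin N → Fin N → Fin s) : ℝ) * y ^ ((L - 1) * N)
      ≤ (m : ℝ) ^ N * (ρ ^ N * Fintype.card (Fin N → Fin N → Fin s)) := by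
    calc _ ≤ (∑ χ, ((Bad χ).card : ℝ)) * y ^ ((L - 1) * N) := by gcongr
      _ = ∑ χ, ((Bad χ).card : ℝ) * y ^ ((L - 1) * N) := by rw [Finset.sum_mul]
      _ ≤ ∑ _χ : Fin N → Fin m, ρ ^ N * Fintype.card (Fin N → Fin N → Fin s) :=
          Finset.sum_le_sum (fun χ _ => hBad χ)
      _ = _ := by simp
  have h4 : y ^ ((L - 1) * N) ≤ (m : ℝ) ^ N * ρ ^ N := by
    have : (Fintype.card (Fin N → Fin N → Fin s) : ℝ) * y ^ ((L - 1) * N)
      ≤ (Fintype.card (Fin N → Fin N → Fin s) : ℝ) * ((m : ℝ) ^ N * ρ ^ N) := by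
      calc _ ≤ _ := h3
        _ = _ := by ring
    exact le_of_mul_le_mul_left this hC
  rw [pow_mul, ← mul_pow] at h4
  have h5 : ((m : ℝ) * ρ) ^ N < (y ^ (L - 1)) ^ N := by
    apply pow_lt_pow_left₀ hfin _ (by omega)
    have : (0 : ℝ) ≤ m := by positivity
    exact mul_nonneg this (by linarith)
  linarith

end Pool.Agent.MP_59bbdb_co
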