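import Mathlib

set_option autoImplicit false

namespace Pool.Agent.MP_59bbdb_co.Lin

open Finset

private theorem C_bad (B : Finset ℕ) {D : ℕ} (ψ : ℕ → Fin D) (H : Finset (Fin D)) (Z : Fin D → Finset ℕ)
    (W N r : ℕ) (hN : N = 32 * r) (hr : 1 ≤ r) (hB : B ⊆ range W)
    (hmono : ∀ w ∈ B, ∀ w' ∈ B, w ≤ w' → ψ w ≤ ψ w') (hH : ∀ w ∈ B, ψ w ∈ H)
    (hZ : ∀ k ∈ H, (Z k).card ≤ 2 * r) (hBZ : ∀ w ∈ B, w % N ∈ Z (ψ w)) :
    16 * B.card ≤ 16 * ∑ k ∈ H, (Z k).card + W := by
  classical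
  have hN0 : 0 < N := by omega
  obtain ⟨Q, hQ⟩ : ∃ Q : Fin D → Finset ℕ, ∀ k, Q k = (B.filter (fun w => ψ w = k)).image (fun w => w / N) :=
    ⟨_, fun _ => rfl⟩
  obtain ⟨Q', hQ'⟩ : ∃ Q' : Fin D → Finset ℕ, ∀ k, Q' k = (Q k).filter (fun q => ∃ q' ∈ Q k, q' < q) :=
    ⟨_, fun _ => rfl⟩
  have memQ : ∀ k q, q ∈ Q k ↔ ∃ w ∈ B, ψ w = k ∧ w / N = q := by
    intro k q
    rw [hQ]
    simp only [Finset.mem_image, Finset.mem_filter]
    constructor
    · rintro ⟨w, ⟨h1, h2⟩, h3⟩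
      exact ⟨w, h1, h2, h3⟩
    · rintro ⟨w, h1, h2, h3⟩
      exact ⟨w, ⟨h1, h2⟩, h3⟩
  have h1 : ∀ k, (Q k).card ≤ 1 + (Q' k).card := by
    intro k
    have e := Finset.card_filter_add_card_filter_not (s := Q k) (fun q => ∃ q' ∈ Q k, q' < q)
    have h2 : ((Q k).filter (fun q => ¬ ∃ q' ∈ Q k, q' < q)).card ≤ 1 := by
      rw [Finset.card_le_one]
      intro a ha b hb
      rw [Finset.mem_filter] at ha hb
      by_contra hab
      rcases Nat.lt_or_gt_of_ne hab with h | h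
      · exact hb.2 ⟨a, ha.1, h⟩
      · exact ha.2 ⟨b, hb.1, h⟩
    rw [hQ']
    omega
  have h2 : ∀ k, (B.filter (fun w => ψ w = k)).card ≤ (Z k).card * (Q k).card := by
    intro k
    rw [← Finset.card_product]
    refine Finset.card_le_card_of_injOn (fun w => (w % N, w / N)) ?_ ?_
    · intro w hw
      rw [Finset.mem_coe, Finset.mem_filter] at hw
      rw [Finset.mem_coe, Finset.mem_product]
      exact ⟨hw.2 ▸ hBZ w hw.1, (memQ k _).mpr ⟨w, hw.1, hw.2, rfl⟩⟩
    · intro w _ w' _ h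
      have h3 : w % N = w' % N ∧ w / N = w' / N := Prod.ext_iff.mp h
      rw [← Nat.div_add_mod w N, ← Nat.div_add_mod w' N, h3.1, h3.2]
  have h3 : ∀ k ∈ H, (B.filter (fun w => ψ w = k)).card ≤ (Z k).card + 2 * r * (Q' k).card := by
    intro k hk
    calc (B.filter (fun w => ψ w = k)).card ≤ (Z k).card * (Q k).card := h2 k
      _ ≤ (Z k).card * (1 + (Q' k).card) := Nat.mul_le_mul_left _ (h1 k)
      _ = (Z k).card + (Z k).card * (Q' k).card := by ring
      _ ≤ _ := Nat.add_le_add_left (Nat.mul_le_mul_right _ (hZ k hk)) _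
  have h4 : ∑ k ∈ H, (Q' k).card ≤ W / N := by
    rw [← Finset.card_biUnion]
    · calc (H.biUnion Q').card ≤ (Finset.Icc 1 (W / N)).card := by
            apply Finset.card_le_card
            intro q hq
            rw [Finset.mem_biUnion] at hq
            obtain ⟨k, _, hq⟩ := hq
            rw [hQ', Finset.mem_filter] at hq
            obtain ⟨hq, q', _, hlt⟩ := hq
            obtain ⟨w, hw, _, rfl⟩ := (memQ k q).mp hq
            rw [Finset.mem_Icc]
            exact ⟨by omega, Nat.div_le_div_right (Finset.mem_range.mp (hB hw)).le⟩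
        _ = W / N := by rw [Nat.card_Icc, Nat.add_sub_cancel]
    · have key : ∀ k k' : Fin D, k < k' → ∀ q, q ∈ Q' k → q ∈ Q' k' → False := by
        intro k k' hkk q hq hq'
        rw [hQ', Finset.mem_filter] at hq hq'
        obtain ⟨hq', q', hq'', hlt⟩ := hq'
        obtain ⟨w, hw, hwk, hwq⟩ := (memQ k q).mp hq.1
        obtain ⟨w', hw', hwk', hwq'⟩ := (memQ k' q').mp hq''
        have h5 : w ≤ w' := by
          by_contra hc
          have h6 := hmono w' hw' w hw (by omega)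
          rw [hwk, hwk'] at h6
          exact absurd h6 (not_le.mpr hkk)
        have h6 : w / N ≤ w' / N := Nat.div_le_div_right h5
        omega
      intro k _ k' _ hne
      rw [Function.onFun, Finset.disjoint_left]
      intro q hq hq'
      rcases lt_or_gt_of_ne hne with h | h
      · exact key k k' h q hq hq'
      · exact key k' k h q hq' hq
  have h5 : B.card = ∑ k ∈ H, (B.filter (fun w => ψ w = k)).card :=
    Finset.card_eq_sum_card_fiberwise fun w hw => hH w hw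
  have h6 : B.card ≤ ∑ k ∈ H, (Z k).card + 2 * r * (W / N) := by
    rw [h5]
    calc _ ≤ ∑ k ∈ H, ((Z k).card + 2 * r * (Q' k).card) := Finset.sum_le_sum h3
      _ = ∑ k ∈ H, (Z k).card + 2 * r * ∑ k ∈ H, (Q' k).card := by
        rw [Finset.sum_add_distrib, Finset.mul_sum]
      _ ≤ _ := Nat.add_le_add_left (Nat.mul_le_mul_left _ h4) _
  have h7 : N * (W / N) ≤ W := Nat.mul_div_le W N
  have h8 : 16 * (2 * r * (W / N)) = N * (W / N) := by
    rw [hN]
    ring
  omega

/-- MODULE C (one path).  Proof: `G` = the `w ∈ X` with `φ` constant on the 16 rows of `w` and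
`w % N ∉ Z (φ (16 w))`.  Bad windows of the first kind (`φ (16 w) < φ (16 w + 15)`):
`w ↦ φ (16 w + 15)` is injective on them with values in `H`, so at most `|H|`.  Second kind
(`φ` constant `= k` on `w`, `w % N ∈ Z k`): for fixed `k ∈ H` let `x_k` be the smallest and `y_k`
the largest `w ∈ X` with `φ (16 w) = k`; every residue occurs at most `y_k / N - x_k / N + 1`
times in `[x_k, y_k]` (`w` is determined by `w % N` and `w / N`), so at most
`|Z k| (y_k / N - x_k / N + 1) ≤ |Z k| + 2 r (y_k / N - x_k / N)`.  The intervals are ordered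
(`k < k'` implies `y_k < x_k'` or at least `y_k ≤ x_k'`), so `∑ (y_k / N - x_k / N) ≤ W / N`
(telescoping / induction on the number of hubs; or count the pairs `(w / N, k)`), and
`16 * 2 r * (W / N) ≤ W`.  `κ` = monotone extension of `w ↦ φ (16 w)` from `G` to `ℕ` (e.g. the
value at the largest element of `G` that is `≤ w`, and at the smallest element of `G` if there is
none; constant if `G = ∅`). -/
theorem path_good {D : ℕ} (W N r : ℕ) (hN : N = 32 * r) (hr : 1 ≤ r)
    (φ : ℕ → Fin D) (J : ℕ → Prop) (H : Finset (Fin D)) (Z : Fin D → Finset ℕ)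
    (hmono : ∀ j j', J j → J j' → j ≤ j' → φ j ≤ φ j')
    (hH : ∀ j, J j → φ j ∈ H)
    (hZ : ∀ k ∈ H, (Z k).card ≤ 2 * r)
    (X : Finset ℕ) (hX : X ⊆ range W) (hXJ : ∀ w ∈ X, ∀ i < 16, J (16 * w + i)) :
    ∃ (κ : ℕ → Fin D) (G : Finset ℕ), Monotone κ ∧ G ⊆ X ∧
      (∀ w ∈ G, κ w ∈ H ∧ (∀ i < 16, φ (16 * w + i) = κ w) ∧ w % N ∉ Z (κ w)) ∧
      16 * X.card ≤ 16 * G.card + 16 * (H.card + ∑ k ∈ H, (Z k).card) + W := by
  classical
  obtain ⟨D', rfl⟩ : ∃ D', D = D' + 1 := ⟨D - 1, by have := (φ 0).2; omega⟩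
  have hm : ∀ w ∈ X, ∀ w' ∈ X, w ≤ w' → ∀ i < 16, ∀ i' < 16, (w = w' → i ≤ i') →
      φ (16 * w + i) ≤ φ (16 * w' + i') := by
    intro w hw w' hw' hle i hi i' hi' h
    refine hmono _ _ (hXJ w hw i hi) (hXJ w' hw' i' hi') ?_
    rcases Nat.eq_or_lt_of_le hle with h1 | h1
    · have := h h1
      omega
    · omega
  obtain ⟨P, hP⟩ : ∃ P : ℕ → Prop, ∀ w, P w ↔ ∀ i < 16, φ (16 * w + i) = φ (16 * w) := ⟨_, fun _ => Iff.rfl⟩
  obtain ⟨G, hG⟩ : ∃ G, G = X.filter (fun w => P w ∧ w % N ∉ Z (φ (16 * w))) := ⟨_, rfl⟩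
  obtain ⟨B1, hB1⟩ : ∃ B1, B1 = X.filter (fun w => ¬ P w) := ⟨_, rfl⟩
  obtain ⟨B2, hB2⟩ : ∃ B2, B2 = X.filter (fun w => w % N ∈ Z (φ (16 * w))) := ⟨_, rfl⟩
  have hGX : G ⊆ X := by
    rw [hG]
    exact Finset.filter_subset _ _
  have hB1X : B1 ⊆ X := by
    rw [hB1]
    exact Finset.filter_subset _ _
  have hB2X : B2 ⊆ X := by
    rw [hB2]
    exact Finset.filter_subset _ _
  have hcover : X ⊆ G ∪ (B1 ∪ B2) := by
    intro w hw
    rw [hG, hB1, hB2]
    simp only [Finset.mem_union, Finset.mem_filter]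
    by_cases h1 : P w
    · by_cases h2 : w % N ∈ Z (φ (16 * w))
      · exact Or.inr (Or.inr ⟨hw, h2⟩)
      · exact Or.inl ⟨hw, h1, h2⟩
    · exact Or.inr (Or.inl ⟨hw, h1⟩)
  have hcard : X.card ≤ G.card + (B1.card + B2.card) :=
    le_trans (Finset.card_le_card hcover) (le_trans (Finset.card_union_le _ _)
      (Nat.add_le_add_left (Finset.card_union_le _ _) _))
  have c1 : B1.card ≤ H.card := by
    refine Finset.card_le_card_of_injOn (fun w => φ (16 * w + 15)) ?_ ?_
    · intro w hw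
      exact hH _ (hXJ w (hB1X hw) 15 (by norm_num))
    · have key : ∀ w ∈ B1, ∀ w' ∈ B1, w < w' → φ (16 * w + 15) < φ (16 * w' + 15) := by
        intro w hw w' hw' hlt
        have h1 : φ (16 * w + 15) ≤ φ (16 * w') :=
          hm w (hB1X hw) w' (hB1X hw') hlt.le 15 (by norm_num) 0 (by norm_num) (by omega)
        rw [hB1, Finset.mem_filter, hP] at hw'
        obtain ⟨hw', h2⟩ := hw'
        push Not at h2
        obtain ⟨i, hi, h2⟩ := h2
        have h3 : φ (16 * w') ≤ φ (16 * w' + i) := hm w' hw' w' hw' le_rfl 0 (by norm_num) i hi (by omega)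
        have h4 := hm w' hw' w' hw' le_rfl i hi 15 (by norm_num) (by omega)
        exact lt_of_le_of_lt h1 (lt_of_lt_of_le (lt_of_le_of_ne h3 (Ne.symm h2)) h4)
      intro w hw w' hw' h
      by_contra hne
      rcases Nat.lt_or_gt_of_ne hne with h1 | h1
      · exact absurd h (key w hw w' hw' h1).ne
      · exact absurd h (key w' hw' w hw h1).ne'
  have c2 : 16 * B2.card ≤ 16 * ∑ k ∈ H, (Z k).card + W := by
    refine C_bad B2 (fun w => φ (16 * w)) H Z W N r hN hr (hB2X.trans hX) ?_ ?_ hZ ?_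
    · intro w hw w' hw' hle
      exact hm w (hB2X hw) w' (hB2X hw') hle 0 (by norm_num) 0 (by norm_num) (by omega)
    · intro w hw
      exact hH _ (hXJ w (hB2X hw) 0 (by norm_num))
    · intro w hw
      rw [hB2, Finset.mem_filter] at hw
      exact hw.2
  refine ⟨fun w => (G.filter (fun g => g ≤ w)).sup (fun g => φ (16 * g)), G, ?_, hGX, ?_, by omega⟩
  · intro w w' hww
    apply Finset.sup_mono
    intro g hg
    rw [Finset.mem_filter] at hg ⊢
    exact ⟨hg.1, hg.2.trans hww⟩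
  · intro w hw
    have hκ : (G.filter (fun g => g ≤ w)).sup (fun g => φ (16 * g)) = φ (16 * w) := by
      apply le_antisymm
      · apply Finset.sup_le
        intro g hg
        rw [Finset.mem_filter] at hg
        exact hm g (hGX hg.1) w (hGX hw) hg.2 0 (by norm_num) 0 (by norm_num) (by omega)
      · exact Finset.le_sup (f := fun g => φ (16 * g)) (Finset.mem_filter.mpr ⟨hw, le_rfl⟩)
    have hwX := hGX hw
    simp only [hκ]
    rw [hG, Finset.mem_filter, hP] at hw
    exact ⟨hH _ (hXJ w hwX 0 (by norm_num)), hw.2.1, hw.2.2⟩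

end Pool.Agent.MP_59bbdb_co.Lin
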