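import Mathlib

/-!
# Definitions for the linear gap theorem

A cluster has `M` points, among them two chains of `N` points each.  `cp` is the cyclically read
point of a chain; `Once` says that the colour of a point is used once in its cluster; `miss` is
the set of the colours missing in a cluster; `Clean` says that the first point of a chain whose
colour is outside `R`, read cyclically from `ω`, has a colour used once; `tz` is the set of the
residues `ω` for which one of the two chains is not clean; `RR` are the groups of a grouping of
the colours.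
-/

set_option autoImplicit false

namespace Pool.Agent.MP_59bbdb_co.Lin

open Finset

/-- The point with cyclic index `i` of the chain `s`. -/
def cp {M N : ℕ} (hN : 0 < N) (hM : 2 * N ≤ M) (s : Bool) (i : ℕ) : Fin M :=
  ⟨(if s then N else 0) + i % N, by
    have := Nat.mod_lt i hN
    split_ifs <;> omega⟩

/-- The colour of `a` is used once. -/
def Once {M m : ℕ} (χ : Fin M → Fin m) (a : Fin M) : Prop :=
  ∀ a', a' ≠ a → χ a' ≠ χ a

/-- The missing colours. -/
def miss {M m : ℕ} (χ : Fin M → Fin m) : Finset (Fin m) :=
  univ.filter (fun x => ∀ a, χ a ≠ x)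

/-- Reading the chain `s` from `ω` on, the first colour outside `R` is used once. -/
def Clean {M N m : ℕ} (hN : 0 < N) (hM : 2 * N ≤ M) (χ : Fin M → Fin m) (R : Finset (Fin m))
    (s : Bool) (ω : ℕ) : Prop :=
  ∃ p, p < N ∧ (∀ p' < p, χ (cp hN hM s (ω + p')) ∈ R) ∧
    χ (cp hN hM s (ω + p)) ∉ R ∧ Once χ (cp hN hM s (ω + p))

open Classical in
/-- The residues for which one of the chains is not clean. -/
noncomputable def tz {M N m : ℕ} (hN : 0 < N) (hM : 2 * N ≤ M) (χ : Fin M → Fin m)
    (R : Finset (Fin m)) : Finset ℕ :=
  (range N).filter (fun ω => ¬ (Clean hN hM χ R false ω ∧ Clean hN hM χ R true ω))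

open Classical in
/-- The groups of colours. -/
noncomputable def RR (m r : ℕ) (f : Fin r → Fin 80) (l : Fin 80) : Finset (Fin m) :=
  univ.filter (fun c => ∃ x : Fin r, ∃ y : ℕ, y < 80 ∧ (c : ℕ) = x + r * y ∧
    (y + (f x : ℕ)) % 80 = l)

end Pool.Agent.MP_59bbdb_co.Lin
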