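import Mathlib
import Pool.Agent.MP_59bbdb_co.LinDefs

/-!
# Levels

`lv N s ω a` is the level of the point `a` in the order that first reads the chain `s` cyclically
from `ω` on, then the other chain.
-/

set_option autoImplicit false

namespace Pool.Agent.MP_59bbdb_co.Lin

open Finset

/-- The level of the point `a`. -/
def lv (N : ℕ) (s : Bool) (ω a : ℕ) : ℕ :=
  if a < 2 * N then
    (N - ((if N ≤ a then a - N else a) + (N - ω % N)) % N)
      + (if (decide (N ≤ a)) = s then N else 0)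
  else 0

lemma lv_le (N : ℕ) (s : Bool) (ω a : ℕ) : lv N s ω a ≤ 2 * N := by
  unfold lv
  split_ifs <;> omega

private lemma pos_eq {N : ℕ} (hN : 0 < N) (ω p : ℕ) (hp : p < N) :
    ((ω + p) % N + (N - ω % N)) % N = p := by
  have h1 : ω % N < N := Nat.mod_lt _ hN
  have h2 : ((ω + p) % N + (N - ω % N)) % N = ((ω + p) + (N - ω % N)) % N := by
    rw [Nat.add_mod, Nat.mod_mod, ← Nat.add_mod]
  rw [h2]
  have h3 : ω + p + (N - ω % N) = p + N * (ω / N + 1) := by
    have := Nat.div_add_mod ω N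
    have h4 : N * (ω / N + 1) = N * (ω / N) + N := by ring
    omega
  rw [h3, Nat.add_mul_mod_self_left, Nat.mod_eq_of_lt hp]

private lemma lv_cp {M N : ℕ} (hN : 0 < N) (hM : 2 * N ≤ M) (s : Bool) (ω p : ℕ) (hp : p < N) :
    lv N s ω (cp hN hM s (ω + p) : Fin M) = (N - p) + N := by
  have h1 : (ω + p) % N < N := Nat.mod_lt _ hN
  have h2 := pos_eq hN ω p hp
  cases s
  · have h3 : ((cp hN hM false (ω + p) : Fin M) : ℕ) = (ω + p) % N := by
      simp [cp]
    rw [h3]
    unfold lv
    rw [if_pos (by omega), if_neg (by omega), if_pos (by simp; omega), h2]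
  · have h3 : ((cp hN hM true (ω + p) : Fin M) : ℕ) = N + (ω + p) % N := by
      simp [cp]
    rw [h3]
    unfold lv
    rw [if_pos (by omega), if_pos (by omega), if_pos (by simp)]
    have h4 : N + (ω + p) % N - N = (ω + p) % N := by omega
    rw [h4, h2]

private lemma exists_cp {M N : ℕ} (hN : 0 < N) (hM : 2 * N ≤ M) (s : Bool) (ω : ℕ) (a : Fin M)
    (ha : N < lv N s ω a) : ∃ p, p < N ∧ a = cp hN hM s (ω + p) := by
  unfold lv at ha
  by_cases h1 : (a : ℕ) < 2 * N
  swap
  · rw [if_neg h1] at ha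
    omega
  rw [if_pos h1] at ha
  by_cases h2 : (decide (N ≤ (a : ℕ))) = s
  swap
  · rw [if_neg h2] at ha
    omega
  have h5 : ω % N < N := Nat.mod_lt _ hN
  set x : ℕ := if N ≤ (a : ℕ) then (a : ℕ) - N else (a : ℕ) with hx
  have hxN : x < N := by
    rw [hx]
    split_ifs <;> omega
  refine ⟨(x + (N - ω % N)) % N, Nat.mod_lt _ hN, ?_⟩
  have h6 : (ω + (x + (N - ω % N)) % N) % N = x := by
    rw [Nat.add_mod, Nat.mod_mod, ← Nat.add_mod]
    have h7 : ω + (x + (N - ω % N)) = x + N * (ω / N + 1) := by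
      have := Nat.div_add_mod ω N
      have h4 : N * (ω / N + 1) = N * (ω / N) + N := by ring
      omega
    rw [h7, Nat.add_mul_mod_self_left, Nat.mod_eq_of_lt hxN]
  apply Fin.ext
  simp only [cp, h6]
  rw [← h2]
  by_cases h3 : N ≤ (a : ℕ)
  · simp only [h3, decide_true, if_true] at hx ⊢
    omega
  · simp only [h3, decide_false, if_false] at hx ⊢
    simp [hx]

private lemma level_lemma {M N m : ℕ} (hN : 0 < N) (hM : 2 * N ≤ M) (χ : Fin M → Fin m)
    (R : Finset (Fin m)) (s : Bool) (ω p : ℕ) (hp : p < N)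
    (hR : ∀ p' < p, χ (cp hN hM s (ω + p')) ∈ R) (b : Fin m) (hb : b ∉ R) (a : Fin M)
    (ha : χ a = b)
    (hlev : lv N s ω (cp hN hM s (ω + p) : Fin M) ≤ lv N s ω a) :
    b = χ (cp hN hM s (ω + p)) := by
  rw [lv_cp hN hM s ω p hp] at hlev
  obtain ⟨p', hp', rfl⟩ := exists_cp hN hM s ω a (by omega)
  rw [lv_cp hN hM s ω p' hp'] at hlev
  rcases Nat.lt_or_ge p' p with h | h
  · exact absurd (ha ▸ hR p' h) hb
  · have : p' = p := by omega
    rw [← ha, this]

/-- In a clean cluster the missing colour of a row is determined by its bit. -/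
theorem window_lemma {M N m : ℕ} (hN : 0 < N) (hM : 2 * N ≤ M) (χ : Fin M → Fin m)
    (R : Finset (Fin m)) (ω : ℕ) (hA : Clean hN hM χ R false ω) (hB : Clean hN hM χ R true ω) :
    ∃ cs : Bool → Fin m, cs false ≠ cs true ∧ ∀ (s : Bool) (b : Fin m), b ∉ R →
      (∀ a0, χ a0 ∉ R → Once χ a0 → ∃ a, χ a = b ∧ lv N s ω (a0 : Fin M) ≤ lv N s ω (a : Fin M)) →
      b = cs s := by
  obtain ⟨p, hp, h1, h2, h3⟩ := hA
  obtain ⟨q, hq, h4, h5, h6⟩ := hB
  refine ⟨fun s => if s then χ (cp hN hM true (ω + q)) else χ (cp hN hM false (ω + p)), ?_, ?_⟩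
  · simp only [Bool.false_eq_true, if_false, if_true]
    have hne : cp hN hM false (ω + p) ≠ cp hN hM true (ω + q) := by
      intro h
      have h7 := congrArg Fin.val h
      simp only [cp, Bool.false_eq_true, if_false, if_true] at h7
      have := Nat.mod_lt (ω + p) hN
      omega
    exact h6 _ hne
  · intro s b hb hlev
    cases s
    · simp only [Bool.false_eq_true, if_false]
      obtain ⟨a, ha, hl⟩ := hlev _ h2 h3
      exact level_lemma hN hM χ R false ω p hp h1 b hb a ha hl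
    · simp only [if_true]
      obtain ⟨a, ha, hl⟩ := hlev _ h5 h6
      exact level_lemma hN hM χ R true ω q hq h4 b hb a ha hl

end Pool.Agent.MP_59bbdb_co.Lin
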