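import Mathlib

/-!
# The first moment count

`card_monotone_le` bounds the number of monotone maps; `exists_table` gives a table of bits for
which no family of monotone paths is compatible with a word of bits on too many windows.
-/

set_option autoImplicit false

namespace Pool.Agent.MP_59bbdb_co.Lin

open Finset

private lemma num_bound (W : ℕ) (hW : 3 ≤ W) :
    17 ^ (17 * W + 14) ≤ 64 ^ W * 16 ^ (16 * W + 14) := by
  induction W, hW using Nat.le_induction with
  | base => norm_num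
  | succ k hk ih =>
    have h1 : 17 ^ (17 * (k + 1) + 14) = 17 ^ (17 * k + 14) * 17 ^ 17 := by
      rw [← pow_add]
      congr 1
    have h2 : 64 ^ (k + 1) * 16 ^ (16 * (k + 1) + 14)
        = (64 ^ k * 16 ^ (16 * k + 14)) * (64 * 16 ^ 16) := by
      have h3 : 16 * (k + 1) + 14 = (16 * k + 14) + 16 := by ring
      rw [h3, pow_add, pow_succ]
      ring
    rw [h1, h2]
    exact Nat.mul_le_mul ih (by norm_num)

open Classical in
/-- The number of monotone maps. -/
theorem card_monotone_le (D W : ℕ) (hW : 3 ≤ W) (hD : D ≤ 16 * W + 15) :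
    ((univ : Finset (Fin W → Fin D)).filter (fun κ => Monotone κ)).card ≤ 2 ^ (6 * W) := by
  rcases Nat.eq_zero_or_pos D with h0 | hDpos
  · subst h0
    have : IsEmpty (Fin W → Fin 0) := ⟨fun κ => (κ ⟨0, by omega⟩).elim0⟩
    rw [Finset.univ_eq_empty, Finset.filter_empty, Finset.card_empty]
    exact Nat.zero_le _
  have h1 : ((univ : Finset (Fin W → Fin D)).filter (fun κ => Monotone κ)).card
      ≤ (D + W - 1).choose W := by
    have h2 : ((range (D + W - 1)).powersetCard W).card = (D + W - 1).choose W := by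
      rw [Finset.card_powersetCard, Finset.card_range]
    rw [← h2]
    have hsm : ∀ κ : Fin W → Fin D, Monotone κ →
        StrictMono (fun i : Fin W => (κ i : ℕ) + (i : ℕ)) := by
      intro κ hκ i j hij
      have h3 : (κ i : ℕ) ≤ κ j := hκ hij.le
      have h4 : (i : ℕ) < j := hij
      simp only
      omega
    apply Finset.card_le_card_of_injOn
      (fun κ : Fin W → Fin D => (univ : Finset (Fin W)).image
        (fun i : Fin W => (κ i : ℕ) + (i : ℕ)))
    · intro κ hκ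
      rw [Finset.mem_coe, Finset.mem_filter] at hκ
      rw [Finset.mem_coe, Finset.mem_powersetCard]
      constructor
      · intro x hx
        rw [Finset.mem_image] at hx
        obtain ⟨i, -, rfl⟩ := hx
        rw [Finset.mem_range]
        have h3 := (κ i).2
        have h4 := i.2
        omega
      · rw [Finset.card_image_of_injective _ (hsm κ hκ.2).injective]
        simp
    · intro κ hκ κ' hκ' heq
      rw [Finset.mem_coe, Finset.mem_filter] at hκ hκ'
      have h3 : Set.range (fun i : Fin W => (κ i : ℕ) + (i : ℕ))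
          = Set.range (fun i : Fin W => (κ' i : ℕ) + (i : ℕ)) := by
        ext x
        have h4 := Finset.ext_iff.mp heq x
        simp only [Finset.mem_image, Finset.mem_univ, true_and] at h4
        simp only [Set.mem_range]
        exact h4
      have h5 := (StrictMono.range_inj (hsm κ hκ.2) (hsm κ' hκ'.2)).mp h3
      funext i
      have h6 : (κ i : ℕ) + (i : ℕ) = (κ' i : ℕ) + (i : ℕ) := congrFun h5 i
      apply Fin.ext
      omega
  have h2 : (D + W - 1).choose W * 16 ^ (D - 1) ≤ 17 ^ (D - 1 + W) := by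
    have h3 : D - 1 + W = D + W - 1 := by omega
    rw [h3]
    have h4 := add_pow (1 : ℕ) 16 (D + W - 1)
    have h5 : (1 + 16 : ℕ) = 17 := by norm_num
    rw [h5] at h4
    rw [h4]
    have h6 := Finset.single_le_sum (f := fun k => 1 ^ k * 16 ^ (D + W - 1 - k) * (D + W - 1).choose k)
      (s := range (D + W - 1 + 1)) (fun k _ => Nat.zero_le _) (a := W)
      (by rw [Finset.mem_range]; omega)
    simp only [one_pow, one_mul] at h6
    have h7 : D + W - 1 - W = D - 1 := by omega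
    rw [h7] at h6
    simp only [one_pow, one_mul]
    rw [mul_comm]
    exact h6
  have h3 : (D + W - 1).choose W ≤ 64 ^ W := by
    obtain ⟨t, ht⟩ : ∃ t, t = D - 1 := ⟨_, rfl⟩
    obtain ⟨u, hu⟩ : ∃ u, 16 * W + 14 = t + u := ⟨16 * W + 14 - t, by omega⟩
    rw [← ht] at h2
    have h4 := num_bound W hW
    have h5 : 17 * W + 14 = (t + W) + u := by omega
    rw [h5, hu, pow_add, pow_add 16] at h4
    have h6 : (D + W - 1).choose W * (16 ^ t * 16 ^ u) ≤ 64 ^ W * (16 ^ t * 16 ^ u) := by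
      calc (D + W - 1).choose W * (16 ^ t * 16 ^ u)
          = ((D + W - 1).choose W * 16 ^ t) * 16 ^ u := by ring
        _ ≤ 17 ^ (t + W) * 17 ^ u :=
            Nat.mul_le_mul h2 (Nat.pow_le_pow_left (by norm_num) u)
        _ ≤ _ := h4
    exact Nat.le_of_mul_le_mul_right h6 (by positivity)
  calc _ ≤ (D + W - 1).choose W := h1
    _ ≤ 64 ^ W := h3
    _ = 2 ^ (6 * W) := by
        rw [pow_mul]
        norm_num

private lemma cell_lt {W : ℕ} (w : Fin W) (i : Fin 16) : 16 * (w : ℕ) + (i : ℕ) < 16 * W := by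
  have h1 := w.2
  have h2 := i.2
  omega

private lemma cell_inj {w w' i i' : ℕ} (hi : i < 16) (hi' : i' < 16)
    (h : 16 * w + i = 16 * w' + i') : w = w' ∧ i = i' := by
  omega

/-- Few tables belong to given data. -/
private lemma card_tables {ι : Type} [Fintype ι] [DecidableEq ι] (D W : ℕ)
    (κ : ι → Fin W → Fin D) (g : ι × Fin W → Option Bool) (v : Fin (16 * W) → Bool)
    (hinj : ∀ l l' w, g (l, w) ≠ none → g (l', w) ≠ none → κ l w = κ l' w → l = l') :
    (univ.filter (fun ρ : Fin D → Fin (16 * W) → Bool =>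
      ∀ (x : ι × Fin W) (b : Bool), g x = some b → ∀ i : Fin 16,
        ρ (κ x.1 x.2) ⟨16 * (x.2 : ℕ) + (i : ℕ), cell_lt x.2 i⟩
          = xor (v ⟨16 * (x.2 : ℕ) + (i : ℕ), cell_lt x.2 i⟩) b)).card
      * 2 ^ (16 * (univ.filter (fun x => g x ≠ none)).card)
      ≤ Fintype.card (Fin D → Fin (16 * W) → Bool) := by
  classical
  let E : Finset (ι × Fin W) := univ.filter (fun x => g x ≠ none)
  let F : (ι × Fin W) × Fin 16 → Fin D × Fin (16 * W) := fun y =>
    (κ y.1.1 y.1.2, ⟨16 * (y.1.2 : ℕ) + (y.2 : ℕ), cell_lt y.1.2 y.2⟩)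
  let C : Finset (Fin D × Fin (16 * W)) := (E ×ˢ (univ : Finset (Fin 16))).image F
  have hC : C.card = 16 * E.card := by
    rw [Finset.card_image_of_injOn, Finset.card_product]
    · simp [mul_comm]
    · rintro ⟨⟨l, w⟩, i⟩ hx ⟨⟨l', w'⟩, i'⟩ hx' heq
      rw [Finset.mem_coe, Finset.mem_product] at hx hx'
      simp only [E, Finset.mem_filter, Finset.mem_univ, true_and, and_true] at hx hx'
      simp only [F, Prod.mk.injEq, Fin.mk.injEq] at heq
      obtain ⟨h1, h2⟩ := cell_inj i.2 i'.2 heq.2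
      have h3 : w = w' := Fin.ext h1
      subst h3
      have h4 : i = i' := Fin.ext h2
      subst h4
      have h5 := hinj l l' w hx hx' heq.1
      rw [h5]
  let T := {ρ : Fin D → Fin (16 * W) → Bool // ∀ (x : ι × Fin W) (b : Bool), g x = some b →
    ∀ i : Fin 16, ρ (κ x.1 x.2) ⟨16 * (x.2 : ℕ) + (i : ℕ), cell_lt x.2 i⟩
          = xor (v ⟨16 * (x.2 : ℕ) + (i : ℕ), cell_lt x.2 i⟩) b}
  let Ψ : T × (C → Bool) → (Fin D → Fin (16 * W) → Bool) := fun p k j =>
    if h : (k, j) ∈ C then p.2 ⟨(k, j), h⟩ else p.1.1 k j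
  have hΨ : Function.Injective Ψ := by
    rintro ⟨⟨ρ, hρ⟩, a⟩ ⟨⟨ρ', hρ'⟩, a'⟩ h
    have h1 : ∀ k j, Ψ (⟨ρ, hρ⟩, a) k j = Ψ (⟨ρ', hρ'⟩, a') k j := fun k j =>
      congrFun (congrFun h k) j
    have ha : a = a' := by
      funext ⟨⟨k, j⟩, hx⟩
      have h2 := h1 k j
      simp only [Ψ, dif_pos hx] at h2
      exact h2
    have hρρ : ρ = ρ' := by
      funext k j
      by_cases hx : (k, j) ∈ C
      · simp only [C, Finset.mem_image] at hx
        obtain ⟨⟨x, i⟩, hy, hF⟩ := hx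
        rw [Finset.mem_product] at hy
        simp only [E, Finset.mem_filter, Finset.mem_univ, true_and, and_true] at hy
        obtain ⟨b, hb⟩ := Option.ne_none_iff_exists'.mp hy
        simp only [F, Prod.mk.injEq] at hF
        obtain ⟨h3, h4⟩ := hF
        rw [← h3, ← h4, hρ x b hb i, hρ' x b hb i]
      · have h2 := h1 k j
        simp only [Ψ, dif_neg hx] at h2
        exact h2
    subst ha
    subst hρρ
    rfl
  have hcard := Fintype.card_le_of_injective Ψ hΨ
  rw [Fintype.card_prod, Fintype.card_fun (α := C), Fintype.card_coe, hC, Fintype.card_bool,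
    Fintype.card_subtype] at hcard
  exact hcard

/-- The first moment count. -/
private lemma core {ι : Type} [Fintype ι] [DecidableEq ι] (D W e K : ℕ)
    (hK : ∀ S : Finset (Fin W → Fin D), (∀ κ ∈ S, Monotone κ) → S.card ≤ K)
    (h : ∀ ρ : Fin D → Fin (16 * W) → Bool, ∃ (κ : ι → Fin W → Fin D)
      (v : Fin (16 * W) → Bool) (g : ι × Fin W → Option Bool), (∀ l, Monotone (κ l)) ∧
      e ≤ (univ.filter (fun x => g x ≠ none)).card ∧
      (∀ l l' w, g (l, w) ≠ none → g (l', w) ≠ none → κ l w = κ l' w → l = l') ∧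
      ∀ (x : ι × Fin W) (b : Bool), g x = some b → ∀ i : Fin 16,
        ρ (κ x.1 x.2) ⟨16 * (x.2 : ℕ) + (i : ℕ), cell_lt x.2 i⟩
          = xor (v ⟨16 * (x.2 : ℕ) + (i : ℕ), cell_lt x.2 i⟩) b) :
    2 ^ (16 * e) ≤ K ^ (Fintype.card ι) * 2 ^ (16 * W) * 3 ^ (Fintype.card ι * W) := by
  classical
  let Mo : Finset (Fin W → Fin D) := univ.filter (fun κ => Monotone κ)
  have hMo : Mo.card ≤ K := hK Mo (fun κ hκ => (Finset.mem_filter.mp hκ).2)
  let Dat : Finset ((ι → Fin W → Fin D) × (Fin (16 * W) → Bool) × (ι × Fin W → Option Bool)) :=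
    (Fintype.piFinset (fun _ : ι => Mo)) ×ˢ (univ ×ˢ univ)
  let Dg := Dat.filter (fun x => e ≤ (univ.filter (fun y => x.2.2 y ≠ none)).card ∧
    ∀ l l' w, x.2.2 (l, w) ≠ none → x.2.2 (l', w) ≠ none → x.1 l w = x.1 l' w → l = l')
  let T : ((ι → Fin W → Fin D) × (Fin (16 * W) → Bool) × (ι × Fin W → Option Bool)) →
      Finset (Fin D → Fin (16 * W) → Bool) := fun d =>
    univ.filter (fun ρ => ∀ (x : ι × Fin W) (b : Bool), d.2.2 x = some b → ∀ i : Fin 16,
        ρ (d.1 x.1 x.2) ⟨16 * (x.2 : ℕ) + (i : ℕ), cell_lt x.2 i⟩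
          = xor (d.2.1 ⟨16 * (x.2 : ℕ) + (i : ℕ), cell_lt x.2 i⟩) b)
  have hcov : (univ : Finset (Fin D → Fin (16 * W) → Bool)) ⊆ Dg.biUnion T := by
    intro ρ _
    obtain ⟨κ, v, g, h1, h2, h3, h4⟩ := h ρ
    rw [Finset.mem_biUnion]
    refine ⟨(κ, v, g), ?_, ?_⟩
    · simp only [Dg, Dat, Mo, Finset.mem_filter, Finset.mem_product, Fintype.mem_piFinset,
        Finset.mem_univ, true_and, and_true]
      exact ⟨h1, h2, h3⟩
    · simp only [T, Finset.mem_filter, Finset.mem_univ, true_and]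
      exact h4
  obtain ⟨N, hN⟩ : ∃ N, N = Fintype.card (Fin D → Fin (16 * W) → Bool) := ⟨_, rfl⟩
  have hNpos : 0 < N := by
    rw [hN]
    exact Fintype.card_pos
  have h1 : N ≤ ∑ d ∈ Dg, (T d).card := by
    calc N = (univ : Finset (Fin D → Fin (16 * W) → Bool)).card := by rw [hN, Finset.card_univ]
      _ ≤ (Dg.biUnion T).card := Finset.card_le_card hcov
      _ ≤ _ := Finset.card_biUnion_le
  have h2 : ∀ d ∈ Dg, (T d).card * 2 ^ (16 * e) ≤ N := by
    intro d hd
    simp only [Dg, Finset.mem_filter] at hd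
    obtain ⟨-, h3, h4⟩ := hd
    have h5 := card_tables D W d.1 d.2.2 d.2.1 h4
    rw [← hN] at h5
    calc (T d).card * 2 ^ (16 * e)
        ≤ (T d).card * 2 ^ (16 * (univ.filter (fun y => d.2.2 y ≠ none)).card) :=
          Nat.mul_le_mul_left _ (Nat.pow_le_pow_right (by norm_num) (by omega))
      _ ≤ N := h5
  have h3 : N * 2 ^ (16 * e) ≤ Dg.card * N := by
    calc N * 2 ^ (16 * e) ≤ (∑ d ∈ Dg, (T d).card) * 2 ^ (16 * e) := Nat.mul_le_mul_right _ h1
      _ = ∑ d ∈ Dg, (T d).card * 2 ^ (16 * e) := by rw [Finset.sum_mul]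
      _ ≤ ∑ d ∈ Dg, N := Finset.sum_le_sum h2
      _ = Dg.card * N := by rw [Finset.sum_const, smul_eq_mul]
  have h4 : 2 ^ (16 * e) ≤ Dg.card := by
    rw [mul_comm] at h3
    exact Nat.le_of_mul_le_mul_right h3 hNpos
  have h5 : Dat.card = Mo.card ^ (Fintype.card ι) * (2 ^ (16 * W) * 3 ^ (Fintype.card ι * W)) := by
    rw [Finset.card_product, Finset.card_product, Fintype.card_piFinset, Finset.prod_const,
      Finset.card_univ, Finset.card_univ, Finset.card_univ, Fintype.card_fun, Fintype.card_fun,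
      Fintype.card_bool, Fintype.card_option, Fintype.card_bool, Fintype.card_prod,
      Fintype.card_fin, Fintype.card_fin]
  calc 2 ^ (16 * e) ≤ Dg.card := h4
    _ ≤ Dat.card := Finset.card_filter_le _ _
    _ = Mo.card ^ (Fintype.card ι) * (2 ^ (16 * W) * 3 ^ (Fintype.card ι * W)) := h5
    _ ≤ K ^ (Fintype.card ι) * (2 ^ (16 * W) * 3 ^ (Fintype.card ι * W)) :=
        Nat.mul_le_mul_right _ (Nat.pow_le_pow_left hMo _)
    _ = _ := by ring

private lemma core2 {ι : Type} [Fintype ι] [DecidableEq ι] (D W e K : ℕ)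
    (hK : ∀ S : Finset (Fin W → Fin D), (∀ κ ∈ S, Monotone κ) → S.card ≤ K)
    (hnum : K ^ (Fintype.card ι) * 2 ^ (16 * W) * 3 ^ (Fintype.card ι * W) < 2 ^ (16 * e)) :
    ∃ ρ : Fin D → ℕ → Bool, ∀ (κ : ι → ℕ → Fin D) (E : Finset (ι × Fin W))
      (v : ℕ → Bool) (s : ι → ℕ → Bool),
      (∀ l, Monotone (κ l)) →
      (∀ l l' w, (l, w) ∈ E → (l', w) ∈ E → κ l w = κ l' w → l = l') →
      (∀ x ∈ E, ∀ i < 16, ρ (κ x.1 x.2) (16 * (x.2 : ℕ) + i)
        = xor (v (16 * (x.2 : ℕ) + i)) (s x.1 x.2)) →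
      E.card < e := by
  classical
  by_contra hcon
  push Not at hcon
  refine absurd (core (ι := ι) D W e K hK ?_) (not_le.mpr hnum)
  intro ρ
  obtain ⟨κ, E, v, s, h2, h3, h4, h5⟩ := hcon
    (fun k j => if h : j < 16 * W then ρ k ⟨j, h⟩ else false)
  obtain ⟨g, hg⟩ : ∃ g : ι × Fin W → Option Bool,
      ∀ x, g x = if x ∈ E then some (s x.1 x.2) else none := ⟨_, fun _ => rfl⟩
  have hgE : ∀ x, g x ≠ none ↔ x ∈ E := by
    intro x
    rw [hg]
    by_cases hx : x ∈ E
    · simp [hx]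
    · simp [hx]
  refine ⟨fun l w => κ l w, fun j => v j, g, ?_, ?_, ?_, ?_⟩
  · intro l w w' hww
    exact h2 l hww
  · have h6 : univ.filter (fun x : ι × Fin W => g x ≠ none) = E := by
      ext x
      rw [Finset.mem_filter, hgE]
      exact ⟨fun h => h.2, fun h => ⟨Finset.mem_univ _, h⟩⟩
    rw [h6]
    exact h5
  · intro l l' w hl hl' hκ
    exact h3 l l' w ((hgE _).mp hl) ((hgE _).mp hl') hκ
  · intro x b hb i
    have h6 : x ∈ E := (hgE x).mp (by rw [hb]; exact Option.some_ne_none _)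
    rw [hg, if_pos h6] at hb
    have h7 := Option.some.inj hb
    have h8 := h4 x h6 i i.2
    have h9 : 16 * (x.2 : ℕ) + (i : ℕ) < 16 * W := cell_lt x.2 i
    rw [dif_pos h9, h7] at h8
    exact h8

/-- The table. -/
theorem exists_table (D W : ℕ) (hW : 5 ≤ W) (hD : D ≤ 16 * W + 15) :
    ∃ ρ : Fin D → ℕ → Bool, ∀ (κ : Fin 80 → ℕ → Fin D) (E : Finset (Fin 80 × Fin W))
      (v : ℕ → Bool) (s : Fin 80 → ℕ → Bool),
      (∀ l, Monotone (κ l)) →
      (∀ l l' w, (l, w) ∈ E → (l', w) ∈ E → κ l w = κ l' w → l = l') →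
      (∀ x ∈ E, ∀ i < 16, ρ (κ x.1 x.2) (16 * (x.2 : ℕ) + i)
        = xor (v (16 * (x.2 : ℕ) + i)) (s x.1 x.2)) →
      E.card ≤ 39 * W := by
  have hK : ∀ S : Finset (Fin W → Fin D), (∀ κ ∈ S, Monotone κ) → S.card ≤ 2 ^ (6 * W) := by
    classical
    intro S hS
    have h2 := card_monotone_le D W (by omega) hD
    refine le_trans (Finset.card_le_card ?_) h2
    intro κ hκ
    rw [Finset.mem_filter]
    exact ⟨Finset.mem_univ _, hS κ hκ⟩
  have hnum : (2 ^ (6 * W)) ^ (Fintype.card (Fin 80)) * 2 ^ (16 * W)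
      * 3 ^ (Fintype.card (Fin 80) * W) < 2 ^ (16 * (39 * W + 1)) := by
    rw [Fintype.card_fin]
    have h2 : (3 : ℕ) ^ (80 * W) ≤ 2 ^ (128 * W) := by
      have h3 : 80 * W = 5 * (16 * W) := by ring
      have h4 : 128 * W = 8 * (16 * W) := by ring
      calc (3 : ℕ) ^ (80 * W) = (3 ^ 5) ^ (16 * W) := by rw [h3, ← pow_mul]
        _ ≤ (2 ^ 8) ^ (16 * W) := Nat.pow_le_pow_left (by norm_num) (16 * W)
        _ = 2 ^ (128 * W) := by rw [h4, ← pow_mul]
    calc (2 ^ (6 * W)) ^ 80 * 2 ^ (16 * W) * 3 ^ (80 * W)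
        ≤ (2 ^ (6 * W)) ^ 80 * 2 ^ (16 * W) * 2 ^ (128 * W) := Nat.mul_le_mul_left _ h2
      _ = 2 ^ (624 * W) := by
          rw [← pow_mul, ← pow_add, ← pow_add]
          congr 1
          ring
      _ < 2 ^ (16 * (39 * W + 1)) := Nat.pow_lt_pow_right (by norm_num) (by omega)
  obtain ⟨ρ, hρ⟩ := core2 (ι := Fin 80) D W (39 * W + 1) (2 ^ (6 * W)) hK hnum
  exact ⟨ρ, fun κ E v s h1 h2 h3 => Nat.lt_succ_iff.mp (hρ κ E v s h1 h2 h3)⟩

end Pool.Agent.MP_59bbdb_co.Lin
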