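import Mathlib
import Pool.Agent.MP_59bbdb_co.LinDefs

/-!
# The groups of a grouping
-/

set_option autoImplicit false

namespace Pool.Agent.MP_59bbdb_co.Lin

open Finset

private lemma mem_RR_iff {m r : ℕ} (hr : 0 < r) (f : Fin r → Fin 80) (l : Fin 80) (c : Fin m) :
    c ∈ RR m r f l ↔ (c : ℕ) / r < 80 ∧
      ((c : ℕ) / r + (f ⟨(c : ℕ) % r, Nat.mod_lt _ hr⟩ : ℕ)) % 80 = l := by
  simp only [RR, Finset.mem_filter, Finset.mem_univ, true_and]
  constructor
  · rintro ⟨x, y, hy, hc, hl⟩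
    have h1 : (c : ℕ) / r = y := by
      rw [hc, Nat.add_mul_div_left _ _ hr, Nat.div_eq_of_lt x.2, zero_add]
    have h2 : (⟨(c : ℕ) % r, Nat.mod_lt _ hr⟩ : Fin r) = x := by
      apply Fin.ext
      simp only
      rw [hc, Nat.add_mul_mod_self_left, Nat.mod_eq_of_lt x.2]
    rw [h1, h2]
    exact ⟨hy, hl⟩
  · rintro ⟨h1, h2⟩
    exact ⟨⟨(c : ℕ) % r, Nat.mod_lt _ hr⟩, (c : ℕ) / r, h1, (Nat.mod_add_div _ _).symm, h2⟩

private lemma cancel_mod {y y' z : ℕ} (h1 : y < 80) (h2 : y' < 80)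
    (h : (y + z) % 80 = (y' + z) % 80) : y = y' := by
  omega

private lemma cancel_mod' {y z z' : ℕ} (h1 : z < 80) (h2 : z' < 80)
    (h : (y + z) % 80 = (y + z') % 80) : z = z' := by
  omega

/-- The groups have `r` elements. -/
theorem card_RR (m r : ℕ) (hm : 80 * r ≤ m) (f : Fin r → Fin 80) (l : Fin 80) :
    (RR m r f l).card = r := by
  classical
  have hlt : ∀ x : Fin r, (x : ℕ) + r * (((l : ℕ) + 80 - (f x : ℕ)) % 80) < m := by
    intro x
    have h1 := x.2
    have h2 : ((l : ℕ) + 80 - (f x : ℕ)) % 80 ≤ 79 := by omega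
    have h3 : r * (((l : ℕ) + 80 - (f x : ℕ)) % 80) ≤ r * 79 := Nat.mul_le_mul_left r h2
    omega
  have key : (univ : Finset (Fin r)).card = (RR m r f l).card := by
    refine Finset.card_bij
      (fun x _ => ⟨(x : ℕ) + r * (((l : ℕ) + 80 - (f x : ℕ)) % 80), hlt x⟩) ?_ ?_ ?_
    · intro x _
      simp only [RR, Finset.mem_filter, Finset.mem_univ, true_and]
      refine ⟨x, ((l : ℕ) + 80 - (f x : ℕ)) % 80, Nat.mod_lt _ (by norm_num), rfl, ?_⟩
      have h1 := l.2
      have h2 := (f x).2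
      omega
    · intro x _ x' _ h
      have h1 := congrArg Fin.val h
      simp only at h1
      have h2 := congrArg (fun t => t % r) h1
      simp only [Nat.add_mul_mod_self_left, Nat.mod_eq_of_lt x.2, Nat.mod_eq_of_lt x'.2] at h2
      exact Fin.ext h2
    · intro c hc
      simp only [RR, Finset.mem_filter, Finset.mem_univ, true_and] at hc
      obtain ⟨x, y, hy, hc, hl⟩ := hc
      refine ⟨x, Finset.mem_univ _, ?_⟩
      apply Fin.ext
      simp only
      have h1 := l.2
      have h2 := (f x).2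
      have h3 : ((l : ℕ) + 80 - (f x : ℕ)) % 80 = y := by omega
      rw [h3, hc]
  rw [← key]
  simp

/-- The groups are disjoint. -/
theorem RR_unique (m r : ℕ) (f : Fin r → Fin 80) (l l' : Fin 80) (c : Fin m)
    (h : c ∈ RR m r f l) (h' : c ∈ RR m r f l') : l = l' := by
  rcases Nat.eq_zero_or_pos r with hr | hr
  · subst hr
    simp only [RR, Finset.mem_filter, Finset.mem_univ, true_and] at h
    obtain ⟨x, -⟩ := h
    exact x.elim0
  rw [mem_RR_iff hr] at h h'
  apply Fin.ext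
  rw [← h.2, ← h'.2]

open Classical in
/-- Few groupings have a given set of colours in one group. -/
theorem card_group (m r : ℕ) (Y : Finset (Fin m)) (hY : Y.Nonempty) :
    ((univ : Finset (Fin r → Fin 80)).filter (fun f => ∃ l, Y ⊆ RR m r f l)).card
      * 80 ^ (Y.card - 1) ≤ 80 ^ r := by
  obtain ⟨b, hb⟩ := hY
  rcases Finset.eq_empty_or_nonempty
    ((univ : Finset (Fin r → Fin 80)).filter (fun f => ∃ l, Y ⊆ RR m r f l)) with h0 | ⟨f0, hf0⟩
  · rw [h0]
    simp
  rcases Nat.eq_zero_or_pos r with hr | hr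
  · subst hr
    simp only [Finset.mem_filter, Finset.mem_univ, true_and] at hf0
    obtain ⟨l, hl⟩ := hf0
    have h1 := hl hb
    simp only [RR, Finset.mem_filter, Finset.mem_univ, true_and] at h1
    obtain ⟨x, -⟩ := h1
    exact x.elim0
  let X : Fin m → Fin r := fun c => ⟨(c : ℕ) % r, Nat.mod_lt _ hr⟩
  have hinj : ∀ c ∈ Y, ∀ c' ∈ Y, X c = X c' → c = c' := by
    intro c hc c' hc' hX
    rw [Finset.mem_filter] at hf0
    obtain ⟨-, l, hl⟩ := hf0
    have h1 := (mem_RR_iff hr f0 l c).mp (hl hc)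
    have h2 := (mem_RR_iff hr f0 l c').mp (hl hc')
    have h3 : (⟨(c : ℕ) % r, Nat.mod_lt _ hr⟩ : Fin r) = ⟨(c' : ℕ) % r, Nat.mod_lt _ hr⟩ := hX
    rw [← h3] at h2
    have h4 : (c : ℕ) / r = (c' : ℕ) / r :=
      cancel_mod h1.1 h2.1 (h1.2.trans h2.2.symm)
    have h5 : (c : ℕ) % r = (c' : ℕ) % r := congrArg Fin.val h3
    apply Fin.ext
    rw [← Nat.mod_add_div (c : ℕ) r, ← Nat.mod_add_div (c' : ℕ) r, h4, h5]
  let S : Finset (Fin r) := (Y.erase b).image X
  have hS : S.card = Y.card - 1 := by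
    rw [Finset.card_image_of_injOn, Finset.card_erase_of_mem hb]
    intro c hc c' hc' h
    rw [Finset.mem_coe] at hc hc'
    exact hinj c (Finset.mem_of_mem_erase hc) c' (Finset.mem_of_mem_erase hc') h
  have hbS : X b ∉ S := by
    intro h
    rw [Finset.mem_image] at h
    obtain ⟨c, hc, hcb⟩ := h
    exact Finset.ne_of_mem_erase hc (hinj c (Finset.mem_of_mem_erase hc) b hb hcb)
  let A := {f : Fin r → Fin 80 // ∃ l, Y ⊆ RR m r f l}
  let Ψ : A × (S → Fin 80) → (Fin r → Fin 80) := fun p x =>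
    if h : x ∈ S then p.2 ⟨x, h⟩ else p.1.1 x
  have hΨ : Function.Injective Ψ := by
    rintro ⟨⟨f, l, hf⟩, g⟩ ⟨⟨f', l', hf'⟩, g'⟩ h
    have h1 : ∀ x, Ψ (⟨f, l, hf⟩, g) x = Ψ (⟨f', l', hf'⟩, g') x := fun x => congrFun h x
    have hg : g = g' := by
      funext ⟨x, hx⟩
      have h2 := h1 x
      simp only [Ψ, dif_pos hx] at h2
      exact h2
    have hout : ∀ x, x ∉ S → f x = f' x := by
      intro x hx
      have h2 := h1 x
      simp only [Ψ, dif_neg hx] at h2
      exact h2
    have hll : (l : ℕ) = l' := by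
      have h2 := (mem_RR_iff hr f l b).mp (hf hb)
      have h3 := (mem_RR_iff hr f' l' b).mp (hf' hb)
      rw [← h2.2, ← h3.2]
      have h4 : f ⟨(b : ℕ) % r, Nat.mod_lt _ hr⟩ = f' ⟨(b : ℕ) % r, Nat.mod_lt _ hr⟩ :=
        hout _ hbS
      rw [h4]
    have hff : f = f' := by
      funext x
      by_cases hx : x ∈ S
      · have hx2 := hx
        simp only [S, Finset.mem_image] at hx2
        obtain ⟨c, hc, rfl⟩ := hx2
        have hcY := Finset.mem_of_mem_erase hc
        have h2 := (mem_RR_iff hr f l c).mp (hf hcY)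
        have h3 := (mem_RR_iff hr f' l' c).mp (hf' hcY)
        have h4 := (f (X c)).2
        have h5 := (f' (X c)).2
        have h6 : (f (X c) : ℕ) = f' (X c) := by
          have h7 := h2.2
          have h8 := h3.2
          rw [← hll] at h8
          change ((c : ℕ) / r + (f (X c) : ℕ)) % 80 = l at h7
          change ((c : ℕ) / r + (f' (X c) : ℕ)) % 80 = l at h8
          exact cancel_mod' h4 h5 (h7.trans h8.symm)
        exact Fin.ext h6
      · exact hout x hx
    subst hff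
    subst hg
    rfl
  have hcard := Fintype.card_le_of_injective Ψ hΨ
  rw [Fintype.card_prod, Fintype.card_fun, Fintype.card_fun, Fintype.card_fin, Fintype.card_fin,
    Fintype.card_coe, hS, Fintype.card_subtype] at hcard
  exact hcard

end Pool.Agent.MP_59bbdb_co.Lin
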