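import Mathlib
import Pool.Agent.MP_59bbdb_co.LinR

/-!
# The number of touched residues

At most `2 r` for a hub, and on the average over all groupings at most `2 / 79` (counted as `0`
when the cluster is not a hub).
-/

set_option autoImplicit false

namespace Pool.Agent.MP_59bbdb_co.Lin

open Finset

private lemma cp_val {M N : ℕ} (hN : 0 < N) (hM : 2 * N ≤ M) (s : Bool) (i : ℕ) :
    ((cp hN hM s i : Fin M) : ℕ) = (if s then N else 0) + i % N := rfl

private lemma cp_inj {M N : ℕ} (hN : 0 < N) (hM : 2 * N ≤ M) (s s' : Bool) (i i' : ℕ)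
    (h : (cp hN hM s i : Fin M) = cp hN hM s' i') : s = s' ∧ i % N = i' % N := by
  have h1 := congrArg Fin.val h
  rw [cp_val, cp_val] at h1
  have h2 := Nat.mod_lt i hN
  have h3 := Nat.mod_lt i' hN
  cases s <;> cases s' <;> simp only [Bool.false_eq_true, if_false, if_true, zero_add] at h1 ⊢
  · exact ⟨trivial, h1⟩
  · omega
  · omega
  · exact ⟨trivial, by omega⟩

private lemma add_mod_inj {N x y p : ℕ} (hx : x < N) (hy : y < N)
    (h : (x + p) % N = (y + p) % N) : x = y := by
  have h1 : (x + p) ≡ (y + p) [MOD N] := h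
  have h2 : x ≡ y [MOD N] := Nat.ModEq.add_right_cancel' p h1
  have h3 : x % N = y % N := h2
  rwa [Nat.mod_eq_of_lt hx, Nat.mod_eq_of_lt hy] at h3

private lemma cp_add_inj {M N : ℕ} (hN : 0 < N) (hM : 2 * N ≤ M) (s : Bool) (ω p p' : ℕ)
    (hp : p < N) (hp' : p' < N)
    (h : (cp hN hM s (ω + p) : Fin M) = cp hN hM s (ω + p')) : p = p' := by
  have h1 := (cp_inj hN hM s s _ _ h).2
  rw [add_comm ω p, add_comm ω p'] at h1
  exact add_mod_inj hp hp' h1

/-- Counting the colours used once. -/
private lemma count_once {M m : ℕ} (χ : Fin M → Fin m) (R : Finset (Fin m))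
    (hmiss : miss χ ⊆ R) (U : Finset (Fin M)) (hU : ∀ a, a ∈ U ↔ χ a ∉ R ∧ Once χ a) :
    2 * (m - R.card) ≤ M + U.card := by
  classical
  have h1 : ∀ x ∈ Rᶜ, 2 ≤ ((univ : Finset (Fin M)).filter (fun a => χ a = x)).card
      + (U.filter (fun a => χ a = x)).card := by
    intro x hx
    rw [Finset.mem_compl] at hx
    obtain ⟨a, ha⟩ : ∃ a, χ a = x := by
      by_contra hcon
      push Not at hcon
      exact hx (hmiss (by simp [miss, hcon]))
    by_cases honce : Once χ a
    · have h2 : 0 < ((univ : Finset (Fin M)).filter (fun a => χ a = x)).card :=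
        Finset.card_pos.mpr ⟨a, by simp [ha]⟩
      have h3 : 0 < (U.filter (fun a => χ a = x)).card :=
        Finset.card_pos.mpr ⟨a, by simp [hU, ha, hx, honce]⟩
      omega
    · unfold Once at honce
      push Not at honce
      obtain ⟨a', hne, ha'⟩ := honce
      have h2 : 1 < ((univ : Finset (Fin M)).filter (fun a => χ a = x)).card := by
        rw [Finset.one_lt_card]
        exact ⟨a, by simp [ha], a', by simp [ha', ha], hne.symm⟩
      omega
  have h2 : ∀ (S : Finset (Fin M)), ∑ x ∈ Rᶜ, (S.filter (fun a => χ a = x)).card ≤ S.card := by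
    intro S
    rw [← Finset.card_biUnion]
    · apply Finset.card_le_card
      intro a ha
      rw [Finset.mem_biUnion] at ha
      obtain ⟨x, -, hx⟩ := ha
      exact (Finset.mem_filter.mp hx).1
    · intro x _ y _ hxy
      rw [Function.onFun, Finset.disjoint_left]
      intro a ha hb
      exact hxy ((Finset.mem_filter.mp ha).2.symm.trans (Finset.mem_filter.mp hb).2)
  have h3 : (Rᶜ).card = m - R.card := by
    rw [Finset.card_compl, Fintype.card_fin]
  calc 2 * (m - R.card) = ∑ x ∈ Rᶜ, 2 := by rw [Finset.sum_const, h3, smul_eq_mul, mul_comm]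
    _ ≤ ∑ x ∈ Rᶜ, (((univ : Finset (Fin M)).filter (fun a => χ a = x)).card
      + (U.filter (fun a => χ a = x)).card) := Finset.sum_le_sum h1
    _ = _ := Finset.sum_add_distrib
    _ ≤ (univ : Finset (Fin M)).card + U.card := Nat.add_le_add (h2 _) (h2 _)
    _ = M + U.card := by simp

/-- A hub has at most `2 r` touched residues. -/
theorem card_tz_le {M N m : ℕ} (hN : 0 < N) (hM : 2 * N ≤ M) (r : ℕ) (_hr : 1 ≤ r)
    (hMm : M + 1 = m) (χ : Fin M → Fin m) (R : Finset (Fin m)) (hR : R.card = r)
    (hmiss : miss χ ⊆ R) : (tz hN hM χ R).card ≤ 2 * r := by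
  classical
  have hRm : r ≤ m := by
    rw [← hR]
    simpa using Finset.card_le_univ R
  let U : Finset (Fin M) := univ.filter (fun a => χ a ∉ R ∧ Once χ a)
  have h4 := count_once χ R hmiss U (fun a => by simp [U])
  rw [hR] at h4
  have h5 : (Uᶜ).card + U.card = M := by
    rw [Finset.card_compl, Fintype.card_fin]
    have := Finset.card_le_univ U
    rw [Fintype.card_fin] at this
    omega
  have h6 : ∀ ω ∈ tz hN hM χ R, ∃ s : Bool, cp hN hM s ω ∈ Uᶜ := by
    intro ω hω
    by_contra hcon
    push Not at hcon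
    simp only [tz, Finset.mem_filter] at hω
    apply hω.2
    have h7 : ∀ s, Clean hN hM χ R s ω := by
      intro s
      have h8 := hcon s
      rw [Finset.mem_compl, not_not] at h8
      simp only [U, Finset.mem_filter, Finset.mem_univ, true_and] at h8
      exact ⟨0, hN, fun p' hp' => absurd hp' (Nat.not_lt_zero _), by simpa using h8.1,
        by simpa using h8.2⟩
    exact ⟨h7 false, h7 true⟩
  choose! s hs using h6
  have h7 : (tz hN hM χ R).card ≤ (Uᶜ).card := by
    apply Finset.card_le_card_of_injOn (fun ω => cp hN hM (s ω) ω)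
    · intro ω hω
      rw [Finset.mem_coe] at hω
      rw [Finset.mem_coe]
      exact hs ω hω
    · intro ω hω ω' hω' heq
      rw [Finset.mem_coe] at hω hω'
      simp only [tz, Finset.mem_filter, Finset.mem_range] at hω hω'
      have h8 := (cp_inj hN hM _ _ _ _ heq).2
      rwa [Nat.mod_eq_of_lt hω.1, Nat.mod_eq_of_lt hω'.1] at h8
  omega

/-- The set of colours of a run of length `p`, with the missing colours. -/
private def Yr {M N m : ℕ} (hN : 0 < N) (hM : 2 * N ≤ M) (χ : Fin M → Fin m)
    (x : Bool × ℕ) (p : ℕ) : Finset (Fin m) :=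
  miss χ ∪ (range p).image (fun p' => χ (cp hN hM x.1 (x.2 + p')))

open Classical in
/-- The pairs (chain, residue) whose run of length `p` ends in a repeated colour. -/
private noncomputable def Qr {M N m : ℕ} (hN : 0 < N) (hM : 2 * N ≤ M) (χ : Fin M → Fin m)
    (p : ℕ) : Finset (Bool × ℕ) :=
  ((univ : Finset Bool) ×ˢ range N).filter (fun x => ¬ Once χ (cp hN hM x.1 (x.2 + p)) ∧
    ∀ p' < p, Once χ (cp hN hM x.1 (x.2 + p')))

private lemma card_Yr {M N m : ℕ} (hN : 0 < N) (hM : 2 * N ≤ M) (χ : Fin M → Fin m) (p : ℕ)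
    (hp : p < N) (x : Bool × ℕ) (hx : x ∈ Qr hN hM χ p) :
    (Yr hN hM χ x p).card = (miss χ).card + p := by
  classical
  simp only [Qr, Finset.mem_filter, Finset.mem_product, Finset.mem_univ, true_and] at hx
  unfold Yr
  rw [Finset.card_union_of_disjoint]
  · congr 1
    rw [Finset.card_image_of_injOn, Finset.card_range]
    intro q hq q' hq' heq
    rw [Finset.mem_coe, Finset.mem_range] at hq hq'
    by_contra hne
    have h1 := hx.2.2 q hq
    apply h1 (cp hN hM x.1 (x.2 + q')) _ heq.symm
    intro h2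
    exact hne (cp_add_inj hN hM x.1 x.2 q' q (by omega) (by omega) h2).symm
  · rw [Finset.disjoint_left]
    intro y hy hy'
    rw [Finset.mem_image] at hy'
    obtain ⟨q, -, rfl⟩ := hy'
    simp only [miss, Finset.mem_filter, Finset.mem_univ, true_and] at hy
    exact hy _ rfl

private lemma card_Qr_le {M N m : ℕ} (hN : 0 < N) (hM : 2 * N ≤ M) (χ : Fin M → Fin m) (p : ℕ)
    (hMm : M + 1 = m) (hmiss : (miss χ).Nonempty) :
    (Qr hN hM χ p).card ≤ 2 * ((miss χ).card - 1) := by
  classical
  let U : Finset (Fin M) := univ.filter (fun a => χ a ∉ miss χ ∧ Once χ a)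
  have h4 := count_once χ (miss χ) (Finset.Subset.refl _) U (fun a => by simp [U])
  have h5 : (Uᶜ).card + U.card = M := by
    rw [Finset.card_compl, Fintype.card_fin]
    have := Finset.card_le_univ U
    rw [Fintype.card_fin] at this
    omega
  have h6 : (Qr hN hM χ p).card ≤ (Uᶜ).card := by
    apply Finset.card_le_card_of_injOn (fun x => cp hN hM x.1 (x.2 + p))
    · intro x hx
      rw [Finset.mem_coe] at hx
      simp only [Qr, Finset.mem_filter] at hx
      rw [Finset.mem_coe, Finset.mem_compl]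
      intro h7
      simp only [U, Finset.mem_filter, Finset.mem_univ, true_and] at h7
      exact hx.2.1 h7.2
    · intro x hx x' hx' heq
      rw [Finset.mem_coe] at hx hx'
      simp only [Qr, Finset.mem_filter, Finset.mem_product, Finset.mem_univ, true_and,
        Finset.mem_range] at hx hx'
      obtain ⟨h7, h8⟩ := cp_inj hN hM _ _ _ _ heq
      exact Prod.ext h7 (add_mod_inj hx.1 hx'.1 h8)
  have h7 := Finset.card_pos.mpr hmiss
  have h8 : (miss χ).card ≤ m := by simpa using Finset.card_le_univ (miss χ)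
  omega

open Classical in
private lemma tz_le_sum {M N m : ℕ} (hN : 0 < N) (hM : 2 * N ≤ M) (r : ℕ)
    (hNr : r < N) (χ : Fin M → Fin m) (R : Finset (Fin m)) (hR : R.card = r)
    (hmiss : miss χ ⊆ R) :
    (tz hN hM χ R).card ≤ ∑ p ∈ range N, ∑ x ∈ Qr hN hM χ p,
      (if Yr hN hM χ x p ⊆ R then 1 else 0) := by
  have h1 : ∀ ω ∈ tz hN hM χ R, ∃ (s : Bool) (p : ℕ), p < N ∧ (s, ω) ∈ Qr hN hM χ p ∧
      Yr hN hM χ (s, ω) p ⊆ R := by
    intro ω hω
    simp only [tz, Finset.mem_filter, Finset.mem_range] at hω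
    obtain ⟨hωN, hω⟩ := hω
    obtain ⟨s, hs⟩ : ∃ s, ¬ Clean hN hM χ R s ω := by
      by_contra hcon
      push Not at hcon
      exact hω ⟨hcon false, hcon true⟩
    have h2 : ∃ p, p < N ∧ (¬ Once χ (cp hN hM s (ω + p)) ∨ χ (cp hN hM s (ω + p)) ∉ R) := by
      by_contra hcon
      push Not at hcon
      have h3 : (range N).card ≤ R.card := by
        apply Finset.card_le_card_of_injOn (fun p => χ (cp hN hM s (ω + p)))
        · intro p hp
          rw [Finset.mem_coe, Finset.mem_range] at hp
          exact (hcon p hp).2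
        · intro p hp p' hp' heq
          rw [Finset.mem_coe, Finset.mem_range] at hp hp'
          by_contra hne
          apply (hcon p hp).1 (cp hN hM s (ω + p')) _ heq.symm
          intro h4
          exact hne (cp_add_inj hN hM s ω p' p hp' hp h4).symm
      rw [Finset.card_range, hR] at h3
      omega
    obtain ⟨p, ⟨hpN, hp⟩, hmin⟩ : ∃ p, (p < N ∧ (¬ Once χ (cp hN hM s (ω + p)) ∨
        χ (cp hN hM s (ω + p)) ∉ R)) ∧ ∀ q < p, ¬ (q < N ∧ (¬ Once χ (cp hN hM s (ω + q)) ∨
        χ (cp hN hM s (ω + q)) ∉ R)) :=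
      ⟨Nat.find h2, Nat.find_spec h2, fun q hq => Nat.find_min h2 hq⟩
    have h5 : ∀ q < p, Once χ (cp hN hM s (ω + q)) ∧ χ (cp hN hM s (ω + q)) ∈ R := by
      intro q hq
      have h6 := hmin q hq
      push Not at h6
      exact h6 (by omega)
    have h6 : ¬ Once χ (cp hN hM s (ω + p)) := by
      intro h7
      apply hs
      refine ⟨p, hpN, fun q hq => (h5 q hq).2, ?_, h7⟩
      rcases hp with h8 | h8
      · exact absurd h7 h8
      · exact h8
    refine ⟨s, p, hpN, ?_, ?_⟩
    · simp only [Qr, Finset.mem_filter, Finset.mem_product, Finset.mem_univ, true_and,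
        Finset.mem_range]
      exact ⟨hωN, h6, fun q hq => (h5 q hq).1⟩
    · intro y hy
      unfold Yr at hy
      rw [Finset.mem_union] at hy
      rcases hy with hy | hy
      · exact hmiss hy
      · rw [Finset.mem_image] at hy
        obtain ⟨q, hq, rfl⟩ := hy
        rw [Finset.mem_range] at hq
        exact (h5 q hq).2
  choose! s p hpN hQ hY using h1
  have h2 : (tz hN hM χ R).card ≤ ((range N).sigma (fun p => (Qr hN hM χ p).filter
      (fun x => Yr hN hM χ x p ⊆ R))).card := by
    apply Finset.card_le_card_of_injOn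
      (fun ω => (⟨p ω, (s ω, ω)⟩ : (_ : ℕ) × (Bool × ℕ)))
    · intro ω hω
      rw [Finset.mem_coe] at hω
      rw [Finset.mem_coe, Finset.mem_sigma]
      refine ⟨Finset.mem_range.mpr (hpN ω hω), ?_⟩
      rw [Finset.mem_filter]
      exact ⟨hQ ω hω, hY ω hω⟩
    · intro ω _ ω' _ heq
      simp only [Sigma.mk.injEq, heq_eq_eq, Prod.mk.injEq] at heq
      exact heq.2.2
  rw [Finset.card_sigma] at h2
  refine h2.trans (le_of_eq ?_)
  apply Finset.sum_congr rfl
  intro p _
  rw [Finset.card_filter]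

private lemma geom_bound (n : ℕ) : ∑ p ∈ range n, ((1 : ℚ) / 80) ^ p ≤ 80 / 79 := by
  have h : ∑ p ∈ range n, ((1 : ℚ) / 80) ^ p = 80 / 79 * (1 - (1 / 80) ^ n) := by
    induction n with
    | zero => simp
    | succ k ih =>
      rw [Finset.sum_range_succ, ih, pow_succ]
      ring
  rw [h]
  have h1 : (0 : ℚ) ≤ (1 / 80) ^ n := by positivity
  nlinarith

open Classical in
/-- The average number of touched residues. -/
theorem sum_card_tz_le {M N m : ℕ} (hN : 0 < N) (hM : 2 * N ≤ M) (r : ℕ) (_hr : 1 ≤ r)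
    (hNr : r < N) (hm : 80 * r ≤ m) (hMm : M + 1 = m) (χ : Fin M → Fin m) :
    79 * ∑ f : Fin r → Fin 80, ∑ l : Fin 80,
      (if miss χ ⊆ RR m r f l then (tz hN hM χ (RR m r f l)).card else 0) ≤ 2 * 80 ^ r := by
  have hne : (miss χ).Nonempty := by
    by_contra h
    rw [Finset.not_nonempty_iff_eq_empty] at h
    have hsurj : Function.Surjective χ := by
      intro x
      by_contra hx
      push Not at hx
      have : x ∈ miss χ := by simp [miss, hx]
      rw [h] at this
      simp at this
    have := Fintype.card_le_of_surjective χ hsurj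
    simp at this
    omega
  obtain ⟨e, he⟩ : ∃ e, (miss χ).card = e + 1 :=
    ⟨(miss χ).card - 1, by have := Finset.card_pos.mpr hne; omega⟩
  -- the number of groupings for one run
  have hone : ∀ p < N, ∀ x ∈ Qr hN hM χ p,
      (∑ f : Fin r → Fin 80, ∑ l : Fin 80, (if Yr hN hM χ x p ⊆ RR m r f l then 1 else 0))
        * 80 ^ (e + p) ≤ 80 ^ r := by
    intro p hp x hx
    have hY : (Yr hN hM χ x p).Nonempty := hne.mono Finset.subset_union_left
    have h1 := card_group m r (Yr hN hM χ x p) hY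
    rw [card_Yr hN hM χ p hp x hx, he] at h1
    have h2 : e + 1 + p - 1 = e + p := by omega
    rw [h2] at h1
    have h3 : (∑ f : Fin r → Fin 80, ∑ l : Fin 80,
        (if Yr hN hM χ x p ⊆ RR m r f l then 1 else 0))
        ≤ ((univ : Finset (Fin r → Fin 80)).filter
          (fun f => ∃ l, Yr hN hM χ x p ⊆ RR m r f l)).card := by
      rw [Finset.card_filter]
      apply Finset.sum_le_sum
      intro f _
      rw [← Finset.card_filter]
      split_ifs with h4
      · rw [Finset.card_le_one]
        intro l hl l' hl'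
        rw [Finset.mem_filter] at hl hl'
        obtain ⟨y, hy⟩ := hY
        exact RR_unique m r f l l' y (hl.2 hy) (hl'.2 hy)
      · rw [Nat.le_zero, Finset.card_eq_zero, Finset.filter_eq_empty_iff]
        intro l _ h5
        exact h4 ⟨l, h5⟩
    exact (Nat.mul_le_mul_right _ h3).trans h1
  -- the sum is at most the sum over the runs
  have hsum : ∑ f : Fin r → Fin 80, ∑ l : Fin 80,
      (if miss χ ⊆ RR m r f l then (tz hN hM χ (RR m r f l)).card else 0)
      ≤ ∑ p ∈ range N, ∑ x ∈ Qr hN hM χ p, ∑ f : Fin r → Fin 80, ∑ l : Fin 80,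
        (if Yr hN hM χ x p ⊆ RR m r f l then 1 else 0) := by
    calc _ ≤ ∑ f : Fin r → Fin 80, ∑ l : Fin 80, ∑ p ∈ range N, ∑ x ∈ Qr hN hM χ p,
          (if Yr hN hM χ x p ⊆ RR m r f l then 1 else 0) := by
          apply Finset.sum_le_sum
          intro f _
          apply Finset.sum_le_sum
          intro l _
          split_ifs with h1
          · exact tz_le_sum hN hM r hNr χ _ (card_RR m r hm f l) h1
          · exact Nat.zero_le _
      _ = ∑ f : Fin r → Fin 80, ∑ p ∈ range N, ∑ x ∈ Qr hN hM χ p, ∑ l : Fin 80,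
          (if Yr hN hM χ x p ⊆ RR m r f l then 1 else 0) := by
          apply Finset.sum_congr rfl
          intro f _
          rw [Finset.sum_comm]
          apply Finset.sum_congr rfl
          intro p _
          rw [Finset.sum_comm]
      _ = _ := by
          rw [Finset.sum_comm]
          apply Finset.sum_congr rfl
          intro p _
          rw [Finset.sum_comm]
  -- in rational numbers
  have hA : ((∑ f : Fin r → Fin 80, ∑ l : Fin 80,
      (if miss χ ⊆ RR m r f l then (tz hN hM χ (RR m r f l)).card else 0) : ℕ) : ℚ)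
      ≤ ∑ p ∈ range N, (2 * e : ℚ) * (80 ^ r / 80 ^ (e + p)) := by
    refine (Nat.cast_le.mpr hsum).trans ?_
    rw [Nat.cast_sum]
    apply Finset.sum_le_sum
    intro p hp
    rw [Finset.mem_range] at hp
    rw [Nat.cast_sum]
    have h1 : ∀ x ∈ Qr hN hM χ p, ((∑ f : Fin r → Fin 80, ∑ l : Fin 80,
        (if Yr hN hM χ x p ⊆ RR m r f l then 1 else 0) : ℕ) : ℚ) ≤ 80 ^ r / 80 ^ (e + p) := by
      intro x hx
      rw [le_div_iff₀ (by positivity)]
      exact_mod_cast hone p hp x hx
    refine (Finset.sum_le_sum h1).trans ?_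
    rw [Finset.sum_const, nsmul_eq_mul]
    have h2 := card_Qr_le hN hM χ p hMm hne
    rw [he] at h2
    have h3 : e + 1 - 1 = e := by omega
    rw [h3] at h2
    have h4 : ((Qr hN hM χ p).card : ℚ) ≤ 2 * e := by exact_mod_cast h2
    exact mul_le_mul_of_nonneg_right h4 (by positivity)
  have hB : ∑ p ∈ range N, (2 * e : ℚ) * (80 ^ r / 80 ^ (e + p))
      = (2 * e : ℚ) * (80 ^ r / 80 ^ e) * ∑ p ∈ range N, ((1 : ℚ) / 80) ^ p := by
    rw [Finset.mul_sum]
    apply Finset.sum_congr rfl
    intro p _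
    rw [pow_add, one_div, inv_pow]
    field_simp
  have hC : (e : ℚ) * 80 ≤ 80 ^ e := by
    have h1 : ∀ e : ℕ, e * 80 ≤ 80 ^ e := by
      intro e
      induction e with
      | zero => simp
      | succ k ih =>
        rcases Nat.eq_zero_or_pos k with h0 | h0
        · subst h0
          norm_num
        · rw [pow_succ]
          nlinarith
    exact_mod_cast h1 e
  have hD : (79 : ℚ) * ((∑ f : Fin r → Fin 80, ∑ l : Fin 80,
      (if miss χ ⊆ RR m r f l then (tz hN hM χ (RR m r f l)).card else 0) : ℕ) : ℚ)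
      ≤ 2 * 80 ^ r := by
    have h1 := geom_bound N
    have h2 : (0 : ℚ) ≤ (2 * e : ℚ) * (80 ^ r / 80 ^ e) := by positivity
    have h3 : (2 * e : ℚ) * (80 ^ r / 80 ^ e) * ∑ p ∈ range N, ((1 : ℚ) / 80) ^ p
        ≤ (2 * e : ℚ) * (80 ^ r / 80 ^ e) * (80 / 79) := mul_le_mul_of_nonneg_left h1 h2
    have h4 : (79 : ℚ) * ((2 * e : ℚ) * (80 ^ r / 80 ^ e) * (80 / 79))
        = 2 * 80 ^ r * ((e * 80) / 80 ^ e) := by
      field_simp
    have h5 : ((e : ℚ) * 80) / 80 ^ e ≤ 1 := (div_le_one (by positivity)).mpr hC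
    have h6 : (2 : ℚ) * 80 ^ r * ((e * 80) / 80 ^ e) ≤ 2 * 80 ^ r * 1 :=
      mul_le_mul_of_nonneg_left h5 (by positivity)
    rw [hB] at hA
    linarith
  exact_mod_cast hD

end Pool.Agent.MP_59bbdb_co.Lin
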