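import Mathlib
import Pool.Agent.MP_59bbdb_co.LinTrop
import Pool.Agent.MP_59bbdb_co.LinAssemble
import Pool.Agent.MP_59bbdb_co.LinLevel
import Pool.Agent.MP_59bbdb_co.LinZ
import Pool.Agent.MP_59bbdb_co.LinC
import Pool.Agent.MP_59bbdb_co.LinU

/-!
# Assembly of the linear gap theorem
-/

set_option autoImplicit false

namespace Pool.Agent.MP_59bbdb_co.Lin

open Finset

private lemma miss_nonempty {M m : ℕ} (hMm : M < m) (χ : Fin M → Fin m) : (miss χ).Nonempty := by
  classical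
  by_contra h
  rw [Finset.not_nonempty_iff_eq_empty] at h
  have hsurj : Function.Surjective χ := by
    intro x
    by_contra hx
    push Not at hx
    have : x ∈ miss χ := by simp [miss, hx]
    rw [h] at this
    simp at this
  have := Fintype.card_le_of_surjective χ hsurj
  simp at this
  omega

private lemma mem_miss {M m : ℕ} (χ : Fin M → Fin m) (x : Fin m) : x ∈ miss χ ↔ ∀ a, χ a ≠ x := by
  simp [miss]

/-- The case of few clusters. -/
private lemma small_case (d n r : ℕ) (hd : 1 ≤ d) (hr : 1 ≤ r) (hsmall : d + 1 ≤ n) :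
    ∃ X : Finset (EuclideanSpace ℝ (Fin d)), X.card = (n + r - 1) * (d + 1) ∧
      ∀ f : EuclideanSpace ℝ (Fin d) → Fin (n + r), ∃ I : Finset (Fin (n + r)), I.card = n ∧
        (⋂ i ∈ I, convexHull ℝ {x : EuclideanSpace ℝ (Fin d) | x ∈ X ∧ f x = i}) = ∅ := by
  classical
  refine exists_config (M := n + r - 1) (m := n + r) (fun _ _ _ => 0) (((d : ℝ) + 2) ^ (2 * 0) + 1)
    ((d : ℝ) + 2) hd n ?_
  intro c
  have hb : ∀ k : Fin (d + 1), (miss (fun a => c (k, a))).Nonempty := fun k =>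
    miss_nonempty (by omega) _
  choose b hb using hb
  have h1 : (univ.image b).card ≤ n := by
    calc (univ.image b).card ≤ (univ : Finset (Fin (d + 1))).card := Finset.card_image_le
      _ = d + 1 := by simp
      _ ≤ n := hsmall
  obtain ⟨I, hI1, -, hI2⟩ := Finset.exists_subsuperset_card_eq (Finset.subset_univ (univ.image b))
    h1 (by simp : n ≤ (univ : Finset (Fin (n + r))).card)
  refine ⟨I, hI2, fun hL => ?_⟩
  obtain ⟨φ, h2, -, -⟩ := trop (fun _ _ _ => 0) (((d : ℝ) + 2) ^ (2 * 0) + 1) ((d : ℝ) + 2) c I 0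
    (fun _ _ _ => le_refl 0) rfl (by linarith) hL univ b (by
      intro j _
      refine ⟨hI1 (Finset.mem_image_of_mem _ (Finset.mem_univ _)), ?_⟩
      rintro ⟨k, a⟩ rfl
      exact (mem_miss _ _).mp (hb k) a)
  obtain ⟨a, ha⟩ := h2 0 (Finset.mem_univ _) (b (φ 0)) (hI1 (Finset.mem_image_of_mem _ (Finset.mem_univ _)))
  exact (mem_miss _ _).mp (hb (φ 0)) a ha

open Classical in
/-- The hubs. -/
private noncomputable def Hub {D M m : ℕ} (r : ℕ) (χ : Fin D → Fin M → Fin m)
    (f : Fin r → Fin 80) (l : Fin 80) : Finset (Fin D) :=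
  univ.filter (fun k => miss (χ k) ⊆ RR m r f l)

open Classical in
/-- A good grouping. -/
private lemma exists_grouping {D M N m : ℕ} (hN : 0 < N) (hM : 2 * N ≤ M) (r : ℕ) (hr : 1 ≤ r)
    (hNr : r < N) (hm : 80 * r ≤ m) (hMm : M + 1 = m) (χ : Fin D → Fin M → Fin m) :
    ∃ f : Fin r → Fin 80,
      79 * ∑ l : Fin 80, ∑ k ∈ Hub r χ f l, (tz hN hM (χ k) (RR m r f l)).card ≤ 2 * D := by
  by_contra hcon
  push Not at hcon
  have h1 : ∑ f : Fin r → Fin 80, (2 * D)
      < ∑ f : Fin r → Fin 80,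
        79 * ∑ l : Fin 80, ∑ k ∈ Hub r χ f l, (tz hN hM (χ k) (RR m r f l)).card := by
    apply Finset.sum_lt_sum_of_nonempty
    · exact ⟨fun _ => 0, Finset.mem_univ _⟩
    · intro f _
      exact hcon f
  have h2 : ∑ f : Fin r → Fin 80,
        79 * ∑ l : Fin 80, ∑ k ∈ Hub r χ f l, (tz hN hM (χ k) (RR m r f l)).card
      = ∑ k : Fin D, 79 * ∑ f : Fin r → Fin 80, ∑ l : Fin 80,
        (if miss (χ k) ⊆ RR m r f l then (tz hN hM (χ k) (RR m r f l)).card else 0) := by
    simp only [Hub, Finset.sum_filter]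
    rw [← Finset.mul_sum, ← Finset.mul_sum]
    congr 1
    rw [Finset.sum_comm (s := (univ : Finset (Fin D)))]
    apply Finset.sum_congr rfl
    intro f _
    rw [Finset.sum_comm]
  have h3 : ∑ k : Fin D, 79 * ∑ f : Fin r → Fin 80, ∑ l : Fin 80,
        (if miss (χ k) ⊆ RR m r f l then (tz hN hM (χ k) (RR m r f l)).card else 0)
      ≤ ∑ k : Fin D, 2 * 80 ^ r :=
    Finset.sum_le_sum (fun k _ => sum_card_tz_le hN hM r hr hNr hm hMm (χ k))
  rw [h2] at h1
  have h4 := lt_of_lt_of_le h1 h3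
  simp only [Finset.sum_const, Finset.card_univ, Fintype.card_fun, Fintype.card_fin,
    smul_eq_mul] at h4
  have h5 : 80 ^ r * (2 * D) = D * (2 * 80 ^ r) := by ring
  omega

private lemma card_hubs {D M m : ℕ} (r : ℕ) (hMm : M < m) (χ : Fin D → Fin M → Fin m)
    (f : Fin r → Fin 80) : ∑ l : Fin 80, (Hub r χ f l).card ≤ D := by
  classical
  have h1 : ∀ l ∈ (univ : Finset (Fin 80)), ∀ l' ∈ (univ : Finset (Fin 80)), l ≠ l' →
      Disjoint (Hub r χ f l) (Hub r χ f l') := by
    intro l _ l' _ hne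
    rw [Finset.disjoint_left]
    intro k hk hk'
    simp only [Hub, Finset.mem_filter, Finset.mem_univ, true_and] at hk hk'
    obtain ⟨x, hx⟩ := miss_nonempty hMm (χ k)
    exact hne (RR_unique m r f l l' x (hk hx) (hk' hx))
  rw [← Finset.card_biUnion h1]
  calc _ ≤ (univ : Finset (Fin D)).card := Finset.card_le_card (Finset.subset_univ _)
    _ = D := by simp

open Classical in
/-- The windows all of whose rows need the group `l`. -/
private noncomputable def Xw {D m : ℕ} (r W : ℕ) (b : Fin D → Fin m)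
    (f : Fin r → Fin 80) (l : Fin 80) : Finset ℕ :=
  (range W).filter (fun w => ∀ i < 16, ∃ h : 16 * w + i < D, b ⟨16 * w + i, h⟩ ∉ RR m r f l)

private lemma card_windows {D m : ℕ} (r W : ℕ) (hW : 16 * W ≤ D) (b : Fin D → Fin m)
    (f : Fin r → Fin 80) : 80 * W ≤ ∑ l : Fin 80, (Xw r W b f l).card + 16 * W := by
  classical
  have h1 : ∀ l : Fin 80, W ≤ (Xw r W b f l).card + ((range W) \ Xw r W b f l).card := by
    intro l
    have h2 : (Xw r W b f l) ⊆ range W := Finset.filter_subset _ _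
    rw [Finset.card_sdiff_of_subset h2, Finset.card_range]
    have := Finset.card_le_card h2
    rw [Finset.card_range] at this
    omega
  have h2 : ∑ l : Fin 80, ((range W) \ Xw r W b f l).card ≤ 16 * W := by
    have h3 : ∑ l : Fin 80, ((range W) \ Xw r W b f l).card
        = ((univ : Finset (Fin 80)).sigma (fun l => (range W) \ Xw r W b f l)).card := by
      rw [Finset.card_sigma]
    rw [h3]
    obtain ⟨T, hT⟩ : ∃ T : Finset ((_ : Fin 80) × ℕ),
      T = (univ : Finset (Fin 80)).sigma (fun l => (range W) \ Xw r W b f l) := ⟨_, rfl⟩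
    rw [← hT]
    have h4 : ∀ x ∈ T, ∃ i, i < 16 ∧ x.2 < W ∧
          ∃ h : 16 * x.2 + i < D, b ⟨16 * x.2 + i, h⟩ ∈ RR m r f x.1 := by
      rintro ⟨l, w⟩ hx
      rw [hT, Finset.mem_sigma] at hx
      obtain ⟨-, hx⟩ := hx
      rw [Finset.mem_sdiff, Finset.mem_range] at hx
      obtain ⟨hw, hx⟩ := hx
      simp only at hw
      have hx2 : ¬ (∀ i < 16, ∃ h : 16 * w + i < D, b ⟨16 * w + i, h⟩ ∉ RR m r f l) := by
        intro h6
        apply hx
        simp only [Xw, Finset.mem_filter, Finset.mem_range]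
        exact ⟨hw, h6⟩
      push Not at hx2
      obtain ⟨i, hi, hx2⟩ := hx2
      have h5 : 16 * w + i < D := by omega
      exact ⟨i, hi, hw, h5, hx2 h5⟩
    choose! i hi hxW hD hmem using h4
    have h5 : T.card ≤ (range (16 * W)).card := by
      apply Finset.card_le_card_of_injOn (fun x => 16 * x.2 + i x)
      · intro x hx
        rw [Finset.mem_coe] at hx
        have h6 := hi x hx
        have h7 := hxW x hx
        simp only [Finset.coe_range, Set.mem_Iio]
        omega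
      · intro x hx y hy hxy
        rw [Finset.mem_coe] at hx hy
        simp only at hxy
        have h6 := hi x hx
        have h7 := hi y hy
        have h8 : x.2 = y.2 := by omega
        have h9 : i x = i y := by omega
        have h10 := hmem x hx
        have h11 := hmem y hy
        have h12 : (⟨16 * x.2 + i x, hD x hx⟩ : Fin D) = ⟨16 * y.2 + i y, hD y hy⟩ :=
          Fin.ext hxy
        rw [h12] at h10
        have h13 := RR_unique m r f x.1 y.1 _ h10 h11
        exact Sigma.ext h13 (heq_of_eq h8)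
    rw [Finset.card_range] at h5
    exact h5
  have h3 : ∑ l : Fin 80, W ≤ ∑ l : Fin 80, ((Xw r W b f l).card
      + ((range W) \ Xw r W b f l).card) := Finset.sum_le_sum (fun l _ => h1 l)
  rw [Finset.sum_add_distrib] at h3
  simp only [Finset.sum_const, Finset.card_univ, Fintype.card_fin, smul_eq_mul] at h3
  omega

private lemma exists_pairs {ι : Type} [Fintype ι] (W : ℕ) (G : ι → Finset ℕ)
    (hG : ∀ l, ∀ w ∈ G l, w < W) :
    ∃ E : Finset (ι × Fin W), (∀ x : ι × Fin W, x ∈ E ↔ (x.2 : ℕ) ∈ G x.1) ∧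
      E.card = ∑ l : ι, (G l).card := by
  classical
  refine ⟨univ.filter (fun x => (x.2 : ℕ) ∈ G x.1), fun x => by simp, ?_⟩
  rw [← Finset.card_sigma]
  refine Finset.card_bij (fun x _ => ⟨x.1, (x.2 : ℕ)⟩) ?_ ?_ ?_
  · rintro ⟨l, w⟩ hx
    simp only [Finset.mem_filter, Finset.mem_univ, true_and] at hx
    simp [hx]
  · rintro ⟨l, w⟩ _ ⟨l', w'⟩ _ h
    simp only [Sigma.mk.injEq, heq_eq_eq] at h
    rw [h.1, Fin.ext h.2]
  · rintro ⟨l, w⟩ hx
    simp only [Finset.mem_sigma, Finset.mem_univ, true_and] at hx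
    exact ⟨(l, ⟨w, hG l w hx⟩), by simp [hx], rfl⟩

/-- The main theorem, with `m = n + r`. -/
theorem configL (d m n r : ℕ) (hd : 1 ≤ d) (hr : 1 ≤ r) (hm : m = n + r) (hb : 80 * r ≤ m) :
    ∃ X : Finset (EuclideanSpace ℝ (Fin d)), X.card = (m - 1) * (d + 1) ∧
      ∀ f : EuclideanSpace ℝ (Fin d) → Fin m, ∃ I : Finset (Fin m), I.card = n ∧
        (⋂ i ∈ I, convexHull ℝ {x : EuclideanSpace ℝ (Fin d) | x ∈ X ∧ f x = i}) = ∅ := by
  classical
  rcases Nat.lt_or_ge n (d + 1) with hbig | hsmall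
  swap
  · subst hm
    exact small_case d n r hd hr hsmall
  obtain ⟨W, hW⟩ : ∃ W, W = (d + 1) / 16 := ⟨_, rfl⟩
  have hW5 : 5 ≤ W := by omega
  have hWD : 16 * W ≤ d + 1 := by omega
  have hDW : d + 1 ≤ 16 * W + 15 := by omega
  obtain ⟨ρ, hρ⟩ := exists_table (d + 1) W hW5 hDW
  have hN : 0 < 32 * r := by omega
  have hM : 2 * (32 * r) ≤ m - 1 := by omega
  let lev : Fin (d + 1) → Fin (d + 1) → Fin (m - 1) → ℕ := fun k j a =>
    lv (32 * r) (ρ k (j : ℕ)) (((j : ℕ) / 16) % (32 * r)) (a : ℕ)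
  refine exists_config (M := m - 1) (m := m) lev
    (((d : ℝ) + 2) ^ (2 * (2 * (32 * r))) + 1) ((d : ℝ) + 2) hd n ?_
  intro c
  by_contra hcon
  push Not at hcon
  let χ : Fin (d + 1) → Fin (m - 1) → Fin m := fun k a => c (k, a)
  have hMm : m - 1 + 1 = m := by omega
  obtain ⟨f, hf⟩ := exists_grouping hN hM r hr (by omega) (by omega) hMm χ
  have hmiss : ∀ k : Fin (d + 1), (miss (χ k)).Nonempty := fun k => miss_nonempty (by omega) _
  choose b hb' using hmiss
  -- the paths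
  have hpath : ∀ l : Fin 80, ∃ φ : Fin (d + 1) → Fin (d + 1),
      (∀ j, b j ∉ RR m r f l → φ j ∈ Hub r χ f l) ∧
      (∀ j, b j ∉ RR m r f l → ∀ a0, χ (φ j) a0 ∉ RR m r f l → Once (χ (φ j)) a0 →
        ∃ a, χ (φ j) a = b j ∧ lev (φ j) j a0 ≤ lev (φ j) j a) ∧
      (∀ j j', b j ∉ RR m r f l → b j' ∉ RR m r f l → j ≤ j' → φ j ≤ φ j') := by
    intro l
    have hI : ((RR m r f l)ᶜ).card = n := by
      rw [Finset.card_compl, card_RR m r (by omega) f l, Fintype.card_fin]
      omega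
    obtain ⟨φ, h1, h2, h3⟩ := trop lev (((d : ℝ) + 2) ^ (2 * (2 * (32 * r))) + 1) ((d : ℝ) + 2) c
      ((RR m r f l)ᶜ) (2 * (32 * r)) (fun k j a => by simp only [lev]; exact lv_le _ _ _ _) rfl (by linarith)
      (hcon _ hI) (univ.filter (fun j => b j ∉ RR m r f l)) b (by
        intro j hj
        rw [Finset.mem_filter] at hj
        refine ⟨Finset.mem_compl.mpr hj.2, ?_⟩
        rintro ⟨k, a⟩ rfl
        exact (mem_miss _ _).mp (hb' k) a)
    have hmem : ∀ j, b j ∉ RR m r f l → j ∈ univ.filter (fun j => b j ∉ RR m r f l) := by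
      intro j hj
      rw [Finset.mem_filter]
      exact ⟨Finset.mem_univ _, hj⟩
    refine ⟨φ, ?_, ?_, ?_⟩
    · intro j hj
      simp only [Hub, Finset.mem_filter, Finset.mem_univ, true_and]
      intro x hx
      by_contra hx'
      obtain ⟨a, ha⟩ := h1 j (hmem j hj) x (Finset.mem_compl.mpr hx')
      exact (mem_miss _ _).mp hx a ha
    · intro j hj a0 ha0 honce
      exact h2 j (hmem j hj) a0 (Finset.mem_compl.mpr ha0) honce
    · intro j j' hj hj' hjj
      exact h3 j (hmem j hj) j' (hmem j' hj') hjj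
  choose φ hφH hφlev hφmono using hpath
  have hZ : ∀ l : Fin 80, ∀ k ∈ Hub r χ f l, (tz hN hM (χ k) (RR m r f l)).card ≤ 2 * r := by
    intro l k hk
    simp only [Hub, Finset.mem_filter, Finset.mem_univ, true_and] at hk
    exact card_tz_le hN hM r hr hMm (χ k) _ (card_RR m r (by omega) f l) hk
  have hgood : ∀ l : Fin 80, ∃ (κ : ℕ → Fin (d + 1)) (G : Finset ℕ), Monotone κ ∧ G ⊆ Xw r W b f l ∧
      (∀ w ∈ G, κ w ∈ Hub r χ f l ∧ (∀ i < 16, (if h : 16 * w + i < d + 1 then φ l ⟨16 * w + i, h⟩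
        else φ l 0) = κ w) ∧ w % (32 * r) ∉ tz hN hM (χ (κ w)) (RR m r f l)) ∧
      16 * (Xw r W b f l).card ≤ 16 * G.card + 16 * ((Hub r χ f l).card
        + ∑ k ∈ Hub r χ f l, (tz hN hM (χ k) (RR m r f l)).card) + W := by
    intro l
    refine path_good W (32 * r) r rfl hr (fun j => if h : j < d + 1 then φ l ⟨j, h⟩ else φ l 0)
      (fun j => ∃ h : j < d + 1, b ⟨j, h⟩ ∉ RR m r f l) (Hub r χ f l)
      (fun k => tz hN hM (χ k) (RR m r f l)) ?_ ?_ (hZ l) (Xw r W b f l)
      (Finset.filter_subset _ _) ?_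
    · rintro j j' ⟨h1, h2⟩ ⟨h3, h4⟩ hjj
      simp only [dif_pos h1, dif_pos h3]
      exact hφmono l _ _ h2 h4 hjj
    · rintro j ⟨h1, h2⟩
      simp only [dif_pos h1]
      exact hφH l _ h2
    · intro w hw i hi
      simp only [Xw, Finset.mem_filter] at hw
      exact hw.2 i hi
  choose κ G hκ hGX hG hcount using hgood
  -- the set of good pairs
  obtain ⟨E, hEmem, hEcard⟩ := exists_pairs W G (fun l w hw => by
    have h2 := hGX l hw
    rw [Xw, Finset.mem_filter, Finset.mem_range] at h2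
    exact h2.1)
  have hEbig : 39 * W < E.card := by
    have h1 := card_windows r W hWD b f
    have h2 := card_hubs r (by omega) χ f
    have h3 : ∑ l : Fin 80, 16 * (Xw r W b f l).card ≤ ∑ l : Fin 80, (16 * (G l).card
        + 16 * ((Hub r χ f l).card
        + ∑ k ∈ Hub r χ f l, (tz hN hM (χ k) (RR m r f l)).card) + W) :=
      Finset.sum_le_sum (fun l _ => hcount l)
    rw [Finset.sum_add_distrib, Finset.sum_add_distrib, ← Finset.mul_sum, ← Finset.mul_sum,
      ← Finset.mul_sum, Finset.sum_add_distrib, ← hEcard] at h3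
    simp only [Finset.sum_const, Finset.card_univ, Fintype.card_fin, smul_eq_mul] at h3
    omega
  -- contradiction with the table
  let v : ℕ → Bool := fun j => if h : j < d + 1 ∧ 16 * (j / 16) < d + 1 then
    decide (b ⟨j, h.1⟩ ≠ b ⟨16 * (j / 16), h.2⟩) else false
  have hfin := hρ κ E v (fun l w => ρ (κ l w) (16 * w)) hκ ?_ ?_
  · omega
  · intro l l' w h1 h2 h3
    rw [hEmem] at h1 h2
    have h4 := (hG l w h1).1
    have h5 := (hG l' w h2).1
    rw [← h3] at h5
    simp only [Hub, Finset.mem_filter, Finset.mem_univ, true_and] at h4 h5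
    exact RR_unique m r f l l' _ (h4 (hb' _)) (h5 (hb' _))
  · rintro ⟨l, w⟩ hx i hi
    rw [hEmem] at hx
    obtain ⟨h1, h2, h3⟩ := hG l w hx
    have h4 := hGX l hx
    simp only [Xw, Finset.mem_filter, Finset.mem_range] at h4
    obtain ⟨hwW, h4⟩ := h4
    -- the cluster is clean
    have h5 : Clean hN hM (χ (κ l w)) (RR m r f l) false ((w : ℕ) % (32 * r)) ∧
        Clean hN hM (χ (κ l w)) (RR m r f l) true ((w : ℕ) % (32 * r)) := by
      by_contra h6
      apply h3
      simp only [tz, Finset.mem_filter, Finset.mem_range]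
      exact ⟨Nat.mod_lt _ hN, h6⟩
    obtain ⟨cs, hcs, hcs2⟩ := window_lemma hN hM _ _ _ h5.1 h5.2
    have key : ∀ i (hi : i < 16) (hlt : 16 * (w : ℕ) + i < d + 1),
        b ⟨16 * (w : ℕ) + i, hlt⟩ = cs (ρ (κ l w) (16 * (w : ℕ) + i)) := by
      intro i hi hlt
      obtain ⟨h6, h7⟩ := h4 i hi
      have h8 := h2 i hi
      rw [dif_pos hlt] at h8
      have h9 := hφlev l _ h7
      rw [h8] at h9
      apply hcs2 _ _ h7
      intro a0 ha0 honce
      obtain ⟨a, ha, hl⟩ := h9 a0 ha0 honce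
      refine ⟨a, ha, ?_⟩
      have h10 : (16 * (w : ℕ) + i) / 16 = w := by omega
      simp only [lev, h10] at hl
      exact hl
    have hlt : 16 * (w : ℕ) + i < d + 1 := (h4 i hi).1
    have hlt0 : 16 * (w : ℕ) + 0 < d + 1 := (h4 0 (by norm_num)).1
    have k1 := key i hi hlt
    have k0 := key 0 (by norm_num) hlt0
    simp only [add_zero] at k0 hlt0
    have hdiv : 16 * ((16 * (w : ℕ) + i) / 16) = 16 * (w : ℕ) := by omega
    have hv : v (16 * (w : ℕ) + i) = decide (b ⟨16 * (w : ℕ) + i, hlt⟩ ≠ b ⟨16 * (w : ℕ), hlt0⟩) := by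
      simp only [v]
      have h6 : 16 * (w : ℕ) + i < d + 1 ∧ 16 * ((16 * (w : ℕ) + i) / 16) < d + 1 := ⟨hlt, by omega⟩
      rw [dif_pos h6]
      simp only [hdiv]
    simp only
    rw [hv, k1, k0]
    cases h6 : ρ (κ l w) (16 * (w : ℕ) + i) <;> cases h7 : ρ (κ l w) (16 * (w : ℕ)) <;>
      simp [hcs, hcs.symm]

end Pool.Agent.MP_59bbdb_co.Lin
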