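import Mathlib
import Pool.Agent.MP_59bbdb_co.Geom

set_option autoImplicit false

namespace Pool.Agent.MP_59bbdb_co

open Finset Filter Topology

variable {d M m : ℕ} (own : Fin (d + 1) → Fin (d + 1) → Fin M) (T S : ℝ)
  (c : Fin (d + 1) × Fin M → Fin m) (I : Finset (Fin m))

lemma sum_fst (f : Fin (d + 1) × Fin M → ℝ) (k : Fin (d + 1)) :
    ∑ q : Fin (d + 1) × Fin M, (if q.1 = k then f q else 0) = ∑ a, f (k, a) := by
  rw [Fintype.sum_prod_type]
  rw [Finset.sum_eq_single k]
  · simp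
  · intro i _ hi
    simp [hi]
  · simp

lemma sum_not_fst (f : Fin (d + 1) × Fin M → ℝ) (k : Fin (d + 1)) :
    ∑ q : Fin (d + 1) × Fin M, (if q.1 = k then 0 else f q)
      = ∑ i ∈ univ.erase k, ∑ a, f (i, a) := by
  rw [Fintype.sum_prod_type, ← Finset.add_sum_erase _ _ (Finset.mem_univ k)]
  simp only [if_true, Finset.sum_const_zero, zero_add]
  apply Finset.sum_congr rfl
  intro i hi
  apply Finset.sum_congr rfl
  intro a _
  rw [if_neg (Finset.ne_of_mem_erase hi)]

/-- The combinatorial content of the limit condition. -/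
theorem trop (hS : S = d + 2) (hT : S ^ 2 < T) (hL : Lim own T S c I)
    (J : Finset (Fin (d + 1))) (β : Fin (d + 1) → Fin m)
    (hβ : ∀ j ∈ J, β j ∈ I ∧ ∀ q : Fin (d + 1) × Fin M, q.1 = j → c q ≠ β j) :
    ∃ φ : Fin (d + 1) → Fin (d + 1), (∀ j ∈ J, ∀ A ∈ I, ∃ a, c (φ j, a) = A) ∧
      (∀ j ∈ J, c (φ j, own (φ j) j) ∈ I →
        (∀ a', a' ≠ own (φ j) j → c (φ j, a') ≠ c (φ j, own (φ j) j)) →
        c (φ j, own (φ j) j) = β j) ∧
      (∀ j ∈ J, ∀ j' ∈ J, j ≤ j' → φ j ≤ φ j') := by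
  classical
  rcases J.eq_empty_or_nonempty with hJ | ⟨j0, hj0⟩
  · subst hJ
    exact ⟨id, by simp, by simp, by simp⟩
  obtain ⟨w, hw, hmass, hstar⟩ := hL
  have hS1 : 1 ≤ S := by rw [hS]; have : (0 : ℝ) ≤ d := Nat.cast_nonneg d; linarith
  have hS0 : 0 < S := by linarith
  have hT1 : 1 < T := by nlinarith
  have hT0 : 0 < T := by linarith
  have hA0 := (hβ j0 hj0).1
  set lam : Fin (d + 1) → ℝ := fun k => ∑ a, w (β j0) (k, a) with hlam
  have hmassA : ∀ A ∈ I, ∀ k, ∑ a, w A (k, a) = lam k := by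
    intro A hA k
    have h := hmass A hA _ hA0 k
    rw [sum_fst, sum_fst] at h
    exact h
  have hlam0 : ∀ k, 0 ≤ lam k := fun k => Finset.sum_nonneg (fun a _ => (hw _ hA0).1 _)
  have hlamsum : ∑ k, lam k = 1 := by
    rw [← (hw _ hA0).2.1, Fintype.sum_prod_type]
  have hlamj : ∀ j ∈ J, lam j = 0 := by
    intro j hj
    rw [← hmassA _ (hβ j hj).1 j]
    apply Finset.sum_eq_zero
    intro a _
    exact (hw _ (hβ j hj).1).2.2 _ (fun h => (hβ j hj).2 (j, a) rfl h)
  have hdl1 : ∀ (k : Fin (d + 1)) (a : Fin M) (j : Fin (d + 1)), T ^ ((k : ℕ) * (j : ℕ)) ≤ dl own T S (k, a) j := by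
    intro k a j
    have h0 : 0 < T ^ ((k : ℕ) * (j : ℕ)) := pow_pos hT0 _
    unfold dl
    split_ifs
    · simp only
      nlinarith
    · simp
  have hdl2 : ∀ (k : Fin (d + 1)) (a : Fin M) (j : Fin (d + 1)), dl own T S (k, a) j ≤ T ^ ((k : ℕ) * (j : ℕ)) * S := by
    intro k a j
    have h0 : 0 < T ^ ((k : ℕ) * (j : ℕ)) := pow_pos hT0 _
    unfold dl
    split_ifs
    · simp
    · simp only
      nlinarith
  let v : Fin (d + 1) → Fin (d + 1) → ℝ := fun j k => ∑ a, w (β j) (k, a) * dl own T S (k, a) j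
  have hv1 : ∀ j ∈ J, ∀ k, lam k * T ^ ((k : ℕ) * (j : ℕ)) ≤ v j k := by
    intro j hj k
    rw [← hmassA _ (hβ j hj).1 k, Finset.sum_mul]
    exact Finset.sum_le_sum (fun a _ =>
      mul_le_mul_of_nonneg_left (hdl1 k a j) ((hw _ (hβ j hj).1).1 _))
  have hv2 : ∀ j ∈ J, ∀ k, v j k ≤ lam k * (T ^ ((k : ℕ) * (j : ℕ)) * S) := by
    intro j hj k
    rw [← hmassA _ (hβ j hj).1 k, Finset.sum_mul]
    exact Finset.sum_le_sum (fun a _ =>
      mul_le_mul_of_nonneg_left (hdl2 k a j) ((hw _ (hβ j hj).1).1 _))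
  have hmax : ∀ j, ∃ i, ∀ k, v j k ≤ v j i := fun j => Finite.exists_max (v j)
  choose φ hφ using hmax
  have hnear : ∀ j ∈ J, ∀ k, lam k * T ^ ((k : ℕ) * (j : ℕ))
      ≤ lam (φ j) * (T ^ ((φ j : ℕ) * (j : ℕ)) * S) :=
    fun j hj k => (hv1 j hj k).trans ((hφ j k).trans (hv2 j hj (φ j)))
  have hlampos : ∀ j ∈ J, 0 < lam (φ j) := by
    intro j hj
    by_contra hcon
    have h0 : lam (φ j) = 0 := le_antisymm (not_lt.mp hcon) (hlam0 _)
    have h1 : ∀ k, lam k = 0 := by
      intro k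
      have h2 := hnear j hj k
      rw [h0, zero_mul] at h2
      have h3 : 0 < T ^ ((k : ℕ) * (j : ℕ)) := pow_pos hT0 _
      have h4 := hlam0 k
      by_contra h5
      have h6 : 0 < lam k := lt_of_le_of_ne h4 (Ne.symm h5)
      have := mul_pos h6 h3
      linarith
    have : ∑ k, lam k = 0 := Finset.sum_eq_zero (fun k _ => h1 k)
    rw [hlamsum] at this
    exact one_ne_zero this
  refine ⟨φ, ?_, ?_, ?_⟩
  · intro j hj A hA
    have h1 : 0 < ∑ a, w A (φ j, a) := by rw [hmassA A hA]; exact hlampos j hj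
    obtain ⟨a, -, ha⟩ := Finset.exists_ne_zero_of_sum_ne_zero h1.ne'
    exact ⟨a, by
      by_contra h
      exact ha ((hw A hA).2.2 _ h)⟩
  · intro j hj hAI hsing
    set i := φ j with hi
    set A := c (i, own i j) with hA
    by_contra hne
    have hij : i ≠ j := by
      intro h
      have h1 := hlampos j hj
      rw [← hi, h, hlamj j hj] at h1
      exact lt_irrefl _ h1
    -- the value of `B = β j`
    have hB : v j i = lam i * T ^ ((i : ℕ) * (j : ℕ)) := by
      rw [← hmassA _ (hβ j hj).1 i, Finset.sum_mul]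
      apply Finset.sum_congr rfl
      intro a _
      by_cases ha : a = own i j
      · have : w (β j) (i, a) = 0 := (hw _ (hβ j hj).1).2.2 _ (by
          rw [ha]
          exact hne)
        rw [this]
        ring
      · simp [dl, ha]
    have hsumB : ∑ q : Fin (d + 1) × Fin M, (if q.1 = j then 0 else w (β j) q * dl own T S q j)
        ≤ ((d : ℝ) + 1) * (lam i * T ^ ((i : ℕ) * (j : ℕ))) := by
      rw [sum_not_fst (fun q => w (β j) q * dl own T S q j)]
      calc ∑ k ∈ univ.erase j, v j k ≤ ∑ k ∈ univ.erase j, v j i :=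
            Finset.sum_le_sum (fun k _ => hφ j k)
        _ ≤ ∑ k : Fin (d + 1), v j i := by
            apply Finset.sum_le_sum_of_subset_of_nonneg (Finset.erase_subset _ _)
            intro k _ _
            rw [hB]
            exact mul_nonneg (hlam0 i) (pow_nonneg hT0.le _)
        _ = ((d : ℝ) + 1) * (lam i * T ^ ((i : ℕ) * (j : ℕ))) := by
            rw [hB]
            simp
    have hwA : w A (i, own i j) = lam i := by
      rw [← hmassA A hAI i]
      symm
      apply Finset.sum_eq_single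
      · intro a _ ha
        exact (hw A hAI).2.2 _ (hsing a ha)
      · simp
    have hsumA : lam i * (T ^ ((i : ℕ) * (j : ℕ)) * S)
        ≤ ∑ q : Fin (d + 1) × Fin M, (if q.1 = j then 0 else w A q * dl own T S q j) := by
      have h1 : (if ((i, own i j) : Fin (d + 1) × Fin M).1 = j then 0
          else w A (i, own i j) * dl own T S (i, own i j) j)
          = lam i * (T ^ ((i : ℕ) * (j : ℕ)) * S) := by
        rw [if_neg hij, hwA]
        simp [dl]
      rw [← h1]
      refine Finset.single_le_sum (f := fun q : Fin (d + 1) × Fin M =>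
        if q.1 = j then 0 else w A q * dl own T S q j) (fun q _ => ?_) (Finset.mem_univ _)
      split_ifs
      · exact le_refl _
      · exact mul_nonneg ((hw A hAI).1 q)
          ((pow_nonneg hT0.le _).trans (hdl1 q.1 q.2 j))
    have h3 := hstar j (β j) (hβ j hj).1 (hβ j hj).2 A hAI
    have h4 : lam i * (T ^ ((i : ℕ) * (j : ℕ)) * S)
        ≤ ((d : ℝ) + 1) * (lam i * T ^ ((i : ℕ) * (j : ℕ))) := hsumA.trans (h3.trans hsumB)
    have h5 : 0 < lam i * T ^ ((i : ℕ) * (j : ℕ)) :=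
      mul_pos (hlampos j hj) (pow_pos hT0 _)
    rw [hS] at h4
    nlinarith
  · intro j hj j' hj' hjj
    by_contra hcon
    push Not at hcon
    have hlt : j < j' := by
      rcases lt_or_eq_of_le hjj with h | h
      · exact h
      · subst h
        exact absurd hcon (lt_irrefl _)
    have h1 := hnear j hj (φ j')
    have h2 := hnear j' hj' (φ j)
    have hp1 := hlampos j hj
    have hp2 := hlampos j' hj'
    have hlt' : (j : ℕ) < (j' : ℕ) := hlt
    have hcon' : (φ j' : ℕ) < (φ j : ℕ) := hcon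
    set x : ℕ := (φ j : ℕ)
    set x' : ℕ := (φ j' : ℕ)
    set a : ℕ := (j : ℕ)
    set a' : ℕ := (j' : ℕ)
    have h3 : (lam (φ j') * T ^ (x' * a)) * (lam (φ j) * T ^ (x * a'))
        ≤ (lam (φ j) * (T ^ (x * a) * S)) * (lam (φ j') * (T ^ (x' * a') * S)) := by
      apply mul_le_mul h1 h2
      · exact mul_nonneg hp1.le (pow_nonneg hT0.le _)
      · exact mul_nonneg hp1.le (mul_nonneg (pow_nonneg hT0.le _) hS0.le)
    have h4 : T ^ (x' * a + x * a') ≤ T ^ (x * a + x' * a') * S ^ 2 := by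
      have h5 : 0 < lam (φ j) * lam (φ j') := mul_pos hp1 hp2
      have h6 : (lam (φ j) * lam (φ j')) * T ^ (x' * a + x * a')
          ≤ (lam (φ j) * lam (φ j')) * (T ^ (x * a + x' * a') * S ^ 2) := by
        rw [pow_add, pow_add]
        calc _ = (lam (φ j') * T ^ (x' * a)) * (lam (φ j) * T ^ (x * a')) := by ring
          _ ≤ _ := h3
          _ = _ := by ring
      exact le_of_mul_le_mul_left h6 h5
    have hexp : x * a + x' * a' + 1 ≤ x' * a + x * a' := by
      obtain ⟨s, hs⟩ := Nat.exists_eq_add_of_lt hlt'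
      obtain ⟨t, ht⟩ := Nat.exists_eq_add_of_lt hcon'
      rw [hs, ht]
      nlinarith
    have h7 : T ^ (x * a + x' * a' + 1) ≤ T ^ (x' * a + x * a') :=
      pow_le_pow_right₀ hT1.le hexp
    have h8 : 0 < T ^ (x * a + x' * a') := pow_pos hT0 _
    rw [pow_succ] at h7
    nlinarith

end Pool.Agent.MP_59bbdb_co
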