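import Mathlib
import Pool.Agent.MP_59bbdb_co.Count
import Pool.Agent.MP_59bbdb_co.Trop
import Pool.Agent.MP_59bbdb_co.Assemble

set_option autoImplicit false

namespace Pool.Agent.MP_59bbdb_co

open Finset

/-- If every colour of `I` is used, few points have a colour outside `I` or a repeated colour. -/
lemma card_nonsingle_le {M m n : ℕ} (f : Fin M → Fin m) (I : Finset (Fin m)) (hI : I.card = n)
    (hsurj : ∀ A ∈ I, ∃ a, f a = A) :
    (univ.filter (fun a : Fin M => f a ∉ I ∨ ∃ a', a' ≠ a ∧ f a' = f a)).card + 2 * n
      ≤ 2 * M := by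
  classical
  set NS := univ.filter (fun a : Fin M => f a ∉ I ∨ ∃ a', a' ≠ a ∧ f a' = f a) with hNS
  set Sg := univ.filter (fun a : Fin M => f a ∈ I ∧ ∀ a', a' ≠ a → f a' ≠ f a) with hSg
  have hcompl : NS.card + Sg.card = M := by
    have h1 : Sg = univ.filter (fun a : Fin M => ¬ (f a ∉ I ∨ ∃ a', a' ≠ a ∧ f a' = f a)) := by
      ext a
      simp only [hSg, Finset.mem_filter, Finset.mem_univ, true_and]
      push Not
      rfl
    rw [h1, hNS, Finset.card_filter_add_card_filter_not]
    simp
  set I1 := Sg.image f with hI1
  have hI1c : I1.card = Sg.card := by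
    apply Finset.card_image_of_injOn
    intro a ha b hb hab
    rw [Finset.mem_coe, hSg, Finset.mem_filter] at ha
    by_contra hne
    exact ha.2.2 b (Ne.symm hne) hab.symm
  have hI1s : I1 ⊆ I := by
    intro A hA
    rw [hI1, Finset.mem_image] at hA
    obtain ⟨a, ha, rfl⟩ := hA
    rw [hSg, Finset.mem_filter] at ha
    exact ha.2.1
  have hI2 : (I \ I1).card + Sg.card = n := by
    have := Finset.card_sdiff_add_card_eq_card hI1s
    rw [hI1c, hI] at this
    exact this
  have h2 : 2 * (I \ I1).card ≤ NS.card := by
    have hsub : (I \ I1).biUnion (fun A => univ.filter (fun a => f a = A)) ⊆ NS := by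
      intro a ha
      rw [Finset.mem_biUnion] at ha
      obtain ⟨A, hA, ha⟩ := ha
      simp only [Finset.mem_filter, Finset.mem_univ, true_and] at ha
      subst ha
      rw [Finset.mem_sdiff] at hA
      by_contra hcon
      have : a ∈ Sg := by
        rw [hNS, Finset.mem_filter] at hcon
        rw [hSg, Finset.mem_filter]
        refine ⟨Finset.mem_univ _, hA.1, ?_⟩
        intro a' ha' h
        exact hcon ⟨Finset.mem_univ _, Or.inr ⟨a', ha', h⟩⟩
      exact hA.2 (Finset.mem_image_of_mem f this)
    have hdisj : Set.PairwiseDisjoint ((I \ I1 : Finset (Fin m)) : Set (Fin m))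
        (fun A => univ.filter (fun a => f a = A)) := by
      intro A _ B _ hAB
      rw [Function.onFun, Finset.disjoint_left]
      intro a ha hb
      simp only [Finset.mem_filter, Finset.mem_univ, true_and] at ha hb
      exact hAB (ha.symm.trans hb)
    calc 2 * (I \ I1).card = ∑ _A ∈ I \ I1, 2 := by simp [mul_comm]
      _ ≤ ∑ A ∈ I \ I1, (univ.filter (fun a => f a = A)).card := by
          apply Finset.sum_le_sum
          intro A hA
          rw [Finset.mem_sdiff] at hA
          obtain ⟨a, ha⟩ := hsurj A hA.1
          by_contra hcon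
          have hone : (univ.filter (fun a => f a = A)).card ≤ 1 := by omega
          rw [Finset.card_le_one] at hone
          apply hA.2
          rw [hI1, Finset.mem_image]
          refine ⟨a, ?_, ha⟩
          rw [hSg, Finset.mem_filter]
          refine ⟨Finset.mem_univ _, by rw [ha]; exact hA.1, ?_⟩
          intro a' ha' h
          exact ha' (hone a' (by simp [h, ha]) a (by simp [ha]))
      _ = ((I \ I1).biUnion (fun A => univ.filter (fun a => f a = A))).card := by
          rw [Finset.card_biUnion hdisj]
      _ ≤ NS.card := Finset.card_le_card hsub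
  omega

/-- The number of colours outside the `l`-th class. -/
lemma card_class_compl {n r l : ℕ} (hr : 1 ≤ r) (hl : (l + 1) * r ≤ n + r) :
    (univ.filter (fun x : Fin (n + r) => (x : ℕ) / r ≠ l)).card = n := by
  classical
  have h1 : (univ.filter (fun x : Fin (n + r) => (x : ℕ) / r = l)).card = r := by
    have : (univ.filter (fun x : Fin (n + r) => (x : ℕ) / r = l)).map Fin.valEmbedding
        = Finset.Ico (l * r) ((l + 1) * r) := by
      ext x
      simp only [Finset.mem_map, Finset.mem_filter, Finset.mem_univ, true_and,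
        Fin.valEmbedding_apply, Finset.mem_Ico]
      constructor
      · rintro ⟨y, hy, rfl⟩
        rw [Nat.div_eq_iff (by omega)] at hy
        have h3 : (l + 1) * r = l * r + r := by ring
        obtain ⟨h4, h5⟩ := hy
        constructor <;> omega
      · rintro ⟨h1, h2⟩
        refine ⟨⟨x, by omega⟩, ?_, rfl⟩
        simp only
        rw [Nat.div_eq_iff (by omega)]
        have h3 : (l + 1) * r = l * r + r := by ring
        constructor <;> omega
    rw [← Finset.card_map Fin.valEmbedding, this, Nat.card_Ico]
    have : (l + 1) * r = l * r + r := by ring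
    omega
  have h2 := Finset.card_filter_add_card_filter_not (s := (univ : Finset (Fin (n + r))))
    (fun x : Fin (n + r) => (x : ℕ) / r = l)
  rw [h1, Finset.card_univ, Fintype.card_fin] at h2
  have h3 : (univ.filter (fun x : Fin (n + r) => (x : ℕ) / r ≠ l)).card
      = (univ.filter (fun x : Fin (n + r) => ¬ (x : ℕ) / r = l)).card := rfl
  omega

/-- From a table admitting no word to a point configuration. -/
theorem config_of_table (d n r s u L : ℕ) (hd : 1 ≤ d) (hr : 1 ≤ r) (hs : s ≤ n + r - 1)
    (hn : 1 ≤ n)
    (hu : 2 * (r - 1) ≤ u) (hL : L * r ≤ n + r)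
    (H : Fin (d + 1) → Fin (d + 1) → Fin s)
    (hH : ∀ χ : Fin (d + 1) → Fin (n + r), ¬ Admits (n + r) r s u L χ H) :
    ∃ X : Finset (EuclideanSpace ℝ (Fin d)), X.card = (n + r - 1) * (d + 1) ∧
      ∀ f : EuclideanSpace ℝ (Fin d) → Fin (n + r), ∃ I : Finset (Fin (n + r)), I.card = n ∧
        (⋂ i ∈ I, convexHull ℝ {x : EuclideanSpace ℝ (Fin d) | x ∈ X ∧ f x = i}) = ∅ := by
  classical
  let own : Fin (d + 1) → Fin (d + 1) → Fin (n + r - 1) := fun i j => Fin.castLE hs (H i j)
  let S : ℝ := d + 2
  let T : ℝ := S ^ 2 + 1
  refine exists_config own T S hd n ?_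
  intro c
  by_contra hcon
  push Not at hcon
  have hmiss : ∀ i : Fin (d + 1), ∃ x : Fin (n + r), ∀ a, c (i, a) ≠ x := by
    intro i
    by_contra hall
    push Not at hall
    have hsurj : Function.Surjective (fun a => c (i, a)) := hall
    have := Fintype.card_le_of_surjective _ hsurj
    simp only [Fintype.card_fin] at this
    omega
  choose χ hχ using hmiss
  apply hH χ
  intro l
  let I : Finset (Fin (n + r)) := univ.filter (fun x : Fin (n + r) => (x : ℕ) / r ≠ (l : ℕ))
  have hIc : I.card = n := card_class_compl hr (by
    have : (l : ℕ) + 1 ≤ L := l.2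
    calc ((l : ℕ) + 1) * r ≤ L * r := Nat.mul_le_mul_right _ this
      _ ≤ n + r := hL)
  obtain ⟨φ, h1, h2, h3⟩ := trop own T S c I rfl (by simp only [T]; linarith) (hcon I hIc)
    (univ.filter (fun j => (χ j : ℕ) / r ≠ (l : ℕ))) χ (by
      intro j hj
      simp only [Finset.mem_filter, Finset.mem_univ, true_and] at hj
      refine ⟨by simp only [I, Finset.mem_filter, Finset.mem_univ, true_and]; exact hj, ?_⟩
      rintro ⟨i, a⟩ hi
      simp only at hi
      subst hi
      exact hχ i a)
  simp only [Finset.mem_filter, Finset.mem_univ, true_and] at h1 h2 h3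
  refine ⟨φ, ?_, fun j j' hj hj' hjj => h3 j hj j' hj' hjj, ?_⟩
  · intro j hj
    by_contra hne
    obtain ⟨a, ha⟩ := h1 j hj (χ (φ j)) (by
      simp only [I, Finset.mem_filter, Finset.mem_univ, true_and]; exact hne)
    exact hχ _ a ha
  · intro i
    rcases (univ.filter (fun j => (χ j : ℕ) / r ≠ (l : ℕ) ∧ φ j = i)).eq_empty_or_nonempty
      with hemp | ⟨j0, hj0⟩
    · rw [hemp]
      exact Mt_empty (by omega) χ (H i)
    · simp only [Finset.mem_filter, Finset.mem_univ, true_and] at hj0
      have hall : ∀ A ∈ I, ∃ a, c (i, a) = A := by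
        have := h1 j0 hj0.1
        rw [hj0.2] at this
        exact this
      let NS : Finset (Fin s) := univ.filter (fun a : Fin s =>
        c (i, Fin.castLE hs a) ∉ I ∨ ∃ a', a' ≠ Fin.castLE hs a ∧
          c (i, a') = c (i, Fin.castLE hs a))
      refine ⟨NS, ?_, fun a => c (i, Fin.castLE hs a), ?_, ?_⟩
      · have h4 := card_nonsingle_le (fun a => c (i, a)) I hIc hall
        have h5 : NS.card ≤ (univ.filter (fun a : Fin (n + r - 1) =>
            c (i, a) ∉ I ∨ ∃ a', a' ≠ a ∧ c (i, a') = c (i, a))).card := by
          apply Finset.card_le_card_of_injOn (Fin.castLE hs)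
          · intro a ha
            simp only [NS, Finset.coe_filter, Finset.mem_univ, true_and] at ha ⊢
            exact ha
          · intro a _ b _ hab
            exact Fin.castLE_injective hs hab
        omega
      · intro a ha a' ha' hcc
        by_contra hne
        apply ha
        simp only [NS, Finset.mem_filter, Finset.mem_univ, true_and]
        right
        exact ⟨Fin.castLE hs a', fun h => hne (Fin.castLE_injective hs h).symm, hcc.symm⟩
      · intro j hj
        simp only [Finset.mem_filter, Finset.mem_univ, true_and] at hj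
        by_cases hns : H i j ∈ NS
        · exact Or.inl hns
        · right
          simp only [NS, Finset.mem_filter, Finset.mem_univ, true_and] at hns
          push Not at hns
          have h4 := h2 j hj.1
          rw [hj.2] at h4
          exact h4 hns.1 (fun a' ha' => hns.2 a' ha')

end Pool.Agent.MP_59bbdb_co
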