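import Mathlib
import Pool.Agent.MP_59bbdb_co.Main

set_option autoImplicit false

namespace Pool.Agent.MP_59bbdb_co

open Finset

/-- Bound for the probability that a block of length `t` can be taken, four owners. -/
noncomputable def pA (t : ℕ) : ℝ :=
  if t ≤ 1 then 1 else if t = 2 then 3 / 4 else 24 / 4 ^ t

lemma pA_nonneg (t : ℕ) : 0 ≤ pA t := by
  unfold pA
  split_ifs <;> positivity

lemma sum_pA (N : ℕ) : ∑ t ∈ range (N + 2), (3 - 1) * (3 : ℝ) ^ t * pA (t + 1)
    = 67 / 2 - 48 * (3 / 4) ^ (N + 2) := by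
  induction N with
  | zero =>
    rw [Finset.sum_range_succ, Finset.sum_range_succ]
    norm_num [pA]
  | succ N ih =>
    rw [Finset.sum_range_succ, ih]
    have : pA (N + 2 + 1) = 24 / 4 ^ (N + 3) := by
      unfold pA
      rw [if_neg (by omega), if_neg (by omega)]
    rw [this, div_pow, div_pow]
    field_simp
    ring

lemma sum_pA_le (N : ℕ) : 1 + ∑ t ∈ range N, (3 - 1) * (3 : ℝ) ^ t * pA (t + 1) ≤ 69 / 2 := by
  have h1 : ∑ t ∈ range N, (3 - 1) * (3 : ℝ) ^ t * pA (t + 1)
      ≤ ∑ t ∈ range (N + 2), (3 - 1) * (3 : ℝ) ^ t * pA (t + 1) := by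
    apply Finset.sum_le_sum_of_subset_of_nonneg
    · intro t ht
      rw [Finset.mem_range] at ht ⊢
      omega
    · intro t _ _
      exact mul_nonneg (by positivity) (pA_nonneg _)
  rw [sum_pA] at h1
  have h2 : (0 : ℝ) ≤ 48 * (3 / 4) ^ (N + 2) := by positivity
  linarith

lemma four_descFactorial (q : ℕ) : Nat.descFactorial 4 q ≤ 24 := by
  rcases Nat.lt_or_ge q 5 with h | h
  · interval_cases q <;> decide
  · rw [Nat.descFactorial_of_lt (by omega)]
    omega

lemma hp_A {m N : ℕ} (χ : Fin N → Fin m) (P : Finset (Fin N)) (S : Finset (Fin N → Fin 4))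
    (hS : ∀ h ∈ S, Mt m 4 0 χ h P) : (S.card : ℝ) ≤ pA P.card * ((4 : ℕ) : ℝ) ^ N := by
  classical
  have h1 := card_Mt_zero χ P S hS
  have hPN : P.card ≤ N := by
    simpa using Finset.card_le_univ P
  have hq : (P.image χ).card ≤ P.card := Finset.card_image_le
  have h4 : (4 : ℝ) ^ N = 4 ^ P.card * 4 ^ (N - P.card) := by
    rw [← pow_add]
    congr 1
    omega
  have h1' : (S.card : ℝ) ≤ (Nat.descFactorial 4 (P.image χ).card : ℝ) * 4 ^ (N - P.card) := by
    exact_mod_cast h1
  push_cast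
  rw [h4]
  have hpos : (0 : ℝ) < 4 ^ (N - P.card) := by positivity
  refine h1'.trans ?_
  rw [← mul_assoc]
  refine mul_le_mul_of_nonneg_right ?_ hpos.le
  unfold pA
  split_ifs with h5 h6
  · -- at most one column
    rcases Nat.eq_zero_or_pos P.card with h7 | h7
    · have : (P.image χ).card = 0 := by omega
      rw [this, h7]
      norm_num
    · have h8 : P.card = 1 := by omega
      rw [h8]
      have h9 : (P.image χ).card ≤ 1 := by omega
      generalize (P.image χ).card = q at h9
      interval_cases q <;> norm_num [Nat.descFactorial]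
  · rw [h6]
    have h9 : (P.image χ).card ≤ 2 := by omega
    generalize (P.image χ).card = q at h9
    interval_cases q <;> norm_num [Nat.descFactorial]
  · have h10 := four_descFactorial (P.image χ).card
    rw [div_mul_cancel₀ _ (by positivity)]
    exact_mod_cast h10

lemma five_le_pow (n : ℕ) (hn : 5 ≤ n) : ((n + 1 : ℕ) : ℝ) * (69 / 2) < 3 ^ (n + 1 - 1) := by
  rw [Nat.add_sub_cancel]
  induction n, hn using Nat.le_induction with
  | base => norm_num
  | succ n hn ih =>
    push_cast at ih ⊢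
    rw [pow_succ]
    have : (5 : ℝ) ≤ n := by exact_mod_cast hn
    nlinarith

theorem configA (d n : ℕ) (hd : 1 ≤ d) (hn : 5 ≤ n) :
    ∃ X : Finset (EuclideanSpace ℝ (Fin d)), X.card = n * (d + 1) ∧
      ∀ f : EuclideanSpace ℝ (Fin d) → Fin (n + 1), ∃ I : Finset (Fin (n + 1)), I.card = n ∧
        (⋂ i ∈ I, convexHull ℝ {x : EuclideanSpace ℝ (Fin d) | x ∈ X ∧ f x = i}) = ∅ := by
  obtain ⟨H, hH⟩ := exists_table (n + 1) 1 4 0 (n + 1) (d + 1) (by omega) (by norm_num)
    (by omega) 3 (by norm_num) pA pA_nonneg (fun χ P S hS => hp_A χ P S hS) (69 / 2)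
    (sum_pA_le _) (five_le_pow n hn)
  exact config_of_table d n 1 4 0 (n + 1) hd le_rfl (by omega) (by omega) (by omega) (by omega)
    H hH

end Pool.Agent.MP_59bbdb_co
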