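import Mathlib
import Pool.Agent.MP_59bbdb_co.Main

set_option autoImplicit false

namespace Pool.Agent.MP_59bbdb_co

open Finset

/-- Bound for the probability that a block of length `t` can be taken. -/
noncomputable def pB (m s t : ℕ) : ℝ := min 1 ((2 * m : ℝ) ^ s / 8 ^ t)

lemma pB_nonneg (m s t : ℕ) : 0 ≤ pB m s t := by
  unfold pB
  positivity

lemma hp_B {m r s N : ℕ} (hr : 1 ≤ r) (hs : s = 8 * (2 * r - 1)) (χ : Fin N → Fin m)
    (P : Finset (Fin N)) (S : Finset (Fin N → Fin s))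
    (hS : ∀ h ∈ S, Mt m s (2 * (r - 1)) χ h P) :
    (S.card : ℝ) ≤ pB m s P.card * (s : ℝ) ^ N := by
  classical
  have hPN : P.card ≤ N := by simpa using Finset.card_le_univ P
  unfold pB
  rw [min_mul_of_nonneg _ _ (by positivity), le_min_iff]
  constructor
  · have h1 : S.card ≤ Fintype.card (Fin N → Fin s) := Finset.card_le_univ S
    rw [Fintype.card_fun, Fintype.card_fin, Fintype.card_fin] at h1
    rw [one_mul]
    exact_mod_cast h1
  · have h1 := card_Mt χ P S hS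
    have h2 : (S.card : ℝ) ≤ (2 * m : ℝ) ^ s *
        ((((2 * (r - 1) + 1 : ℕ) : ℝ)) ^ P.card * (s : ℝ) ^ (N - P.card)) := by
      exact_mod_cast h1
    refine h2.trans (le_of_eq ?_)
    have h3 : 2 * (r - 1) + 1 = 2 * r - 1 := by omega
    rw [h3]
    have h4 : (s : ℝ) ^ N = (s : ℝ) ^ P.card * (s : ℝ) ^ (N - P.card) := by
      rw [← pow_add]
      congr 1
      omega
    rw [h4]
    have h5 : (s : ℝ) ^ P.card = 8 ^ P.card * ((2 * r - 1 : ℕ) : ℝ) ^ P.card := by
      rw [← mul_pow]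
      congr 1
      rw [hs]
      push_cast
      ring
    rw [h5]
    field_simp

lemma sum_pB_le (m s t0 N : ℕ) (ht0 : (2 * m : ℝ) ^ s ≤ 2 ^ t0) :
    1 + ∑ t ∈ range N, (2 - 1) * (2 : ℝ) ^ t * pB m s (t + 1) ≤ 2 ^ (t0 + 1) := by
  have hF : ∀ t, (2 - 1) * (2 : ℝ) ^ t * pB m s (t + 1)
      ≤ (if t < t0 then (2 : ℝ) ^ t else 0) + (1 / 2) ^ (t + 1) := by
    intro t
    have h2 : (0 : ℝ) < 2 ^ t := by positivity
    split_ifs with h
    · have h1 : pB m s (t + 1) ≤ 1 := min_le_left _ _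
      have h3 : (0 : ℝ) ≤ (1 / 2) ^ (t + 1) := by positivity
      nlinarith
    · have h1 : pB m s (t + 1) ≤ (2 * m : ℝ) ^ s / 8 ^ (t + 1) := min_le_right _ _
      have h3 : (2 : ℝ) ^ t0 ≤ 2 ^ t := pow_le_pow_right₀ (by norm_num) (by omega)
      rw [zero_add]
      calc (2 - 1) * (2 : ℝ) ^ t * pB m s (t + 1)
          ≤ (2 - 1) * (2 : ℝ) ^ t * ((2 * m : ℝ) ^ s / 8 ^ (t + 1)) := by gcongr
        _ ≤ (2 - 1) * (2 : ℝ) ^ t * (2 ^ t / 8 ^ (t + 1)) := by
            gcongr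
            exact ht0.trans h3
        _ = (1 / 8) * (1 / 2) ^ t := by
            rw [pow_succ, show (8 : ℝ) ^ t = 2 ^ t * 2 ^ t * 2 ^ t by
              rw [← mul_pow, ← mul_pow]; norm_num, one_div_pow]
            field_simp
            norm_num
        _ ≤ (1 / 2) ^ (t + 1) := by
            rw [pow_succ]
            have : (0 : ℝ) < (1 / 2) ^ t := by positivity
            nlinarith
  have h1 : ∑ t ∈ range N, (2 - 1) * (2 : ℝ) ^ t * pB m s (t + 1)
      ≤ ∑ t ∈ range N, (if t < t0 then (2 : ℝ) ^ t else 0) + ∑ t ∈ range N, (1 / 2 : ℝ) ^ (t + 1) := by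
    rw [← Finset.sum_add_distrib]
    exact Finset.sum_le_sum (fun t _ => hF t)
  have h2 : ∑ t ∈ range N, (if t < t0 then (2 : ℝ) ^ t else 0) ≤ 2 ^ t0 - 1 := by
    rw [← Finset.sum_filter]
    have h3 : ∑ t ∈ range t0, (2 : ℝ) ^ t = 2 ^ t0 - 1 := by
      rw [geom_sum_eq (by norm_num)]
      norm_num
    rw [← h3]
    apply Finset.sum_le_sum_of_subset_of_nonneg
    · intro t ht
      rw [Finset.mem_filter] at ht
      exact Finset.mem_range.mpr ht.2
    · intro t _ _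
      positivity
  have h3 : ∑ t ∈ range N, (1 / 2 : ℝ) ^ (t + 1) ≤ 1 := by
    have h4 : ∀ N : ℕ, ∑ t ∈ range N, (1 / 2 : ℝ) ^ (t + 1) = 1 - (1 / 2) ^ N := by
      intro N
      induction N with
      | zero => simp
      | succ N ih =>
        rw [Finset.sum_range_succ, ih, pow_succ]
        ring
    rw [h4]
    have : (0 : ℝ) ≤ (1 / 2) ^ N := by positivity
    linarith
  have h4 : (1 : ℝ) ≤ 2 ^ t0 := one_le_pow₀ (by norm_num)
  have h5 := h1.trans (add_le_add h2 h3)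
  rw [pow_succ]
  linarith

theorem configB (d n r : ℕ) (hd : 1 ≤ d) (hn : 1 ≤ n) (hr : 1 ≤ r)
    (hb : 16 * r ^ 2 * (Nat.log 2 (n + r) + 2) ≤ n + r) :
    ∃ X : Finset (EuclideanSpace ℝ (Fin d)), X.card = (n + r - 1) * (d + 1) ∧
      ∀ f : EuclideanSpace ℝ (Fin d) → Fin (n + r), ∃ I : Finset (Fin (n + r)), I.card = n ∧
        (⋂ i ∈ I, convexHull ℝ {x : EuclideanSpace ℝ (Fin d) | x ∈ X ∧ f x = i}) = ∅ := by
  set m := n + r with hm
  set k := Nat.log 2 m with hk
  have hmk : m < 2 ^ (k + 1) := Nat.lt_pow_succ_log_self (by norm_num) m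
  set s := 8 * (2 * r - 1) with hs
  have hrr : r ≤ r ^ 2 := by nlinarith
  have hs1 : s ≤ m - 1 := by
    have : 16 * r * 2 ≤ m := by
      calc 16 * r * 2 ≤ 16 * r ^ 2 * (k + 2) := by
            apply Nat.mul_le_mul
            · omega
            · omega
        _ ≤ m := hb
    omega
  set L := m / r with hLdef
  have hLr : L * r ≤ m := Nat.div_mul_le_self m r
  have hL : 16 * r * (k + 2) ≤ L := by
    rw [hLdef, Nat.le_div_iff_mul_le (by omega)]
    calc 16 * r * (k + 2) * r = 16 * r ^ 2 * (k + 2) := by ring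
      _ ≤ m := hb
  let t0 := s * (k + 2)
  have ht0 : (2 * m : ℝ) ^ s ≤ 2 ^ t0 := by
    have h1 : 2 * m ≤ 2 ^ (k + 2) := by
      rw [pow_succ]
      omega
    have h2 : (2 * m) ^ s ≤ 2 ^ t0 := by
      calc (2 * m) ^ s ≤ (2 ^ (k + 2)) ^ s := Nat.pow_le_pow_left h1 s
        _ = 2 ^ t0 := by rw [← pow_mul, mul_comm]
    exact_mod_cast h2
  have hfin : (m : ℝ) * 2 ^ (t0 + 1) < 2 ^ (L - 1) := by
    have h1 : m * 2 ^ (t0 + 1) < 2 ^ (L - 1) := by
      calc m * 2 ^ (t0 + 1) < 2 ^ (k + 1) * 2 ^ (t0 + 1) :=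
            Nat.mul_lt_mul_of_pos_right hmk (by positivity)
        _ = 2 ^ (k + 1 + (t0 + 1)) := by rw [← pow_add]
        _ ≤ 2 ^ (L - 1) := by
            apply Nat.pow_le_pow_right (by norm_num)
            have h3 : t0 + 8 * (k + 2) = 16 * r * (k + 2) := by
              simp only [t0, hs]
              obtain ⟨q, rfl⟩ : ∃ q, r = q + 1 := ⟨r - 1, by omega⟩
              have : 2 * (q + 1) - 1 = 2 * q + 1 := by omega
              rw [this]
              ring
            omega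
    exact_mod_cast h1
  obtain ⟨H, hH⟩ := exists_table m r s (2 * (r - 1)) L (d + 1) (by omega) (by omega)
    (by omega) 2 (by norm_num) (pB m s) (pB_nonneg m s) (fun χ P S hS => hp_B hr hs χ P S hS)
    (2 ^ (t0 + 1)) (sum_pB_le m s t0 _ ht0) hfin
  exact config_of_table d n r s (2 * (r - 1)) L hd hr hs1 hn le_rfl hLr H hH

end Pool.Agent.MP_59bbdb_co
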