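import Mathlib
import Pool.Agent.MP_59bbdb_co.LinTrop
import Pool.Agent.MP_59bbdb_co.LinAssemble

/-!
# Static clusters: the pigeonhole argument

All clusters carry one order, the same in every direction.  `Off c k H x` says that the cluster `k`
does not exclude the colour `x` as soon as the colours of `H` are chosen.  A set `H` of `t` missing
colours and `x ∈ H` are chosen by averaging such that few clusters offer `x`; each of these
clusters is then excluded by one of its missing colours.
-/

set_option autoImplicit false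

namespace Pool.Agent.MP_59bbdb_co.Quad

open Finset

variable {d M m : ℕ}

/-- The cluster `k` contains all colours of `H`, and every point whose colour is in `H` and is not
repeated in the cluster `k` lies weakly below a point of colour `x`. -/
def Off (c : Fin (d + 1) × Fin M → Fin m) (k : Fin (d + 1)) (H : Finset (Fin m)) (x : Fin m) :
    Prop :=
  (∀ A ∈ H, ∃ a, c (k, a) = A) ∧
    ∀ a0 : Fin M, c (k, a0) ∈ H → (∀ a', a' ≠ a0 → c (k, a') ≠ c (k, a0)) →
      ∃ a, c (k, a) = x ∧ a0 ≤ a

open Classical in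
/-- Missing colours of the cluster `k`. -/
noncomputable def Mis (c : Fin (d + 1) × Fin M → Fin m) (k : Fin (d + 1)) : Finset (Fin m) :=
  univ.filter (fun x => ∀ a, c (k, a) ≠ x)

open Classical in
/-- Repeated colours of the cluster `k`. -/
noncomputable def Rep (c : Fin (d + 1) × Fin M → Fin m) (k : Fin (d + 1)) : Finset (Fin m) :=
  univ.filter (fun x => ∃ a a', a ≠ a' ∧ c (k, a) = x ∧ c (k, a') = x)

lemma mem_Mis (c : Fin (d + 1) × Fin M → Fin m) (k : Fin (d + 1)) (x : Fin m) :
    x ∈ Mis c k ↔ ∀ a, c (k, a) ≠ x := by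
  classical
  simp [Mis]

lemma mem_Rep (c : Fin (d + 1) × Fin M → Fin m) (k : Fin (d + 1)) (x : Fin m) :
    x ∈ Rep c k ↔ ∃ a a', a ≠ a' ∧ c (k, a) = x ∧ c (k, a') = x := by
  classical
  simp [Rep]

/-- A cluster of `m - 1` points has fewer repeated colours than missing colours. -/
lemma card_Rep_lt (c : Fin (d + 1) × Fin M → Fin m) (k : Fin (d + 1)) (hM : M + 1 = m) :
    (Rep c k).card + 1 ≤ (Mis c k).card := by
  classical
  -- choose one point for every present colour and a second one for the repeated colours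
  set P : Finset (Fin m) := univ.image (fun a : Fin M => c (k, a)) with hP
  have hPM : P.card + (Mis c k).card = m := by
    have h1 : Mis c k = univ \ P := by
      ext x
      simp [mem_Mis, hP]
    rw [h1, add_comm, Finset.card_sdiff_add_card_eq_card (Finset.subset_univ _)]
    simp
  have hRP : Rep c k ⊆ P := by
    intro x hx
    rw [mem_Rep] at hx
    obtain ⟨a, a', -, h, -⟩ := hx
    rw [hP, Finset.mem_image]
    exact ⟨a, Finset.mem_univ _, h⟩
  have hsum : ∑ x ∈ P, (univ.filter (fun a : Fin M => c (k, a) = x)).card = M := by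
    have := Finset.card_eq_sum_card_image (fun a : Fin M => c (k, a)) univ
    rw [Finset.card_univ, Fintype.card_fin] at this
    rw [hP, ← this]
  have hge : ∑ x ∈ P, (1 + if x ∈ Rep c k then 1 else 0) ≤
      ∑ x ∈ P, (univ.filter (fun a : Fin M => c (k, a) = x)).card := by
    apply Finset.sum_le_sum
    intro x hx
    rw [hP, Finset.mem_image] at hx
    obtain ⟨a, -, ha⟩ := hx
    split_ifs with h
    · rw [mem_Rep] at h
      obtain ⟨a1, a2, hne, h1, h2⟩ := h
      have : ({a1, a2} : Finset (Fin M)) ⊆ univ.filter (fun a : Fin M => c (k, a) = x) := by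
        intro y hy
        rw [Finset.mem_insert, Finset.mem_singleton] at hy
        rcases hy with rfl | rfl
        · simp [h1]
        · simp [h2]
      have h3 := Finset.card_le_card this
      rw [Finset.card_pair hne] at h3
      omega
    · have : 0 < (univ.filter (fun a : Fin M => c (k, a) = x)).card :=
        Finset.card_pos.mpr ⟨a, by simp [ha]⟩
      omega
  rw [Finset.sum_add_distrib, hsum] at hge
  have h5 : ∑ x ∈ P, (if x ∈ Rep c k then 1 else 0) = (Rep c k).card := by
    rw [← Finset.card_filter]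
    congr 1
    ext x
    rw [Finset.mem_filter]
    exact ⟨fun h => h.2, fun h => ⟨hRP h, h⟩⟩
  rw [h5] at hge
  simp only [Finset.sum_const, smul_eq_mul, mul_one] at hge
  omega

open Classical in
/-- For one cluster: the pairs `(H, x)` with `x ∈ H` offered. -/
lemma card_off_le (c : Fin (d + 1) × Fin M → Fin m) (k : Fin (d + 1)) (hM : M + 1 = m)
    (C : Finset (Fin m)) (hC : Mis c k ⊆ C) (t : ℕ) :
    (((C.powersetCard t) ×ˢ C).filter (fun q => q.2 ∈ q.1 ∧ Off c k q.1 q.2)).card
      ≤ (C.card - 1).choose t := by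
  classical
  have hcard := card_Rep_lt c k hM
  have hne : (Mis c k).Nonempty := Finset.card_pos.mp (by omega)
  obtain ⟨b, hb⟩ := hne
  have hle : (Rep c k).card ≤ ((Mis c k).erase b).card := by
    rw [Finset.card_erase_of_mem hb]
    omega
  obtain ⟨ψ, hψ1, hψ2⟩ : ∃ ψ : Fin m → Fin m, (∀ x ∈ Rep c k, ψ x ∈ (Mis c k).erase b) ∧
      Set.InjOn ψ (Rep c k) := by
    have hle' : Fintype.card (Rep c k) ≤ Fintype.card ((Mis c k).erase b) := by
      rw [Fintype.card_coe, Fintype.card_coe]
      exact hle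
    obtain ⟨f⟩ := Function.Embedding.nonempty_of_card_le hle'
    refine ⟨fun x => if h : x ∈ Rep c k then (f ⟨x, h⟩ : Fin m) else x, ?_, ?_⟩
    · intro x hx
      simp only [hx, dif_pos]
      exact (f ⟨x, hx⟩).2
    · intro x hx y hy hxy
      rw [Finset.mem_coe] at hx hy
      simp only [hx, hy, dif_pos] at hxy
      have := f.injective (Subtype.ext hxy)
      exact congrArg Subtype.val this
  have hbC : b ∈ C := hC hb
  rw [← Finset.card_erase_of_mem hbC, ← Finset.card_powersetCard]
  refine Finset.card_le_card_of_injOn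
    (fun q => if q.2 ∈ Rep c k then insert (ψ q.2) (q.1.erase q.2) else q.1) ?_ ?_
  · intro q hq
    rw [Finset.mem_coe, Finset.mem_filter, Finset.mem_product, Finset.mem_powersetCard] at hq
    obtain ⟨⟨⟨hH1, hH2⟩, hx⟩, hxH, hoff⟩ := hq
    rw [Finset.mem_coe, Finset.mem_powersetCard]
    have hdisj : ∀ A ∈ q.1, A ∉ Mis c k := by
      intro A hA hA2
      rw [mem_Mis] at hA2
      obtain ⟨a, ha⟩ := hoff.1 A hA
      exact hA2 a ha
    simp only
    split_ifs with hR
    · have h1 := hψ1 q.2 hR
      rw [Finset.mem_erase] at h1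
      refine ⟨?_, ?_⟩
      · intro y hy
        rw [Finset.mem_insert] at hy
        rcases hy with rfl | hy
        · exact Finset.mem_erase.mpr ⟨h1.1, hC h1.2⟩
        · have hy2 := Finset.mem_of_mem_erase hy
          exact Finset.mem_erase.mpr ⟨fun h => hdisj y hy2 (h ▸ hb), hH1 hy2⟩
      · have hnot : ψ q.2 ∉ q.1.erase q.2 := fun h =>
          hdisj _ (Finset.mem_of_mem_erase h) h1.2
        rw [Finset.card_insert_of_notMem hnot, Finset.card_erase_of_mem hxH]
        have : 0 < q.1.card := Finset.card_pos.mpr ⟨_, hxH⟩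
        omega
    · refine ⟨?_, hH2⟩
      intro y hy
      exact Finset.mem_erase.mpr ⟨fun h => hdisj y hy (h ▸ hb), hH1 hy⟩
  · intro q hq q' hq' heq
    rw [Finset.mem_coe, Finset.mem_filter, Finset.mem_product, Finset.mem_powersetCard] at hq hq'
    obtain ⟨⟨⟨hH1, hH2⟩, hx⟩, hxH, hoff⟩ := hq
    obtain ⟨⟨⟨hH1', hH2'⟩, hx'⟩, hxH', hoff'⟩ := hq'
    have hdisj : ∀ A ∈ q.1, A ∉ Mis c k := by
      intro A hA hA2
      rw [mem_Mis] at hA2
      obtain ⟨a, ha⟩ := hoff.1 A hA
      exact hA2 a ha
    have hdisj' : ∀ A ∈ q'.1, A ∉ Mis c k := by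
      intro A hA hA2
      rw [mem_Mis] at hA2
      obtain ⟨a, ha⟩ := hoff'.1 A hA
      exact hA2 a ha
    simp only at heq
    by_cases hR : q.2 ∈ Rep c k
    · have h1 := hψ1 q.2 hR
      rw [Finset.mem_erase] at h1
      rw [if_pos hR] at heq
      by_cases hR' : q'.2 ∈ Rep c k
      · have h1' := hψ1 q'.2 hR'
        rw [Finset.mem_erase] at h1'
        rw [if_pos hR'] at heq
        have h2 : ψ q.2 ∈ insert (ψ q'.2) (q'.1.erase q'.2) := by
          rw [← heq]
          exact Finset.mem_insert_self _ _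
        rw [Finset.mem_insert] at h2
        rcases h2 with h2 | h2
        · have h3 : q.2 = q'.2 := hψ2 hR hR' h2
          have h4 : q.1 = q'.1 := by
            have h5 : (insert (ψ q.2) (q.1.erase q.2)).erase (ψ q.2)
                = (insert (ψ q'.2) (q'.1.erase q'.2)).erase (ψ q'.2) := by
              rw [heq, h2]
            rw [Finset.erase_insert, Finset.erase_insert] at h5
            · have h6 : insert q.2 (q.1.erase q.2) = insert q'.2 (q'.1.erase q'.2) := by
                rw [h5, h3]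
              rwa [Finset.insert_erase hxH, Finset.insert_erase hxH'] at h6
            · exact fun h => hdisj' _ (Finset.mem_of_mem_erase h) h1'.2
            · exact fun h => hdisj _ (Finset.mem_of_mem_erase h) h1.2
          exact Prod.ext h4 h3
        · exact absurd h1.2 (hdisj' _ (Finset.mem_of_mem_erase h2))
      · rw [if_neg hR'] at heq
        have h2 : ψ q.2 ∈ q'.1 := by
          rw [← heq]
          exact Finset.mem_insert_self _ _
        exact absurd h1.2 (hdisj' _ h2)
    · rw [if_neg hR] at heq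
      by_cases hR' : q'.2 ∈ Rep c k
      · have h1' := hψ1 q'.2 hR'
        rw [Finset.mem_erase] at h1'
        rw [if_pos hR'] at heq
        have h2 : ψ q'.2 ∈ q.1 := by
          rw [heq]
          exact Finset.mem_insert_self _ _
        exact absurd h1'.2 (hdisj _ h2)
      · rw [if_neg hR'] at heq
        -- both are single: the top single colour is unique
        obtain ⟨a, ha⟩ := hoff.1 q.2 hxH
        obtain ⟨a', ha'⟩ := hoff'.1 q'.2 hxH'
        have hs : ∀ y, y ≠ a → c (k, y) ≠ c (k, a) := by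
          intro y hy h
          apply hR
          rw [mem_Rep]
          exact ⟨y, a, hy, by rw [h, ha], ha⟩
        have hs' : ∀ y, y ≠ a' → c (k, y) ≠ c (k, a') := by
          intro y hy h
          apply hR'
          rw [mem_Rep]
          exact ⟨y, a', hy, by rw [h, ha'], ha'⟩
        obtain ⟨z, hz, hz2⟩ := hoff.2 a' (by rw [ha', heq]; exact hxH') hs'
        obtain ⟨z', hz', hz2'⟩ := hoff'.2 a (by rw [ha, ← heq]; exact hxH) hs
        have e1 : z = a := by
          by_contra h
          exact hs z h (by rw [hz, ha])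
        have e2 : z' = a' := by
          by_contra h
          exact hs' z' h (by rw [hz', ha'])
        subst e1 e2
        have e3 : z = z' := le_antisymm hz2' hz2
        have e4 : q.2 = q'.2 := by rw [← ha, ← ha', e3]
        exact Prod.ext heq e4

/-- The choice of `I`. -/
theorem exists_I (c : Fin (d + 1) × Fin M → Fin m) (hM : M + 1 = m) (n t : ℕ) (ht : 1 ≤ t)
    (htn : t ≤ n) (hnm : n ≤ m) (hb : (d + 1) * (m - t) < m * (t * (n - t + 1))) :
    ∃ I : Finset (Fin m), I.card = n ∧ ((∀ k, ∃ b ∈ Mis c k, b ∈ I) ∨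
      ∃ H ⊆ I, ∃ x ∈ H, (∃ j, x ∈ Mis c j) ∧
        ∀ k, Off c k H x → ∃ b ∈ Mis c k, b ∈ I) := by
  classical
  set C : Finset (Fin m) := univ.biUnion (fun k => Mis c k) with hC
  have hMC : ∀ k, Mis c k ⊆ C := fun k => Finset.subset_biUnion_of_mem _ (Finset.mem_univ k)
  have hMne : ∀ k, (Mis c k).Nonempty := by
    intro k
    have := card_Rep_lt c k hM
    exact Finset.card_pos.mp (by omega)
  have hext : ∀ J : Finset (Fin m), J.card ≤ n → ∃ I : Finset (Fin m), J ⊆ I ∧ I.card = n := by
    intro J hJ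
    obtain ⟨I, hJI, -, hI⟩ := Finset.exists_subsuperset_card_eq (Finset.subset_univ J) hJ
      (by rw [Finset.card_univ, Fintype.card_fin]; exact hnm)
    exact ⟨I, hJI, hI⟩
  choose b hbM using hMne
  by_cases hp : C.card < t
  · obtain ⟨I, hCI, hI⟩ := hext C (by omega)
    exact ⟨I, hI, Or.inl (fun k => ⟨b k, hbM k, hCI (hMC k (hbM k))⟩)⟩
  push Not at hp
  -- averaging
  set F : Finset (Fin m) × Fin m → ℕ := fun q => (univ.filter (fun k => Off c k q.1 q.2)).card
    with hF
  set Q : Finset (Finset (Fin m) × Fin m) :=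
    ((C.powersetCard t) ×ˢ C).filter (fun q => q.2 ∈ q.1) with hQ
  have hQcard : Q.card = t * C.card.choose t := by
    rw [hQ, Finset.card_filter, Finset.sum_product]
    have h1 : ∀ H ∈ C.powersetCard t, ∑ x ∈ C, (if x ∈ H then 1 else 0) = t := by
      intro H hH
      rw [Finset.mem_powersetCard] at hH
      rw [← Finset.card_filter, Finset.filter_mem_eq_inter, Finset.inter_eq_right.mpr hH.1, hH.2]
    rw [Finset.sum_congr rfl h1, Finset.sum_const, Finset.card_powersetCard, smul_eq_mul, mul_comm]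
  have hsum : ∑ q ∈ Q, F q ≤ (d + 1) * (C.card - 1).choose t := by
    calc ∑ q ∈ Q, F q = ∑ q ∈ Q, ∑ k : Fin (d + 1), (if Off c k q.1 q.2 then 1 else 0) := by
          apply Finset.sum_congr rfl
          intro q _
          simp only [hF]
          rw [Finset.card_filter]
      _ = ∑ k : Fin (d + 1), ∑ q ∈ Q, (if Off c k q.1 q.2 then 1 else 0) := Finset.sum_comm
      _ ≤ ∑ _k : Fin (d + 1), (C.card - 1).choose t := by
          apply Finset.sum_le_sum
          intro k _
          rw [← Finset.card_filter, hQ, Finset.filter_filter]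
          exact card_off_le c k hM C (hMC k) t
      _ = (d + 1) * (C.card - 1).choose t := by simp
  have hpos : 0 < Q.card := by
    rw [hQcard]
    exact Nat.mul_pos ht (Nat.choose_pos hp)
  obtain ⟨q, hq, hqF⟩ : ∃ q ∈ Q, F q * Q.card ≤ (d + 1) * (C.card - 1).choose t := by
    by_contra hcon
    push Not at hcon
    have h1 : ∑ q ∈ Q, ((d + 1) * (C.card - 1).choose t) < ∑ q ∈ Q, F q * Q.card :=
      Finset.sum_lt_sum_of_nonempty (Finset.card_pos.mp hpos) hcon
    rw [Finset.sum_const, smul_eq_mul, ← Finset.sum_mul, mul_comm] at h1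
    exact absurd (Nat.mul_le_mul_right Q.card hsum) (not_le.mpr h1)
  have hF1 : F q ≤ n - t := by
    have hpm : C.card ≤ m := by
      have := Finset.card_le_univ C
      rwa [Fintype.card_fin] at this
    obtain ⟨p, hpp⟩ : ∃ p, C.card = p + 1 := ⟨C.card - 1, by omega⟩
    rw [hQcard, hpp] at hqF
    rw [hpp] at hp hpm
    simp only [Nat.add_sub_cancel] at hqF
    have hid := Nat.choose_mul_succ_eq p t
    have hch : 0 < (p + 1).choose t := Nat.choose_pos hp
    have h1 : F q * t * (p + 1) ≤ (d + 1) * (p + 1 - t) := by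
      apply Nat.le_of_mul_le_mul_left _ hch
      calc (p + 1).choose t * (F q * t * (p + 1))
          = (F q * (t * (p + 1).choose t)) * (p + 1) := by ring
        _ ≤ ((d + 1) * p.choose t) * (p + 1) := Nat.mul_le_mul_right _ hqF
        _ = (d + 1) * (p.choose t * (p + 1)) := by ring
        _ = (d + 1) * ((p + 1).choose t * (p + 1 - t)) := by rw [hid]
        _ = (p + 1).choose t * ((d + 1) * (p + 1 - t)) := by ring
    have h2 : (p + 1 - t) * m ≤ (m - t) * (p + 1) := by
      obtain ⟨u, hu⟩ := Nat.exists_eq_add_of_le hp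
      obtain ⟨v, hv⟩ := Nat.exists_eq_add_of_le hpm
      rw [hv, hu]
      have e1 : t + u - t = u := by omega
      have e2 : t + u + v - t = u + v := by omega
      rw [e1, e2]
      nlinarith
    have h3 : F q * t * m ≤ (d + 1) * (m - t) := by
      apply Nat.le_of_mul_le_mul_left _ (Nat.succ_pos p)
      calc (p + 1) * (F q * t * m) = (F q * t * (p + 1)) * m := by ring
        _ ≤ ((d + 1) * (p + 1 - t)) * m := Nat.mul_le_mul_right _ h1
        _ = (d + 1) * ((p + 1 - t) * m) := by ring
        _ ≤ (d + 1) * ((m - t) * (p + 1)) := Nat.mul_le_mul_left _ h2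
        _ = (p + 1) * ((d + 1) * (m - t)) := by ring
    have h4 : (m * t) * F q < (m * t) * (n - t + 1) := by
      calc (m * t) * F q = F q * t * m := by ring
        _ ≤ (d + 1) * (m - t) := h3
        _ < m * (t * (n - t + 1)) := hb
        _ = (m * t) * (n - t + 1) := by ring
    have h5 := Nat.lt_of_mul_lt_mul_left h4
    omega
  rw [hQ, Finset.mem_filter, Finset.mem_product, Finset.mem_powersetCard] at hq
  obtain ⟨⟨⟨hH1, hH2⟩, hx⟩, hxH⟩ := hq
  obtain ⟨I, hJI, hI⟩ := hext (q.1 ∪ (univ.filter (fun k => Off c k q.1 q.2)).image b) (by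
    refine (Finset.card_union_le _ _).trans ?_
    have h1 : ((univ.filter (fun k => Off c k q.1 q.2)).image b).card ≤ F q :=
      Finset.card_image_le
    omega)
  refine ⟨I, hI, Or.inr ⟨q.1, Finset.subset_union_left.trans hJI, q.2, hxH, ?_, ?_⟩⟩
  · rw [hC, Finset.mem_biUnion] at hx
    obtain ⟨j, -, hj⟩ := hx
    exact ⟨j, hj⟩
  · intro k hk
    refine ⟨b k, hbM k, hJI (Finset.mem_union_right _ ?_)⟩
    exact Finset.mem_image_of_mem b (by simp [hk])

/-- The configuration. -/
theorem configQ (d m n t : ℕ) (hd : 1 ≤ d) (ht : 1 ≤ t) (htn : t ≤ n) (hnm : n ≤ m)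
    (hb : (d + 1) * (m - t) < m * (t * (n - t + 1))) :
    ∃ X : Finset (EuclideanSpace ℝ (Fin d)), X.card = (m - 1) * (d + 1) ∧
      ∀ f : EuclideanSpace ℝ (Fin d) → Fin m, ∃ I : Finset (Fin m), I.card = n ∧
        (⋂ i ∈ I, convexHull ℝ {x : EuclideanSpace ℝ (Fin d) | x ∈ X ∧ f x = i}) = ∅ := by
  classical
  set lev : Fin (d + 1) → Fin (d + 1) → Fin (m - 1) → ℕ := fun _ _ a => (a : ℕ) with hlev
  set S : ℝ := (d : ℝ) + 2 with hS
  set T : ℝ := S ^ (2 * (m - 1)) + 1 with hT
  refine Lin.exists_config lev T S hd n ?_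
  intro c
  obtain ⟨I, hI, h⟩ := exists_I c (by omega) n t ht htn hnm hb
  refine ⟨I, hI, ?_⟩
  intro hL
  have hIne : I.Nonempty := Finset.card_pos.mp (by omega)
  have key2 : ∀ (j : Fin (d + 1)) (x : Fin m), x ∈ Mis c j → x ∈ I →
      ∃ k, (∀ A ∈ I, ∃ a, c (k, a) = A) ∧ ∀ a0, c (k, a0) ∈ I →
        (∀ a', a' ≠ a0 → c (k, a') ≠ c (k, a0)) → ∃ a, c (k, a) = x ∧ a0 ≤ a := by
    intro j x hx hxI
    obtain ⟨φ, h1, h2, -⟩ := Lin.trop lev T S c I (m - 1) (fun k j a => le_of_lt a.2) hS
        (by rw [hT]; linarith) hL {j} (fun _ => x) (by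
      intro j' hj'
      rw [Finset.mem_singleton] at hj'
      subst hj'
      refine ⟨hxI, ?_⟩
      rintro ⟨k, a⟩ rfl
      exact (mem_Mis c _ x).mp hx a)
    refine ⟨φ j, h1 j (Finset.mem_singleton_self j), ?_⟩
    intro a0 h3 h4
    obtain ⟨a, ha, hle⟩ := h2 j (Finset.mem_singleton_self j) a0 h3 h4
    exact ⟨a, ha, hle⟩
  rcases h with h | ⟨H, hHI, x, hxH, ⟨j, hxj⟩, hoff⟩
  · obtain ⟨b, hbM, hbI⟩ := h 0
    obtain ⟨k, h1, -⟩ := key2 0 b hbM hbI
    obtain ⟨b', hbM', hbI'⟩ := h k
    obtain ⟨a, ha⟩ := h1 b' hbI'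
    exact (mem_Mis c k b').mp hbM' a ha
  · obtain ⟨k, h1, h2⟩ := key2 j x hxj (hHI hxH)
    obtain ⟨b', hbM', hbI'⟩ := hoff k ⟨fun A hA => h1 A (hHI hA),
      fun a0 h3 h4 => h2 a0 (hHI h3) h4⟩
    obtain ⟨a, ha⟩ := h1 b' hbI'
    exact (mem_Mis c k b').mp hbM' a ha

end Pool.Agent.MP_59bbdb_co.Quad
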